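import Pool.Agent.R920.PD.Defs
import Pool.Agent.R920.MT.Defs

/-!
# The weak form of the period conjecture: definitions
-/

open CategoryTheory AlgebraicGeometry

universe u v

namespace Pool.Agent.R920.PD

/-- There are `r` elements of `V` which are algebraically independent over `k`. -/
def HasIndep (k : Type*) {S : Type*} [Field k] [CommRing S] [Algebra k S] (V : Submodule k S)
    (r : ℕ) : Prop :=
  ∃ v : Fin r → S, (∀ i, v i ∈ V) ∧ AlgebraicIndependent k v

open Pool.Agent.H914 Pool.Agent.H914.VarClass Pool.Agent.H914.VarClass.Obj
  Pool.Agent.H914.WeilCohomology Pool.Agent.Y133.Per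
open Pool.Agent.Y133.Half (pw)

variable {k : Type u} [Field k] {𝒱 : VarClass k} {ops : CycleOps 𝒱}

/-- The motivated classes. -/
def motivated (W : WeilCohomology.{u, v} ops) : Classes W :=
  fun Y j => {c | Pool.Agent.R920.MT.IsMotivated W Y j c}

variable {W : WeilCohomology.{u, v} ops} [Algebra W.K ℂ] {F : Subfield ℂ}

/-- If there are `r` formal periods of `X` which are algebraically independent over `F` then there
are `r` periods of `X` which are algebraically independent over `F`: the transcendence degree over
`F` of the field generated by the periods of `X` is equal to the dimension of the group of the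
automorphisms. -/
def WeakPeriodConjecture (D : DeRham W F) (C : Classes W) (X : 𝒱.Obj) : Prop :=
  ∀ r, HasIndep F (formalPeriods D C X 0) r → HasIndep F (periods D X) r

end Pool.Agent.R920.PD
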