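import Pool.Agent.R920.PD.Law
import Pool.Agent.R920.PD.WDefs

/-!
# Finitely many points and the transcendence degree
-/

open Module Submodule

namespace Pool.Agent.R920.PD

section Alg

variable {k : Type*} [Field k]

/-- Algebraically independent elements can be found among generators. -/
lemma indep_of_gen {B ι : Type*} [CommRing B] [IsDomain B] [Algebra k B] [Finite ι] (T : Set B)
    (hT : Algebra.adjoin k T = ⊤) (w : ι → B) (hw : AlgebraicIndependent k w) :
    ∃ t : ι → B, (∀ i, t i ∈ T) ∧ AlgebraicIndependent k t := by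
  have halg : Algebra.IsAlgebraic (Algebra.adjoin k T) B := by
    constructor
    intro x
    have hx : x ∈ Algebra.adjoin k T := by rw [hT]; trivial
    exact isAlgebraic_algebraMap (R := Algebra.adjoin k T) (A := B) ⟨x, hx⟩
  obtain ⟨t, ht, hb⟩ := exists_isTranscendenceBasis_subset (R := k) (A := B) T
  have h1 := hw.lift_cardinalMk_le_trdeg
  rw [← hb.cardinalMk_eq_trdeg] at h1
  obtain ⟨f⟩ := Cardinal.lift_mk_le'.1 h1
  exact ⟨fun i => (f i : B), fun i => ht (f i).2, hb.1.comp f f.injective⟩

/-- An element of the kernel is transcendental over elements with algebraically independent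
images. -/
lemma indep_option {B L ι : Type*} [CommRing B] [IsDomain B] [Algebra k B] [CommRing L]
    [Algebra k L] (φ : B →ₐ[k] L) (v : ι → B) (hv : AlgebraicIndependent k (φ ∘ v)) (a : B)
    (ha : a ≠ 0) (hφ : φ a = 0) : AlgebraicIndependent k fun o : Option ι => o.elim a v := by
  have hv' : AlgebraicIndependent k v := AlgebraicIndependent.of_comp φ hv
  rw [hv'.option_iff_transcendental]
  have hinj : ∀ c ∈ Algebra.adjoin k (Set.range v), φ c = 0 → c = 0 := by
    intro c hc h0
    rw [Algebra.adjoin_range_eq_range_aeval] at hc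
    obtain ⟨q, rfl⟩ := hc
    have h1 : MvPolynomial.aeval (φ ∘ v) q = 0 := by
      have h2 : MvPolynomial.aeval (φ ∘ v) = φ.comp (MvPolynomial.aeval v) := by
        apply MvPolynomial.algHom_ext
        intro i
        simp
      rw [h2]
      exact h0
    have h3 : q = 0 := hv (by rw [h1, map_zero])
    rw [h3]
    exact map_zero _
  have key : ∀ (n : ℕ) (p : Polynomial (Algebra.adjoin k (Set.range v))), p.natDegree ≤ n →
      Polynomial.aeval a p = 0 → p = 0 := by
    intro n
    induction n with
    | zero =>
      intro p hp h0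
      rw [Polynomial.eq_C_of_natDegree_le_zero hp, Polynomial.aeval_C] at h0
      have h1 : p.coeff 0 = 0 := Subtype.ext h0
      rw [Polynomial.eq_C_of_natDegree_le_zero hp, h1, Polynomial.C_0]
    | succ n ih =>
      intro p hp h0
      have h1 := p.X_mul_divX_add
      have h2 : Polynomial.aeval a p = a * Polynomial.aeval a p.divX + (p.coeff 0 : B) := by
        conv_lhs => rw [← h1]
        rw [map_add, map_mul, Polynomial.aeval_X, Polynomial.aeval_C]
        rfl
      have h3 : p.coeff 0 = 0 := by
        apply Subtype.ext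
        apply hinj _ (p.coeff 0).2
        have h4 := congrArg φ h2
        rw [h0, map_zero, map_add, map_mul, hφ, zero_mul, zero_add] at h4
        exact h4.symm
      rw [h3] at h2
      have h5 : Polynomial.aeval a p.divX = 0 := by
        have h6 : a * Polynomial.aeval a p.divX = 0 := by
          rw [← h0, h2]
          exact (add_zero _).symm
        exact (mul_eq_zero.1 h6).resolve_left ha
      have h7 : p.divX = 0 := ih _ (by
        rw [Polynomial.natDegree_divX_eq_natDegree_tsub_one]
        omega) h5
      rw [← h1, h7, h3, mul_zero, Polynomial.C_0, add_zero]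
  rw [transcendental_iff]
  exact fun p hp => key _ p le_rfl hp

end Alg

variable {k S L : Type*} [Field k] [CommRing S] [Algebra k S] [CommRing L] [Algebra k L]
  [IsDomain L] {ι : Type*}

namespace Points

variable {V : Submodule k S} {ε : ι → S →ₐ[k] L} {p : ℕ → ℕ}

/-- The ideal of the elements of the algebra generated by `V` which vanish at a point. -/
noncomputable def kid (V : Submodule k S) (ε : ι → S →ₐ[k] L) (i : ι) :
    Ideal (Algebra.adjoin k (V : Set S)) :=
  RingHom.ker ((ε i).comp (Algebra.adjoin k (V : Set S)).val)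

lemma mem_kid {i : ι} {x : Algebra.adjoin k (V : Set S)} : x ∈ kid V ε i ↔ ε i x = 0 := by
  rw [kid, RingHom.mem_ker]
  rfl

lemma exists_pow (h1 : (1 : S) ∈ V) {x : S} (hx : x ∈ Algebra.adjoin k (V : Set S)) :
    ∃ n, x ∈ V ^ n := by
  refine Algebra.adjoin_induction (p := fun x _ => ∃ n, x ∈ V ^ n) ?_ ?_ ?_ ?_ hx
  · intro x hx
    exact ⟨1, by rw [pow_one]; exact hx⟩
  · intro r
    refine ⟨0, ?_⟩
    rw [pow_zero]
    exact Submodule.algebraMap_mem r
  · rintro x y _ _ ⟨m, hm⟩ ⟨n, hn⟩
    exact ⟨m + n, Submodule.add_mem _ (pow_mono h1 (Nat.le_add_right _ _) hm)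
      (pow_mono h1 (Nat.le_add_left _ _) hn)⟩
  · rintro x y _ _ ⟨m, hm⟩ ⟨n, hn⟩
    refine ⟨m + n, ?_⟩
    rw [pow_add]
    exact Submodule.mul_mem_mul hm hn

lemma pow_le_adjoin (V : Submodule k S) (n : ℕ) :
    V ^ n ≤ Subalgebra.toSubmodule (Algebra.adjoin k (V : Set S)) := by
  induction n with
  | zero =>
    rw [pow_zero, Submodule.one_le]
    exact one_mem (Algebra.adjoin k _)
  | succ n ih =>
    rw [pow_succ, Submodule.mul_le]
    intro a ha b hb
    exact mul_mem (S := Subalgebra k S) (ih ha) (Algebra.subset_adjoin hb)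

lemma zer_of_kid {i j : ι} (h : kid V ε i = kid V ε j) (n : ℕ) : zer V ε n i = zer V ε n j := by
  have key : ∀ i j : ι, kid V ε i = kid V ε j → zer V ε n i ≤ zer V ε n j := by
    intro i j hij x hx
    rw [mem_zer] at hx ⊢
    refine ⟨hx.1, ?_⟩
    have h1 : (⟨x, pow_le_adjoin V n hx.1⟩ : Algebra.adjoin k (V : Set S)) ∈ kid V ε i :=
      mem_kid.2 hx.2
    rw [hij] at h1
    exact mem_kid.1 h1
  exact le_antisymm (key i j h) (key j i h.symm)

lemma kid_of_zer (h : Points V ε p) {i j : ι} (hij : kid V ε i ≠ kid V ε j) :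
    ∃ n, zer V ε n i ≠ zer V ε n j := by
  by_contra hcon
  push Not at hcon
  apply hij
  have key : ∀ i j : ι, (∀ n, zer V ε n i = zer V ε n j) → kid V ε i ≤ kid V ε j := by
    intro i j hij x hx
    rw [mem_kid] at hx ⊢
    obtain ⟨n, hn⟩ := exists_pow h.one x.2
    have h1 : (x : S) ∈ zer V ε n i := mem_zer.2 ⟨hn, hx⟩
    rw [hij n] at h1
    exact (mem_zer.1 h1).2
  exact le_antisymm (key i j hcon) (key j i fun n => (hcon n).symm)

/-- The number of the points is finite if and only if there are finitely many ideals. -/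
lemma num_ne_top_iff [Nonempty ι] (h : Points V ε p) :
    num V ε ≠ ⊤ ↔ (Set.range (kid V ε)).Finite := by
  classical
  constructor
  · intro hn
    obtain ⟨r, hr⟩ := ENat.ne_top_iff_exists.1 hn
    by_contra hinf
    have h1 : ((r + 1 : ℕ) : ℕ∞) ≤ (Set.range (kid V ε)).encard := by
      rw [Set.encard_eq_top_iff.2 hinf]
      exact le_top
    obtain ⟨t, ht, htc⟩ := Set.exists_subset_encard_eq h1
    have htf : t.Finite := Set.finite_of_encard_eq_coe htc
    choose! g hg using fun (x : Ideal (Algebra.adjoin k (V : Set S))) (hx : x ∈ t) => ht hx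
    -- a common level
    have h2 : ∀ x ∈ t, ∀ y ∈ t, x ≠ y → ∃ n, zer V ε n (g x) ≠ zer V ε n (g y) := by
      intro x hx y hy hxy
      apply h.kid_of_zer
      rw [hg x hx, hg y hy]
      exact hxy
    choose! n hn' using h2
    set N := ∑ x ∈ htf.toFinset, ∑ y ∈ htf.toFinset, n x y with hN
    have h3 : Set.InjOn (fun x => zer V ε N (g x)) t := by
      intro x hx y hy hxy
      by_contra hne
      apply hn' x hx y hy hne
      refine h.zer_mono ?_ hxy
      rw [hN]
      refine (Finset.single_le_sum (f := fun y => n x y) (fun _ _ => Nat.zero_le _)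
        (htf.mem_toFinset.2 hy)).trans ?_
      exact Finset.single_le_sum (f := fun x => ∑ y ∈ htf.toFinset, n x y)
        (fun _ _ => Nat.zero_le _) (htf.mem_toFinset.2 hx)
    have h4 : t.encard ≤ (zers V ε N).encard :=
      Set.encard_le_encard_of_injOn (fun x _ => ⟨g x, rfl⟩) h3
    have h5 : (zers V ε N).encard ≤ r := hr ▸ le_iSup (fun d => (zers V ε d).encard) N
    rw [htc] at h4
    have h6 := h4.trans h5
    have h7 : r + 1 ≤ r := by exact_mod_cast h6
    omega
  · intro hf
    have h1 : num V ε ≤ (Set.range (kid V ε)).encard := by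
      apply iSup_le
      intro d
      have h2 : ∀ U ∈ zers V ε d, ∃ i, zer V ε d i = U := fun U hU => hU
      choose! g hg using h2
      refine Set.encard_le_encard_of_injOn (f := fun U => kid V ε (g U))
        (fun U _ => ⟨g U, rfl⟩) ?_
      intro U hU U' hU' hUU'
      rw [← hg U hU, ← hg U' hU']
      exact zer_of_kid hUU' d
    intro htop
    rw [htop, top_le_iff, Set.encard_eq_top_iff] at h1
    exact h1 hf

/-- **The weak form**: there are finitely many points if and only if the transcendence degrees are
equal. -/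
theorem weak [Nonempty ι] (h : Points V ε p) (i₀ : ι)
    (htr : ∀ i, V.map (ε i).toLinearMap = V.map (ε i₀).toLinearMap) :
    num V ε ≠ ⊤ ↔ ∀ r, HasIndep k V r → HasIndep k (V.map (ε i₀).toLinearMap) r := by
  classical
  have hVfin := h.fin
  rw [h.num_ne_top_iff]
  constructor
  · rintro hf r ⟨v, hv, hind⟩
    by_contra hcon
    have h1 : ∀ i, ∃ q : MvPolynomial (Fin r) k, q ≠ 0 ∧ ε i (MvPolynomial.aeval v q) = 0 := by
      intro i
      by_contra hno
      push Not at hno
      apply hcon
      refine ⟨fun j => ε i (v j), fun j => ?_, ?_⟩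
      · rw [← htr i]
        exact ⟨v j, hv j, rfl⟩
      · have h2 : AlgebraicIndependent k (fun j => ε i (v j)) := by
          rw [algebraicIndependent_iff]
          intro q hq
          by_contra hq0
          apply hno q hq0
          rw [← hq]
          have h3 : MvPolynomial.aeval (fun j => ε i (v j)) =
              (ε i).comp (MvPolynomial.aeval v) := by
            apply MvPolynomial.algHom_ext
            intro j
            simp
          rw [h3]
          rfl
        exact h2
    choose q hq0 hq using h1
    have h2 : ∀ U ∈ Set.range (kid V ε), ∃ i, kid V ε i = U := fun U hU => hU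
    choose! g hg using h2
    have hmem : ∀ q : MvPolynomial (Fin r) k,
        MvPolynomial.aeval v q ∈ Algebra.adjoin k (V : Set S) := by
      intro q
      have h3 : MvPolynomial.aeval v q ∈ Algebra.adjoin k (Set.range v) := by
        rw [Algebra.adjoin_range_eq_range_aeval]
        exact ⟨q, rfl⟩
      refine Algebra.adjoin_mono ?_ h3
      rintro _ ⟨j, rfl⟩
      exact hv j
    set P : MvPolynomial (Fin r) k := ∏ U ∈ hf.toFinset, q (g U) with hP
    have hP0 : P ≠ 0 := Finset.prod_ne_zero_iff.2 fun U _ => hq0 _
    have hPv : ∀ i, ε i (MvPolynomial.aeval v P) = 0 := by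
      intro i
      rw [hP, map_prod, map_prod]
      refine Finset.prod_eq_zero (i := kid V ε i) (hf.mem_toFinset.2 ⟨i, rfl⟩) ?_
      have h3 : (⟨_, hmem (q (g (kid V ε i)))⟩ : Algebra.adjoin k (V : Set S)) ∈
          kid V ε (g (kid V ε i)) := mem_kid.2 (hq _)
      rw [hg _ ⟨i, rfl⟩] at h3
      exact mem_kid.1 h3
    obtain ⟨n, hn⟩ := exists_pow h.one (hmem P)
    have h4 := h.dense n _ hn hPv
    exact hP0 (hind (by rw [h4, map_zero]))
  · intro hw
    -- the transcendence degree at the point `i₀`
    obtain ⟨e, he, he'⟩ : ∃ e, HasIndep k (V.map (ε i₀).toLinearMap) e ∧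
        ¬ HasIndep k (V.map (ε i₀).toLinearMap) (e + 1) := by
      by_contra hcon
      push Not at hcon
      have h1 : ∀ r, HasIndep k (V.map (ε i₀).toLinearMap) r := by
        intro r
        induction r with
        | zero =>
          refine ⟨Fin.elim0, fun i => i.elim0, ?_⟩
          rw [algebraicIndependent_empty_type_iff]
          exact (algebraMap k L).injective
        | succ r ih => exact hcon r ih
      obtain ⟨v, hv, hind⟩ := h1 (finrank k (V.map (ε i₀).toLinearMap) + 1)
      have h2 : LinearIndependent k (fun i => (⟨v i, hv i⟩ : V.map (ε i₀).toLinearMap)) := by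
        apply LinearIndependent.of_comp (Submodule.subtype _)
        exact hind.linearIndependent
      have h3 := h2.fintype_card_le_finrank
      rw [Fintype.card_fin] at h3
      omega
    -- the algebra is Noetherian
    have hfg : (Algebra.adjoin k (V : Set S)).FG := by
      obtain ⟨s, hs⟩ := Module.Finite.iff_fg.1 hVfin
      refine ⟨s, ?_⟩
      apply le_antisymm
      · apply Algebra.adjoin_mono
        rw [← hs]
        exact subset_span
      · apply Algebra.adjoin_le
        intro x hx
        have h1 : x ∈ span k (s : Set S) := by rw [hs]; exact hx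
        exact (span_le.2 Algebra.subset_adjoin :
          span k (s : Set S) ≤ Subalgebra.toSubmodule (Algebra.adjoin k (s : Set S))) h1
    have hnoe : IsNoetherianRing (Algebra.adjoin k (V : Set S)) := isNoetherianRing_of_fg hfg
    refine (minimalPrimes.finite_of_isNoetherianRing (Algebra.adjoin k (V : Set S))).subset ?_
    rintro _ ⟨i, rfl⟩
    have hprime : (kid V ε i).IsPrime := by
      rw [kid]
      exact RingHom.ker_isPrime _
    obtain ⟨Q, hQ, hQi⟩ := Ideal.exists_minimalPrimes_le (bot_le : ⊥ ≤ kid V ε i)
    rcases eq_or_ne Q (kid V ε i) with h1 | h1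
    · rw [← h1]
      exact hQ
    · exfalso
      have hQp : Q.IsPrime := hQ.1.1
      have hlt : Q < kid V ε i := lt_of_le_of_ne hQi h1
      obtain ⟨a, ha, haQ⟩ := SetLike.exists_of_lt hlt
      -- the map from the quotient
      let φ : (Algebra.adjoin k (V : Set S)) ⧸ Q →ₐ[k] L :=
        Ideal.Quotient.liftₐ Q ((ε i).comp (Algebra.adjoin k (V : Set S)).val)
          (fun x hx => mem_kid.1 (hQi hx))
      have hφ : ∀ x, φ (Ideal.Quotient.mkₐ k Q x) = ε i x := fun x => rfl
      obtain ⟨w, hw1, hw2⟩ := he
      have h2 : ∀ j, ∃ v ∈ V, ε i v = w j := by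
        intro j
        have h3 := hw1 j
        rw [← htr i] at h3
        exact h3
      choose v hv hvw using h2
      have hcomp : (φ ∘ fun j => Ideal.Quotient.mkₐ k Q ⟨v j, Algebra.subset_adjoin (hv j)⟩) =
          w := funext fun j => (hφ _).trans (hvw j)
      have h3 := indep_option φ (fun j => Ideal.Quotient.mkₐ k Q
        ⟨v j, Algebra.subset_adjoin (hv j)⟩) (by rw [hcomp]; exact hw2)
        (Ideal.Quotient.mkₐ k Q a) (by
          intro h0
          exact haQ (Ideal.Quotient.eq_zero_iff_mem.1 h0)) (by
          rw [hφ]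
          exact mem_kid.1 ha)
      obtain ⟨t, ht, htind⟩ := indep_of_gen
        {b : (Algebra.adjoin k (V : Set S)) ⧸ Q | ∃ (u : S) (hu : u ∈ V), b =
          Ideal.Quotient.mkₐ k Q ⟨u, Algebra.subset_adjoin hu⟩} (by
          rw [eq_top_iff]
          intro b _
          obtain ⟨⟨x, hx⟩, rfl⟩ := Ideal.Quotient.mkₐ_surjective k Q b
          refine Algebra.adjoin_induction (p := fun x hx => Ideal.Quotient.mkₐ k Q ⟨x, hx⟩ ∈
            Algebra.adjoin k {b : (Algebra.adjoin k (V : Set S)) ⧸ Q | ∃ (u : S) (hu : u ∈ V),
              b = Ideal.Quotient.mkₐ k Q ⟨u, Algebra.subset_adjoin hu⟩}) ?_ ?_ ?_ ?_ hx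
          · intro x hx
            exact Algebra.subset_adjoin ⟨x, hx, rfl⟩
          · intro r
            have h4 : (⟨algebraMap k S r, _⟩ : Algebra.adjoin k (V : Set S)) =
                algebraMap k (Algebra.adjoin k (V : Set S)) r := rfl
            rw [h4, AlgHom.commutes]
            exact Subalgebra.algebraMap_mem _ r
          · intro x y hx hy h5 h6
            have h4 : (⟨x + y, add_mem hx hy⟩ : Algebra.adjoin k (V : Set S)) =
              ⟨x, hx⟩ + ⟨y, hy⟩ := rfl
            rw [h4, map_add]
            exact add_mem h5 h6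
          · intro x y hx hy h5 h6
            have h4 : (⟨x * y, mul_mem hx hy⟩ : Algebra.adjoin k (V : Set S)) =
              ⟨x, hx⟩ * ⟨y, hy⟩ := rfl
            rw [h4, map_mul]
            exact mul_mem h5 h6) _ h3
      choose u hu hut using ht
      have h4 : AlgebraicIndependent k (fun o : Option (Fin e) =>
          (⟨u o, Algebra.subset_adjoin (hu o)⟩ : Algebra.adjoin k (V : Set S))) := by
        apply AlgebraicIndependent.of_comp (Ideal.Quotient.mkₐ k Q)
        have h5 : ((Ideal.Quotient.mkₐ k Q) ∘ fun o : Option (Fin e) =>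
            (⟨u o, Algebra.subset_adjoin (hu o)⟩ : Algebra.adjoin k (V : Set S))) = t :=
          funext fun o => (hut o).symm
        rw [h5]
        exact htind
      have h5 : AlgebraicIndependent k u :=
        h4.map' (f := (Algebra.adjoin k (V : Set S)).val) Subtype.val_injective
      apply he'
      apply hw
      have e5 : Fin (e + 1) ≃ Option (Fin e) := finSuccEquiv e
      exact ⟨fun j => u (e5 j), fun j => hu _, h5.comp e5 e5.injective⟩

end Points

end Pool.Agent.R920.PD
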