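import Mathlib

/-!
# Consequences of the basic inequality for sequences
-/

namespace Pool.Agent.R920.PD

/-- `p n / (n + 1) ^ (M - 1)` does not increase. -/
lemma shift_le {p : ℕ → ℕ} {M : ℕ} (hM : 1 ≤ M) (hp : ∀ n, (n + 1) * p (n + 1) ≤ (n + M) * p n)
    (m j : ℕ) : (p (m + j) : ℝ) * (m + 1) ^ (M - 1) ≤ (m + j + 1) ^ (M - 1) * p m := by
  induction j with
  | zero => simp [mul_comm]
  | succ j ih =>
    have h1 : ((m + j + 1 : ℕ) : ℝ) * p (m + j + 1) ≤ ((m + j + M : ℕ) : ℝ) * p (m + j) := by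
      exact_mod_cast hp (m + j)
    have hx : (0 : ℝ) < m + j + 1 := by positivity
    have h2 : ((m : ℝ) + j + 1) ^ (M - 1) * (m + j + M) ≤ (m + j + 2) ^ (M - 1) * (m + j + 1) := by
      have h3 := one_add_mul_le_pow (a := 1 / ((m : ℝ) + j + 1)) (by
        have : 0 ≤ 1 / ((m : ℝ) + j + 1) := by positivity
        linarith) (M - 1)
      have h4 : (((M - 1 : ℕ) : ℝ)) = M - 1 := by
        rw [Nat.cast_sub hM, Nat.cast_one]
      rw [h4] at h3
      have h5 : (1 + 1 / ((m : ℝ) + j + 1)) = (m + j + 2) / (m + j + 1) := by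
        field_simp
        ring
      rw [h5, div_pow] at h3
      have h6 : (1 + ((M : ℝ) - 1) * (1 / (m + j + 1))) = (m + j + M) / (m + j + 1) := by
        field_simp
        ring
      rw [h6, div_le_div_iff₀ hx (by positivity)] at h3
      linarith
    have h7 : ((p (m + (j + 1)) : ℕ) : ℝ) * (m + 1) ^ (M - 1) * (m + j + 1) ≤
        ((m : ℝ) + j + 2) ^ (M - 1) * p m * (m + j + 1) := by
      have h8 : ((p (m + (j + 1)) : ℕ) : ℝ) * (m + j + 1) ≤ (m + j + M) * p (m + j) := by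
        have := h1
        push_cast at this
        rw [← add_assoc]
        linarith
      have h9 : (0 : ℝ) ≤ (m + 1) ^ (M - 1) := by positivity
      have h10 : (0 : ℝ) ≤ (m : ℝ) + j + M := by positivity
      have h11 : (0 : ℝ) ≤ p m := by positivity
      calc ((p (m + (j + 1)) : ℕ) : ℝ) * (m + 1) ^ (M - 1) * (m + j + 1)
          = (((p (m + (j + 1)) : ℕ) : ℝ) * (m + j + 1)) * (m + 1) ^ (M - 1) := by ring
        _ ≤ ((m + j + M) * p (m + j)) * (m + 1) ^ (M - 1) := by gcongr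
        _ = (m + j + M) * (p (m + j) * (m + 1) ^ (M - 1)) := by ring
        _ ≤ (m + j + M) * ((m + j + 1) ^ (M - 1) * p m) := by gcongr
        _ = ((m + j + 1) ^ (M - 1) * (m + j + M)) * p m := by ring
        _ ≤ ((m + j + 2) ^ (M - 1) * (m + j + 1)) * p m := by gcongr
        _ = _ := by ring
    have h12 := le_of_mul_le_mul_right h7 hx
    have h13 : ((m : ℝ) + ((j + 1 : ℕ) : ℝ) + 1) = m + j + 2 := by
      push_cast
      ring
    rw [h13]
    exact h12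

/-- The lower bound for `p (n - e)` in terms of `p n`. -/
lemma shift_le' {p : ℕ → ℕ} {M : ℕ} (hM : 1 ≤ M) (hp : ∀ n, (n + 1) * p (n + 1) ≤ (n + M) * p n)
    {n e : ℕ} (he : e ≤ n) :
    (1 - (e : ℝ) / (n + 1)) ^ (M - 1) * p n ≤ p (n - e) := by
  have h := shift_le hM hp (n - e) e
  rw [Nat.sub_add_cancel he, Nat.cast_sub he] at h
  have hn : (0 : ℝ) < n + 1 := by positivity
  have h1 : (1 - (e : ℝ) / (n + 1)) = (n - e + 1) / (n + 1) := by
    field_simp
    ring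
  rw [h1, div_pow, div_mul_eq_mul_div, div_le_iff₀ (by positivity)]
  have h2 : ((n : ℝ) - e + e + 1) = n + 1 := by ring
  rw [h2] at h
  linarith

/-- The linear version. -/
lemma shift_lin {p : ℕ → ℕ} {M : ℕ} (hM : 1 ≤ M) (hp : ∀ n, (n + 1) * p (n + 1) ≤ (n + M) * p n)
    {n e : ℕ} (he : e ≤ n) :
    (1 - (e : ℝ) * M / (n + 1)) * p n ≤ p (n - e) := by
  refine le_trans (mul_le_mul_of_nonneg_right ?_ (Nat.cast_nonneg _)) (shift_le' hM hp he)
  have hn : (0 : ℝ) < n + 1 := by positivity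
  have he' : (e : ℝ) ≤ n := by exact_mod_cast he
  have h0 : (e : ℝ) / (n + 1) ≤ 1 := by
    rw [div_le_one hn]
    linarith
  have h1 := one_add_mul_le_pow (a := -((e : ℝ) / (n + 1))) (by linarith) (M - 1)
  have h2 : (((M - 1 : ℕ) : ℝ)) = M - 1 := by
    rw [Nat.cast_sub hM, Nat.cast_one]
  rw [h2] at h1
  have h3 : (0 : ℝ) ≤ e / (n + 1) := by positivity
  have h4 : (1 - (e : ℝ) * M / (n + 1)) ≤ 1 + ((M : ℝ) - 1) * -((e : ℝ) / (n + 1)) := by
    have : (e : ℝ) * M / (n + 1) = M * (e / (n + 1)) := by ring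
    rw [this]
    linarith
  calc (1 - (e : ℝ) * M / (n + 1)) ≤ 1 + ((M : ℝ) - 1) * -((e : ℝ) / (n + 1)) := h4
    _ ≤ (1 + -((e : ℝ) / (n + 1))) ^ (M - 1) := h1
    _ = _ := by rw [← sub_eq_add_neg]

lemma third_le {M : ℕ} (hM : 1 ≤ M) : (1 : ℝ) / 3 ≤ (1 - 1 / (M : ℝ)) ^ (M - 1) := by
  rcases Nat.eq_or_lt_of_le hM with h | h
  · rw [← h]
    norm_num
  · obtain ⟨m, rfl⟩ : ∃ m, M = m + 2 := ⟨M - 2, by omega⟩
    have h1 : (1 - 1 / (((m + 2 : ℕ) : ℝ))) = (1 + 1 / ((m : ℝ) + 1))⁻¹ := by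
      push_cast
      field_simp
      ring
    have h2 : m + 2 - 1 = m + 1 := by omega
    rw [h1, h2, inv_pow, one_div]
    apply inv_anti₀ (by positivity)
    have h3 : 1 + 1 / ((m : ℝ) + 1) ≤ Real.exp (1 / (m + 1)) := by
      have := Real.add_one_le_exp (1 / ((m : ℝ) + 1))
      linarith
    have h4 : (1 + 1 / ((m : ℝ) + 1)) ^ (m + 1) ≤ Real.exp (1 / (m + 1)) ^ (m + 1) := by
      apply pow_le_pow_left₀ (by positivity) h3
    rw [← Real.exp_nat_mul] at h4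
    have h5 : ((m + 1 : ℕ) : ℝ) * (1 / (m + 1)) = 1 := by
      push_cast
      field_simp
    rw [h5] at h4
    have h6 := Real.exp_one_lt_d9
    linarith

/-- The explicit bound in the case of infinitely many translates. -/
lemma rate {p f : ℕ → ℕ} {M d : ℕ} (hM : 1 ≤ M) (hd : 1 ≤ d)
    (hp : ∀ n, (n + 1) * p (n + 1) ≤ (n + M) * p n)
    (hf : ∀ r n, 1 ≤ r → (r - 1) * d ≤ n → r * p (n - (r - 1) * d) ≤ f n) (n : ℕ) :
    (n + 1) * p n ≤ 3 * d * M * f n := by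
  -- `r = ⌈(n + 1) / (d M)⌉`
  set r := n / (d * M) + 1 with hr
  have hdM : 0 < d * M := Nat.mul_pos hd hM
  have h1 : (r - 1) * (d * M) ≤ n := by
    rw [hr, Nat.add_sub_cancel]
    exact Nat.div_mul_le_self n (d * M)
  have h2 : n + 1 ≤ r * (d * M) := by
    rw [hr]
    have := Nat.lt_div_mul_add hdM (a := n)
    nlinarith
  have h3 : (r - 1) * d ≤ n := by
    refine le_trans ?_ h1
    rw [← mul_assoc]
    exact Nat.le_mul_of_pos_right _ hM
  have h4 := hf r n (hr ▸ Nat.le_add_left 1 _) h3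
  have h5 := shift_le' hM hp h3
  have hn : (0 : ℝ) < n + 1 := by positivity
  have hMr : (0 : ℝ) < M := by exact_mod_cast hM
  have h6 : (1 - 1 / (M : ℝ)) ≤ (1 - (((r - 1) * d : ℕ) : ℝ) / (n + 1)) := by
    have h7 : (((r - 1) * d : ℕ) : ℝ) / (n + 1) ≤ 1 / M := by
      rw [div_le_div_iff₀ hn hMr]
      have h8 : (((r - 1) * d : ℕ) : ℝ) * M ≤ n := by
        have : ((((r - 1) * (d * M) : ℕ)) : ℝ) ≤ n := by exact_mod_cast h1
        push_cast at this ⊢
        linarith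
      linarith
    linarith
  have h9 : (0 : ℝ) ≤ 1 - 1 / (M : ℝ) := by
    have : 1 / (M : ℝ) ≤ 1 := by
      rw [div_le_one hMr]
      exact_mod_cast hM
    linarith
  have h10 : (1 : ℝ) / 3 ≤ (1 - (((r - 1) * d : ℕ) : ℝ) / (n + 1)) ^ (M - 1) :=
    (third_le hM).trans (pow_le_pow_left₀ h9 h6 _)
  have h11 : (1 : ℝ) / 3 * p n ≤ p (n - (r - 1) * d) :=
    (mul_le_mul_of_nonneg_right h10 (Nat.cast_nonneg _)).trans h5
  have h12 : (r : ℝ) * p (n - (r - 1) * d) ≤ f n := by exact_mod_cast h4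
  have h13 : ((n : ℝ) + 1) ≤ r * (d * M) := by exact_mod_cast h2
  have hp0 : (0 : ℝ) ≤ p n := Nat.cast_nonneg _
  have h14 : ((n : ℝ) + 1) * p n ≤ 3 * d * M * f n := by
    calc ((n : ℝ) + 1) * p n ≤ (r * (d * M)) * p n := by gcongr
      _ = 3 * (d * M) * (r * (1 / 3 * p n)) := by ring
      _ ≤ 3 * (d * M) * (r * p (n - (r - 1) * d)) := by gcongr
      _ ≤ 3 * (d * M) * f n := by gcongr
      _ = _ := by ring
  exact_mod_cast h14

end Pool.Agent.R920.PD
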