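import Pool.Agent.R920.PD.Sep
import Pool.Agent.R920.PD.Num
import Pool.Agent.Y133.Half.PairDefs

/-!
# The law for the quotient of the Hilbert functions
-/

open Module Submodule Filter Topology ENNReal

namespace Pool.Agent.R920.PD

open Pool.Agent.Y133.Half (HasIndex)

variable {k S L : Type*} [Field k] [CommRing S] [Algebra k S] [CommRing L] [Algebra k L]
  [IsDomain L] {ι : Type*}

/-- A finite-dimensional subspace `V` with `1 ∈ V` and a family of points with the same Hilbert
functions such that the elements of the powers of `V` are determined by the values at these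
points. -/
structure Points (V : Submodule k S) (ε : ι → S →ₐ[k] L) (p : ℕ → ℕ) : Prop where
  fin : Module.Finite k V
  one : (1 : S) ∈ V
  img : ∀ i n, img V ε i n = p n
  dense : ∀ n, ∀ x ∈ V ^ n, (∀ i, ε i x = 0) → x = 0

/-- The elements of `V ^ n` which vanish at the point `i`. -/
noncomputable def zer (V : Submodule k S) (ε : ι → S →ₐ[k] L) (n : ℕ) (i : ι) :
    Submodule k S := V ^ n ⊓ LinearMap.ker (ε i).toLinearMap

lemma mem_zer {V : Submodule k S} {ε : ι → S →ₐ[k] L} {n : ℕ} {i : ι} {x : S} :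
    x ∈ zer V ε n i ↔ x ∈ V ^ n ∧ ε i x = 0 := by
  rw [zer, mem_inf, LinearMap.mem_ker, AlgHom.toLinearMap_apply]

namespace Points

variable {V : Submodule k S} {ε : ι → S →ₐ[k] L} {p : ℕ → ℕ}

lemma finrank_zer (h : Points V ε p) (n : ℕ) (i : ι) :
    p n + finrank k (zer V ε n i) = finrank k (V ^ n : Submodule k S) := by
  have := h.fin
  rw [← h.img i n]
  exact finrank_map_add _ _

lemma finite_zer (h : Points V ε p) (n : ℕ) (i : ι) : Module.Finite k (zer V ε n i) := by
  have := h.fin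
  exact Submodule.finiteDimensional_inf_left _ _

lemma exists_sep (h : Points V ε p) {n : ℕ} {i j : ι} (hij : zer V ε n i ≠ zer V ε n j) :
    ∃ a ∈ V ^ n, ε i a = 0 ∧ ε j a ≠ 0 := by
  by_contra hcon
  push Not at hcon
  apply hij
  have hle : zer V ε n i ≤ zer V ε n j := by
    intro x hx
    rw [mem_zer] at hx ⊢
    exact ⟨hx.1, hcon x hx.1 hx.2⟩
  have := h.finite_zer n j
  apply Submodule.eq_of_le_of_finrank_eq hle
  have h1 := h.finrank_zer n i
  have h2 := h.finrank_zer n j
  omega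

lemma zer_mono (h : Points V ε p) {m n : ℕ} (hmn : m ≤ n) {i j : ι}
    (hij : zer V ε n i = zer V ε n j) : zer V ε m i = zer V ε m j := by
  have key : ∀ i j : ι, zer V ε n i = zer V ε n j → zer V ε m i ≤ zer V ε m j := by
    intro i j hij x hx
    rw [mem_zer] at hx ⊢
    refine ⟨hx.1, ?_⟩
    have h1 : x ∈ zer V ε n i := mem_zer.2 ⟨pow_mono h.one hmn hx.1, hx.2⟩
    rw [hij] at h1
    exact (mem_zer.1 h1).2
  exact le_antisymm (key i j hij) (key j i hij.symm)

/-- The set of the different subspaces of `V ^ d` of elements vanishing at a point. -/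
def zers (V : Submodule k S) (ε : ι → S →ₐ[k] L) (d : ℕ) : Set (Submodule k S) :=
  Set.range (zer V ε d)

lemma lower [Nonempty ι] (h : Points V ε p) (d r n : ℕ) (hr : (r : ℕ∞) ≤ (zers V ε d).encard)
    (hn : (r - 1) * d ≤ n) : r * p (n - (r - 1) * d) ≤ finrank k (V ^ n : Submodule k S) := by
  classical
  have := h.fin
  obtain ⟨t, ht, htc⟩ := Set.exists_subset_encard_eq hr
  have htf : t.Finite := Set.finite_of_encard_eq_coe htc
  choose! g hg using fun (x : Submodule k S) (hx : x ∈ t) => ht hx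
  have hinj : Set.InjOn g t := by
    intro x hx y hy hxy
    rw [← hg x hx, ← hg y hy, hxy]
  set s : Finset ι := htf.toFinset.image g with hs
  have hcard : s.card = r := by
    rw [hs, Finset.card_image_of_injOn (by rw [Set.Finite.coe_toFinset]; exact hinj)]
    have h1 := htf.encard_eq_coe_toFinset_card
    rw [htc] at h1
    exact_mod_cast h1.symm
  have h2 := card_mul_le V h.one ε p h.img d s (by
    intro i hi j hj hij
    apply h.exists_sep
    obtain ⟨x, hx, rfl⟩ := Finset.mem_image.1 hi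
    obtain ⟨y, hy, rfl⟩ := Finset.mem_image.1 hj
    rw [Set.Finite.mem_toFinset] at hx hy
    intro hc
    apply hij
    have h3 : x = y := by rw [← hg x hx, ← hg y hy]; exact hc
    rw [h3]) n (by rw [hcard]; exact hn)
  rw [hcard] at h2
  exact h2

/-- If a nonzero element of `V ^ d` vanishes at some point then there are at least two
subspaces. -/
lemma two_le (h : Points V ε p) {d : ℕ} (hd : p d ≠ finrank k (V ^ d : Submodule k S)) (i₀ : ι) :
    (2 : ℕ∞) ≤ (zers V ε d).encard := by
  by_contra hcon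
  rw [not_le] at hcon
  have h1 : (zers V ε d).encard ≤ 1 := ENat.lt_add_one_iff (by simp) |>.1 (by
    rw [one_add_one_eq_two]; exact hcon)
  rw [Set.encard_le_one_iff] at h1
  have h2 := h.finrank_zer d i₀
  have h3 : zer V ε d i₀ ≠ ⊥ := by
    intro h0
    rw [h0, finrank_bot] at h2
    omega
  obtain ⟨x, hx, hx0⟩ := Submodule.exists_mem_ne_zero_of_ne_bot h3
  apply hx0
  apply h.dense d x (mem_zer.1 hx).1
  intro i
  have h4 : zer V ε d i₀ = zer V ε d i := h1 _ _ ⟨i₀, rfl⟩ ⟨i, rfl⟩
  rw [h4] at hx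
  exact (mem_zer.1 hx).2

/-- The powers of `V` have no zero divisors. -/
def NoZeroDiv (V : Submodule k S) : Prop :=
  ∀ n, ∀ x ∈ V ^ n, ∀ y ∈ V ^ n, x * y = 0 → x = 0 ∨ y = 0

lemma prod_ne_zero_of (h1 : (1 : S) ∈ V) (hV : NoZeroDiv V) [Nontrivial S] {α : Type*}
    (T : Finset α) (a : α → S) {d : ℕ} (ha : ∀ i ∈ T, a i ∈ V ^ d ∧ a i ≠ 0) :
    ∏ i ∈ T, a i ≠ 0 := by
  classical
  induction T using Finset.induction_on with
  | empty =>
    rw [Finset.prod_empty]
    exact one_ne_zero
  | insert j T hj ih =>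
    rw [Finset.prod_insert hj]
    intro h0
    have hT : ∀ i ∈ T, a i ∈ V ^ d ∧ a i ≠ 0 := fun i hi => ha i (Finset.mem_insert_of_mem hi)
    have hj' := ha j (Finset.mem_insert_self _ _)
    have h2 : ∏ i ∈ T, a i ∈ V ^ (d * T.card) := by
      rw [pow_mul]
      exact prod_mem_pow fun i hi => (hT i hi).1
    rcases hV (d * T.card + d) _ (pow_mono h1 (Nat.le_add_left _ _) hj'.1) _
      (pow_mono h1 (Nat.le_add_right _ _) h2) h0 with h3 | h3
    · exact hj'.2 h3
    · exact ih hT h3

/-- In the case of no zero divisors there are infinitely many subspaces. -/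
lemma infinite (h : Points V ε p) (hV : NoZeroDiv V) [Nontrivial S] {d : ℕ}
    (hd : p d ≠ finrank k (V ^ d : Submodule k S)) : (zers V ε d).encard = ⊤ := by
  classical
  rw [Set.encard_eq_top_iff]
  intro hfin
  have h1 : ∀ U ∈ zers V ε d, ∃ x ∈ U, x ≠ 0 := by
    rintro U ⟨i, rfl⟩
    have h2 := h.finrank_zer d i
    have h3 : zer V ε d i ≠ ⊥ := by
      intro h0
      rw [h0, finrank_bot] at h2
      omega
    exact Submodule.exists_mem_ne_zero_of_ne_bot h3
  choose! x hx using h1
  have h2 : ∀ U ∈ hfin.toFinset, x U ∈ V ^ d ∧ x U ≠ 0 := by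
    intro U hU
    rw [Set.Finite.mem_toFinset] at hU
    obtain ⟨h3, h4⟩ := hx U hU
    obtain ⟨i, rfl⟩ := hU
    exact ⟨(mem_zer.1 h3).1, h4⟩
  apply prod_ne_zero_of h.one hV hfin.toFinset x h2
  apply h.dense (d * hfin.toFinset.card)
  · rw [pow_mul]
    exact prod_mem_pow fun i hi => (h2 i hi).1
  · intro i
    rw [map_prod]
    refine Finset.prod_eq_zero (i := zer V ε d i) ?_ ?_
    · rw [Set.Finite.mem_toFinset]
      exact ⟨i, rfl⟩
    · exact (mem_zer.1 (hx _ ⟨i, rfl⟩).1).2

/-- The number of the different points: the supremum of the numbers of the subspaces. -/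
noncomputable def num (V : Submodule k S) (ε : ι → S →ₐ[k] L) : ℕ∞ := ⨆ d, (zers V ε d).encard

lemma encard_mono (h : Points V ε p) {m n : ℕ} (hmn : m ≤ n) :
    (zers V ε m).encard ≤ (zers V ε n).encard := by
  classical
  have h1 : ∀ U ∈ zers V ε m, ∃ U' ∈ zers V ε n, ∃ i, zer V ε m i = U ∧ zer V ε n i = U' := by
    rintro U ⟨i, rfl⟩
    exact ⟨zer V ε n i, ⟨i, rfl⟩, i, rfl, rfl⟩
  choose! g hg hg' using h1
  apply Set.encard_le_encard_of_injOn hg
  intro U hU U' hU' hUU'
  obtain ⟨i, h2, h3⟩ := hg' U hU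
  obtain ⟨j, h4, h5⟩ := hg' U' hU'
  rw [← h2, ← h4]
  apply h.zer_mono hmn
  rw [h3, h5, hUU']

lemma exists_level (h : Points V ε p) {r : ℕ} (hr : (r : ℕ∞) ≤ num V ε) :
    ∃ d, (r : ℕ∞) ≤ (zers V ε d).encard := by
  by_contra hcon
  push Not at hcon
  rcases Nat.eq_zero_or_pos r with rfl | hr0
  · exact absurd (hcon 0) (by simp)
  · have h1 : num V ε ≤ ((r - 1 : ℕ) : ℕ∞) := by
      apply iSup_le
      intro d
      have h2 := hcon d
      have h3 : (r : ℕ∞) = ((r - 1 : ℕ) : ℕ∞) + 1 := by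
        exact_mod_cast (Nat.sub_add_cancel hr0).symm
      rw [h3] at h2
      exact ENat.lt_add_one_iff (ENat.coe_ne_top _) |>.1 h2
    have h4 := hr.trans h1
    have h5 : r ≤ r - 1 := by exact_mod_cast h4
    omega

/-- The upper bound if there are only finitely many different points. -/
lemma upper [Nonempty ι] (h : Points V ε p) {r : ℕ} (hr : num V ε = r) (n : ℕ) :
    finrank k (V ^ n : Submodule k S) ≤ r * p n := by
  classical
  have := h.fin
  have h1 : (zers V ε n).encard ≤ r := hr ▸ le_iSup (fun d => (zers V ε d).encard) n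
  have hfin : (zers V ε n).Finite := Set.finite_of_encard_le_coe h1
  choose! g hg using fun (x : Submodule k S) (hx : x ∈ zers V ε n) => hx
  set s : Finset ι := hfin.toFinset.image g with hs
  have hcard : s.card ≤ r := by
    have h2 : hfin.toFinset.card ≤ r := by
      rw [hfin.encard_eq_coe_toFinset_card] at h1
      exact_mod_cast h1
    exact (Finset.card_image_le).trans h2
  have h3 := le_sum V ε s n
  have h4 : van V ε s n = ⊥ := by
    rw [eq_bot_iff]
    intro x hx
    rw [mem_van] at hx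
    rw [Submodule.mem_bot]
    apply h.dense n x hx.1
    intro i
    have h5 : zer V ε n i ∈ zers V ε n := ⟨i, rfl⟩
    have h6 : g (zer V ε n i) ∈ s := by
      rw [hs]
      exact Finset.mem_image_of_mem g (by rw [Set.Finite.mem_toFinset]; exact h5)
    have h7 : x ∈ zer V ε n (g (zer V ε n i)) := mem_zer.2 ⟨hx.1, hx.2 _ h6⟩
    rw [hg _ h5] at h7
    exact (mem_zer.1 h7).2
  rw [h4, finrank_bot, add_zero] at h3
  refine h3.trans ?_
  rw [Finset.sum_congr rfl fun i _ => h.img i n, Finset.sum_const, smul_eq_mul]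
  exact Nat.mul_le_mul_right _ hcard

lemma p_pos [Nontrivial L] (h : Points V ε p) (i₀ : ι) (n : ℕ) : 0 < p n := by
  have := h.fin
  rw [← h.img i₀ n, Pool.Agent.R920.PD.img]
  apply Nat.pos_of_ne_zero
  intro h0
  rw [Submodule.finrank_eq_zero] at h0
  have h1 : (ε i₀).toLinearMap 1 ∈ (V ^ n).map (ε i₀).toLinearMap :=
    ⟨1, pow_mono h.one (Nat.zero_le n) (by rw [pow_zero]; exact one_le.1 le_rfl), rfl⟩
  rw [h0, Submodule.mem_bot, AlgHom.toLinearMap_apply, map_one] at h1
  exact one_ne_zero h1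

lemma p_succ (h : Points V ε p) (i₀ : ι) (n : ℕ) : (n + 1) * p (n + 1) ≤ (n + p 1) * p n := by
  have := h.fin
  rw [← h.img i₀ n, ← h.img i₀ (n + 1), ← h.img i₀ 1, Pool.Agent.R920.PD.img,
    Pool.Agent.R920.PD.img, Pool.Agent.R920.PD.img, map_pow_eq, map_pow_eq, map_pow_eq, pow_one]
  exact finrank_pow_succ_le _ _

lemma lower_lin [Nonempty ι] (h : Points V ε p) (d r n : ℕ) (hr : (r : ℕ∞) ≤ (zers V ε d).encard)
    (hn : (r - 1) * d ≤ n) :
    ((r : ℝ) - r * ((r - 1) * d : ℕ) * p 1 / (n + 1)) * p n ≤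
      finrank k (V ^ n : Submodule k S) := by
  obtain ⟨i₀⟩ := (inferInstance : Nonempty ι)
  have h1 := h.lower d r n hr hn
  have h2 := shift_lin (h.p_pos i₀ 1) (h.p_succ i₀) hn
  have h3 : (r : ℝ) * p (n - (r - 1) * d) ≤ finrank k (V ^ n : Submodule k S) := by
    exact_mod_cast h1
  refine le_trans ?_ h3
  calc ((r : ℝ) - r * ((r - 1) * d : ℕ) * p 1 / (n + 1)) * p n
      = r * ((1 - (((r - 1) * d : ℕ) : ℝ) * p 1 / (n + 1)) * p n) := by ring
    _ ≤ r * p (n - (r - 1) * d) := by gcongr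

end Points

lemma hasIndex_top {f p : ℕ → ℕ} (hp : ∀ n, 0 < p n)
    (h : ∀ r : ℕ, ∃ (C : ℝ) (n₀ : ℕ), ∀ n ≥ n₀, ((r : ℝ) - C / (n + 1)) * p n ≤ f n) :
    HasIndex f p ⊤ := by
  unfold HasIndex
  have h1 : Tendsto (fun n => (f n : ℝ) / p n) atTop atTop := by
    rw [tendsto_atTop]
    intro b
    obtain ⟨r, hr⟩ := exists_nat_ge (b + 1)
    obtain ⟨C, n₀, hC⟩ := h r
    obtain ⟨n₁, hn₁⟩ := exists_nat_ge |C|
    filter_upwards [eventually_ge_atTop (max n₀ n₁)] with n hn
    have h2 := hC n ((le_max_left _ _).trans hn)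
    have h3 : (n₁ : ℝ) ≤ n := by exact_mod_cast (le_max_right _ _).trans hn
    have h4 : C / (n + 1) ≤ 1 := by
      rw [div_le_one (by positivity)]
      have := le_abs_self C
      linarith
    have hpn : (0 : ℝ) < p n := by exact_mod_cast hp n
    rw [le_div_iff₀ hpn]
    refine le_trans ?_ h2
    apply mul_le_mul_of_nonneg_right _ hpn.le
    linarith
  have h3 := ENNReal.tendsto_ofReal_atTop.comp h1
  have h4 : (ENNReal.ofReal ∘ fun n => (f n : ℝ) / p n) = fun n => (f n : ℝ≥0∞) / p n := by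
    funext n
    rw [Function.comp_apply, ENNReal.ofReal_div_of_pos (by exact_mod_cast hp n),
      ENNReal.ofReal_natCast, ENNReal.ofReal_natCast]
  rw [h4] at h3
  simpa using h3

lemma hasIndex_coe {f p : ℕ → ℕ} (hp : ∀ n, 0 < p n) {r : ℕ} (hup : ∀ n, f n ≤ r * p n)
    {C : ℝ} {n₀ : ℕ} (h : ∀ n ≥ n₀, ((r : ℝ) - C / (n + 1)) * p n ≤ f n) :
    HasIndex f p r := by
  unfold HasIndex
  have h1 : Tendsto (fun n => (f n : ℝ) / p n) atTop (𝓝 (r : ℝ)) := by
    have h2 : Tendsto (fun n : ℕ => (r : ℝ) - C / ((n : ℝ) + 1)) atTop (𝓝 ((r : ℝ) - 0)) := by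
      apply Filter.Tendsto.sub tendsto_const_nhds
      have := (tendsto_const_div_atTop_nhds_zero_nat C).comp (tendsto_add_atTop_nat 1)
      refine this.congr fun n => ?_
      simp
    rw [sub_zero] at h2
    refine tendsto_of_tendsto_of_tendsto_of_le_of_le' h2 tendsto_const_nhds ?_ ?_
    · filter_upwards [eventually_ge_atTop n₀] with n hn
      rw [le_div_iff₀ (by exact_mod_cast hp n)]
      exact h n hn
    · filter_upwards with n
      rw [div_le_iff₀ (by exact_mod_cast hp n)]
      exact_mod_cast hup n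
  have h3 := ENNReal.tendsto_ofReal h1
  have h4 : (fun n => ENNReal.ofReal ((f n : ℝ) / p n)) = fun n => (f n : ℝ≥0∞) / p n := by
    funext n
    rw [ENNReal.ofReal_div_of_pos (by exact_mod_cast hp n),
      ENNReal.ofReal_natCast, ENNReal.ofReal_natCast]
  rw [h4, ENNReal.ofReal_natCast] at h3
  simpa using h3

namespace Points

variable {V : Submodule k S} {ε : ι → S →ₐ[k] L} {p : ℕ → ℕ}

/-- **The law**: the quotient of the Hilbert functions converges to the number of the points. -/
theorem law [Nonempty ι] (h : Points V ε p) :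
    1 ≤ num V ε ∧ HasIndex (fun n => finrank k (V ^ n : Submodule k S)) p (num V ε) ∧
      (num V ε = 1 ↔ ∀ n, p n = finrank k (V ^ n : Submodule k S)) := by
  obtain ⟨i₀⟩ := (inferInstance : Nonempty ι)
  have h1 : 1 ≤ num V ε := by
    refine le_trans ?_ (le_iSup (fun d => (zers V ε d).encard) 0)
    rw [Set.one_le_encard_iff_nonempty]
    exact ⟨_, i₀, rfl⟩
  refine ⟨h1, ?_, ?_⟩
  · rcases eq_or_ne (num V ε) ⊤ with ht | ht
    · rw [ht]
      apply hasIndex_top (h.p_pos i₀)
      intro r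
      obtain ⟨d, hd⟩ := h.exists_level (r := r) (ht ▸ le_top)
      exact ⟨_, (r - 1) * d, fun n hn => h.lower_lin d r n hd hn⟩
    · obtain ⟨r, hr⟩ := ENat.ne_top_iff_exists.1 ht
      obtain ⟨d, hd⟩ := h.exists_level (r := r) (hr ▸ le_rfl)
      rw [← hr]
      exact hasIndex_coe (h.p_pos i₀) (h.upper hr.symm) (n₀ := (r - 1) * d)
        fun n hn => h.lower_lin d r n hd hn
  · constructor
    · intro h2 n
      by_contra hcon
      have h3 := h.two_le hcon i₀
      have h4 : (zers V ε n).encard ≤ 1 := h2 ▸ le_iSup (fun d => (zers V ε d).encard) n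
      have h5 := h3.trans h4
      have h6 : (2 : ℕ) ≤ 1 := by exact_mod_cast h5
      omega
    · intro h2
      apply le_antisymm _ h1
      apply iSup_le
      intro d
      rw [Set.encard_le_one_iff]
      have h3 : ∀ i, zer V ε d i = ⊥ := by
        intro i
        have h4 := h.finrank_zer d i
        have := h.finite_zer d i
        rw [h2 d] at h4
        apply Submodule.finrank_eq_zero.1
        omega
      rintro U U' ⟨i, rfl⟩ ⟨j, rfl⟩
      rw [h3 i, h3 j]

/-- The case of a relation of degree `d`. -/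
theorem gap [Nonempty ι] (h : Points V ε p) {d : ℕ}
    (hd : p d ≠ finrank k (V ^ d : Submodule k S)) (n : ℕ) :
    ((2 : ℝ) - 2 * d * p 1 / (n + 1)) * p n ≤ finrank k (V ^ n : Submodule k S) := by
  obtain ⟨i₀⟩ := (inferInstance : Nonempty ι)
  rcases le_or_gt d n with hn | hn
  · have h1 := h.lower_lin d 2 n (by exact_mod_cast h.two_le hd i₀) (by simpa using hn)
    have h2 : (((2 - 1) * d : ℕ) : ℝ) = d := by simp
    rw [h2] at h1
    exact_mod_cast h1
  · have h1 : (1 : ℝ) ≤ p 1 := by exact_mod_cast h.p_pos i₀ 1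
    have h2 : ((n : ℝ) + 1) ≤ d := by exact_mod_cast hn
    have h3 : (2 : ℝ) - 2 * d * p 1 / (n + 1) ≤ 0 := by
      rw [sub_nonpos, le_div_iff₀ (by positivity)]
      nlinarith
    have h4 : (0 : ℝ) ≤ p n := Nat.cast_nonneg _
    have h5 : (0 : ℝ) ≤ finrank k (V ^ n : Submodule k S) := Nat.cast_nonneg _
    nlinarith

/-- The case of a relation of degree `d` if there are no zero divisors. -/
theorem rate [Nonempty ι] [Nontrivial S] (h : Points V ε p) (hV : NoZeroDiv V) {d : ℕ}
    (hd : p d ≠ finrank k (V ^ d : Submodule k S)) (n : ℕ) :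
    (n + 1) * p n ≤ 3 * d * p 1 * finrank k (V ^ n : Submodule k S) := by
  obtain ⟨i₀⟩ := (inferInstance : Nonempty ι)
  have hd1 : 1 ≤ d := by
    rcases Nat.eq_zero_or_pos d with rfl | hd0
    · exfalso
      apply hd
      have h1 := h.finrank_zer 0 i₀
      have h2 : zer V ε 0 i₀ = ⊥ := by
        rw [eq_bot_iff]
        intro x hx
        rw [mem_zer, pow_zero, Submodule.mem_one] at hx
        obtain ⟨⟨y, rfl⟩, hy⟩ := hx
        rw [AlgHom.commutes] at hy
        have h3 : y = 0 := (algebraMap k L).injective (by rw [hy, map_zero])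
        rw [h3, map_zero]
        exact Submodule.zero_mem _
      rw [h2, finrank_bot] at h1
      omega
    · exact hd0
  refine Pool.Agent.R920.PD.rate (f := fun n => finrank k (V ^ n : Submodule k S))
    (h.p_pos i₀ 1) hd1 (h.p_succ i₀) ?_ n
  intro r m hr hm
  refine h.lower d r m ?_ hm
  rw [h.infinite hV hd]
  exact le_top

end Points

end Pool.Agent.R920.PD
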