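import Pool.Agent.Y133.Half.PerDefs
import Pool.Agent.Y133.Half.PairDefs

/-!
# Periods and formal periods: definitions
-/

open CategoryTheory AlgebraicGeometry

universe u v

namespace Pool.Agent.R920.PD

open Pool.Agent.Y133.Per

section Alg

variable {K : Type*} [Field K] [Algebra K ℂ] {A B C : Type*} [Ring A] [Algebra K A] [Ring B]
  [Algebra K B] [Ring C] [Algebra K C]

/-- The linear automorphisms of `A` with complex coefficients. -/
abbrev LinAut (K A : Type*) [Field K] [Algebra K ℂ] [Ring A] [Algebra K A] :=
  Base K A ≃ₗ[ℂ] Base K A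

/-- `l` is the exterior product of `g` and `h`. -/
def IsExt (p : A →ₐ[K] C) (q : B →ₐ[K] C) (g : LinAut K A) (h : LinAut K B) (l : LinAut K C) : Prop :=
  ∀ x y, l (baseMap p x * baseMap q y) = baseMap p (g x) * baseMap q (h y)

/-- `g` multiplies the elements of `S` by `r`. -/
def ActsBy (r : ℂ) (g : LinAut K A) (S : Set A) : Prop := ∀ c ∈ S, g (tm 1 c) = r • tm 1 c

/-- The space over `F` spanned by the numbers `φ ω` for the functionals `φ` over `K` and `ω ∈ S`. -/
noncomputable def periodSpan (F : Subfield ℂ) (S : Set (Base K A)) : Submodule F ℂ :=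
  Submodule.span F {r | ∃ (φ : A →ₗ[K] K) (ω : Base K A), ω ∈ S ∧ r = baseTr φ ω}

/-- The space over `F` spanned by the functions `x ↦ φ (g x ω)` for the functionals `φ` over `K`
and `ω ∈ S`. -/
noncomputable def formalSpan (F : Subfield ℂ) {G : Type*} (g : G → LinAut K A) (S : Set (Base K A)) :
    Submodule F (G → ℂ) :=
  Submodule.span F {u | ∃ (φ : A →ₗ[K] K) (ω : Base K A), ω ∈ S ∧ u = fun x => baseTr φ (g x ω)}

/-- Every polynomial relation with coefficients in `F` between numbers `φ ω` holds for the
corresponding functions `x ↦ φ (g x ω)`. -/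
def RelationsHold (F : Subfield ℂ) {G : Type*} (g : G → LinAut K A) (S : Set (Base K A)) : Prop :=
  ∀ (m : ℕ) (φ : Fin m → (A →ₗ[K] K)) (ω : Fin m → Base K A) (q : MvPolynomial (Fin m) F),
    (∀ i, ω i ∈ S) → MvPolynomial.aeval (fun i => baseTr (φ i) (ω i)) q = 0 →
      ∀ x, MvPolynomial.aeval (fun i => baseTr (φ i) (g x (ω i))) q = 0

/-- There are no zero divisors in `V`. -/
def NoZeroDiv {F : Subfield ℂ} {G : Type*} (V : Submodule F (G → ℂ)) : Prop :=
  ∀ u ∈ V, ∀ v ∈ V, u * v = 0 → u = 0 ∨ v = 0

end Alg

open Pool.Agent.H914 Pool.Agent.H914.VarClass Pool.Agent.H914.VarClass.Obj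
  Pool.Agent.H914.WeilCohomology
open Pool.Agent.Y133.Half (pw)

variable {k : Type u} [Field k] {𝒱 : VarClass k} {ops : CycleOps 𝒱}

/-- Families of sets of cohomology classes, where `C Y j` is a set of classes of codimension `j`
on `Y`. -/
abbrev Classes (W : WeilCohomology.{u, v} ops) := ∀ Y : 𝒱.Obj, ℕ → Set (W.H Y)

/-- The linear automorphisms of the cohomology of `X` with complex coefficients, extended to all
powers of `X` by means of the exterior products, which respect the classes in `C` on all powers of
`X`, up to the Tate twist given by the number `mu`. -/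
structure Aut (W : WeilCohomology.{u, v} ops) [Algebra W.K ℂ] (C : Classes W) (X : 𝒱.Obj) where
  /-- the automorphism of the cohomology of the product of `n + 1` copies of `X` -/
  g : ∀ n, LinAut W.K (W.H (pw X n))
  /-- the multiplier -/
  mu : ℂ
  mu_ne : mu ≠ 0
  map_ext : ∀ n, IsExt (W.map (fst (pw X n) X)) (W.map (snd (pw X n) X)) (g n) (g 0) (g (n + 1))
  map_cls : ∀ n j, ActsBy (mu ^ j) (g n) (C (pw X n) j)

variable {W : WeilCohomology.{u, v} ops} [Algebra W.K ℂ] {F : Subfield ℂ}

/-- The space over `F` spanned by the periods of `X`, the values `φ ω` of the rational functionals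
`φ` on the cohomology at the elements `ω` of the de Rham cohomology. -/
noncomputable def periods (D : DeRham W F) (X : 𝒱.Obj) : Submodule F ℂ := periodSpan F (D.dR X)

/-- The space over `F` spanned by the formal periods of the product of `n + 1` copies of `X`, the
functions `g ↦ φ (g ω)`. -/
noncomputable def formalPeriods (D : DeRham W F) (C : Classes W) (X : 𝒱.Obj) (n : ℕ) :
    Submodule F (Aut W C X → ℂ) :=
  formalSpan F (fun x : Aut W C X => x.g n) (D.dR (pw X n))

/-- Every polynomial relation with coefficients in `F` between periods of `X` holds for the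
corresponding formal periods. -/
def PeriodConjecture (D : DeRham W F) (C : Classes W) (X : 𝒱.Obj) : Prop :=
  RelationsHold F (fun x : Aut W C X => x.g 0) (D.dR (pw X 0))

/-- The algebra of the formal periods has no zero divisors. -/
def Irreducible (D : DeRham W F) (C : Classes W) (X : 𝒱.Obj) : Prop :=
  ∀ n, NoZeroDiv (formalPeriods D C X n)

end Pool.Agent.R920.PD
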