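import Pool.Agent.R920.PD.Geo

/-!
# The rational points are dense
-/

open CategoryTheory AlgebraicGeometry Module

universe u v

namespace Pool.Agent.R920.PD

section Alg

variable {F : Subfield ℂ}

/-- Hilbert's Nullstellensatz: polynomials which vanish at all points over `F` of a closed subset
vanish at all complex points. -/
lemma nullst [IsAlgClosed F] {σ : Type*} [Finite σ] (E : Ideal (MvPolynomial σ F))
    (q : MvPolynomial σ F)
    (h : ∀ y : σ → F, (∀ e ∈ E, MvPolynomial.aeval y e = 0) → MvPolynomial.aeval y q = 0)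
    (z : σ → ℂ) (hz : ∀ e ∈ E, MvPolynomial.aeval z e = 0) : MvPolynomial.aeval z q = 0 := by
  have h1 : q ∈ MvPolynomial.vanishingIdeal F (MvPolynomial.zeroLocus F E) := by
    rw [MvPolynomial.mem_vanishingIdeal_iff]
    intro y hy
    exact h y (MvPolynomial.mem_zeroLocus_iff.1 hy)
  rw [MvPolynomial.vanishingIdeal_zeroLocus_eq_radical] at h1
  obtain ⟨n, hn⟩ := h1
  have h2 := hz _ hn
  rw [map_pow] at h2
  exact eq_zero_of_pow_eq_zero h2

/-- Complex numbers are combinations of linearly independent ones. -/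
lemma exists_indep {n : ℕ} (c : Fin n → ℂ) : ∃ (m : ℕ) (e : Fin m → ℂ) (a : Fin n → Fin m → F),
    LinearIndependent F e ∧ ∀ j, c j = ∑ t, (a j t : ℂ) * e t := by
  have hfin : Module.Finite F (Submodule.span F (Set.range c)) :=
    FiniteDimensional.span_of_finite F (Set.finite_range c)
  let b := Module.finBasis F (Submodule.span F (Set.range c))
  refine ⟨_, fun t => (b t : ℂ), fun j t => b.repr ⟨c j, Submodule.subset_span ⟨j, rfl⟩⟩ t,
    ?_, ?_⟩
  · exact b.linearIndependent.map' (Submodule.subtype _) (Submodule.ker_subtype _)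
  · intro j
    have h := congrArg Subtype.val (b.sum_repr ⟨c j, Submodule.subset_span ⟨j, rfl⟩⟩)
    rw [AddSubmonoidClass.coe_finsetSum] at h
    exact h.symm

end Alg

open Pool.Agent.H914 Pool.Agent.H914.VarClass Pool.Agent.H914.VarClass.Obj
  Pool.Agent.H914.WeilCohomology Pool.Agent.Y133.Per
open Pool.Agent.Y133.Half (pw)

variable {k : Type u} [Field k] {𝒱 : VarClass k} {ops : CycleOps 𝒱}
  {W : WeilCohomology.{u, v} ops} [Algebra W.K ℂ] {F : Subfield ℂ} {X Y : 𝒱.Obj}

/-- The size of the matrices. -/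
noncomputable abbrev sz (W : WeilCohomology.{u, v} ops) (X : 𝒱.Obj) : ℕ := finrank W.K (W.H X)

/-- A basis of the cohomology. -/
noncomputable abbrev bs (W : WeilCohomology.{u, v} ops) (X : 𝒱.Obj) :
    Basis (Fin (sz W X)) W.K (W.H X) := Module.finBasis W.K (W.H X)

/-- Every element is a combination of the basis. -/
lemma sum_coord (z : Base W.K (W.H X)) :
    z = ∑ j, baseTr ((bs W X).coord j) z • tm 1 (bs W X j) := by
  refine base_ind (p := fun z => z = ∑ j, baseTr ((bs W X).coord j) z • tm 1 (bs W X j))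
    ?_ ?_ ?_ z
  · symm
    apply Finset.sum_eq_zero
    intro j _
    rw [map_zero, zero_smul]
  · intro r c
    have h1 : c = ∑ j, (bs W X).coord j c • bs W X j := ((bs W X).sum_repr c).symm
    have h2 : ∀ c' : W.H X, (tm r c' : Base W.K (W.H X)) = r • tm 1 c' := tm_eq_smul r
    have h3 : ∀ s : Finset (Fin (sz W X)), ∀ f : Fin (sz W X) → W.H X,
        (tm 1 (∑ j ∈ s, f j) : Base W.K (W.H X)) = ∑ j ∈ s, tm 1 (f j) := by
      intro s f
      classical
      induction s using Finset.induction_on with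
      | empty => rw [Finset.sum_empty, Finset.sum_empty, tm_zero]
      | insert a s ha ih => rw [Finset.sum_insert ha, Finset.sum_insert ha, tm_add, ih]
    conv_lhs => rw [h2, h1, h3, Finset.smul_sum]
    apply Finset.sum_congr rfl
    intro j _
    rw [tm_smul, baseTr_tm, smul_smul]
  · intro a b ha hb
    conv_lhs => rw [ha, hb]
    rw [← Finset.sum_add_distrib]
    apply Finset.sum_congr rfl
    intro j _
    rw [map_add, add_smul]

/-- The entries of the matrix of an endomorphism. -/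
noncomputable def ent (a : Module.End ℂ (Base W.K (W.H X))) (s : Fin (sz W X) × Fin (sz W X)) : ℂ :=
  baseTr ((bs W X).coord s.1) (a (tm 1 (bs W X s.2)))

lemma apply_bs (a : Module.End ℂ (Base W.K (W.H X))) (j : Fin (sz W X)) :
    a (tm 1 (bs W X j)) = ∑ i, ent a (i, j) • tm 1 (bs W X i) := by
  conv_lhs => rw [sum_coord (a (tm 1 (bs W X j)))]
  rfl

lemma end_ext {V : Type*} [AddCommGroup V] [Module ℂ V] {a b : Base W.K (W.H X) →ₗ[ℂ] V}
    (h : ∀ j, a (tm 1 (bs W X j)) = b (tm 1 (bs W X j))) : a = b := by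
  apply LinearMap.ext
  intro z
  rw [sum_coord z, map_sum, map_sum]
  apply Finset.sum_congr rfl
  intro j _
  rw [map_smul, map_smul, h]

lemma ent_ext {a b : Module.End ℂ (Base W.K (W.H X))} (h : ∀ s, ent a s = ent b s) : a = b := by
  apply end_ext
  intro j
  rw [apply_bs, apply_bs]
  apply Finset.sum_congr rfl
  intro i _
  rw [h]

lemma ent_mul (a b : Module.End ℂ (Base W.K (W.H X))) (i j : Fin (sz W X)) :
    ent (a * b) (i, j) = ∑ l, ent a (i, l) * ent b (l, j) := by
  have h : ent (a * b) (i, j) = baseTr ((bs W X).coord i) (a (b (tm 1 (bs W X j)))) := rfl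
  rw [h, apply_bs b, map_sum, map_sum]
  apply Finset.sum_congr rfl
  intro l _
  rw [map_smul, map_smul, smul_eq_mul, mul_comm]
  rfl

lemma ent_one (i j : Fin (sz W X)) :
    ent (1 : Module.End ℂ (Base W.K (W.H X))) (i, j) = if i = j then 1 else 0 := by
  have h : ent (1 : Module.End ℂ (Base W.K (W.H X))) (i, j) =
    baseTr ((bs W X).coord i) (tm 1 (bs W X j)) := rfl
  rw [h, baseTr_tm, Basis.coord_apply, Basis.repr_self, one_mul]
  by_cases hij : i = j
  · subst hij
    rw [Finsupp.single_eq_same, map_one, if_pos rfl]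
  · rw [Finsupp.single_eq_of_ne hij, map_zero, if_neg hij]

/-- The endomorphism with given matrix. -/
noncomputable def ofEnt (A : Fin (sz W X) × Fin (sz W X) → ℂ) :
    Module.End ℂ (Base W.K (W.H X)) :=
  ∑ s, A s • LinearMap.smulRight (baseTr ((bs W X).coord s.2))
    (tm 1 (bs W X s.1) : Base W.K (W.H X))

lemma ent_ofEnt (A : Fin (sz W X) × Fin (sz W X) → ℂ) (s : Fin (sz W X) × Fin (sz W X)) :
    ent (ofEnt A) s = A s := by
  obtain ⟨i, j⟩ := s
  have hd : ∀ i j : Fin (sz W X), baseTr ((bs W X).coord i) (tm 1 (bs W X j)) =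
      if i = j then 1 else 0 := ent_one
  have h : ofEnt A (tm 1 (bs W X j)) = ∑ i, A (i, j) • (tm 1 (bs W X i) : Base W.K (W.H X)) := by
    rw [ofEnt, LinearMap.sum_apply, Fintype.sum_prod_type]
    apply Finset.sum_congr rfl
    intro i _
    rw [Finset.sum_eq_single j]
    · rw [LinearMap.smul_apply, LinearMap.smulRight_apply, hd, if_pos rfl, one_smul]
    · intro l _ hl
      rw [LinearMap.smul_apply, LinearMap.smulRight_apply, hd, if_neg hl, zero_smul, smul_zero]
    · intro h
      exact absurd (Finset.mem_univ j) h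
  have h2 : ent (ofEnt A) (i, j) = baseTr ((bs W X).coord i) (ofEnt A (tm 1 (bs W X j))) := rfl
  rw [h2, h, map_sum, Finset.sum_eq_single i]
  · rw [map_smul, hd, if_pos rfl, smul_eq_mul, mul_one]
  · intro l _ hl
    rw [map_smul, hd, if_neg (Ne.symm hl), smul_zero]
  · intro h
    exact absurd (Finset.mem_univ i) h

/-- Functions of an endomorphism which are polynomials over `F` in the entries of its matrix. -/
def IsPoly (F : Subfield ℂ) (u : Module.End ℂ (Base W.K (W.H X)) → ℂ) : Prop :=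
  ∃ q : MvPolynomial (Fin (sz W X) × Fin (sz W X)) F, ∀ a, u a = MvPolynomial.aeval (ent a) q

namespace IsPoly

lemma add {u w : Module.End ℂ (Base W.K (W.H X)) → ℂ} (hu : IsPoly F u) (hw : IsPoly F w) :
    IsPoly F fun a => u a + w a := by
  obtain ⟨p, hp⟩ := hu
  obtain ⟨q, hq⟩ := hw
  exact ⟨p + q, fun a => by rw [map_add, ← hp, ← hq]⟩

lemma mul {u w : Module.End ℂ (Base W.K (W.H X)) → ℂ} (hu : IsPoly F u) (hw : IsPoly F w) :
    IsPoly F fun a => u a * w a := by
  obtain ⟨p, hp⟩ := hu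
  obtain ⟨q, hq⟩ := hw
  exact ⟨p * q, fun a => by rw [map_mul, ← hp, ← hq]⟩

lemma const {c : ℂ} (hc : c ∈ F) :
    IsPoly F fun _ : Module.End ℂ (Base W.K (W.H X)) => c :=
  ⟨MvPolynomial.C ⟨c, hc⟩, fun a => by rw [MvPolynomial.aeval_C]; rfl⟩

lemma sum {n : ℕ} {u : Fin n → Module.End ℂ (Base W.K (W.H X)) → ℂ} (hu : ∀ i, IsPoly F (u i)) :
    IsPoly F fun a => ∑ i, u i a := by
  choose q hq using hu
  exact ⟨∑ i, q i, fun a => by rw [map_sum]; exact Finset.sum_congr rfl fun i _ => hq i a⟩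

lemma congr {u w : Module.End ℂ (Base W.K (W.H X)) → ℂ} (hu : IsPoly F u) (h : ∀ a, w a = u a) :
    IsPoly F w := by
  obtain ⟨q, hq⟩ := hu
  exact ⟨q, fun a => by rw [h, hq]⟩

end IsPoly

lemma isPoly_zero (hF : ∀ r : W.K, algebraMap W.K ℂ r ∈ F) (φ : W.H X →ₗ[W.K] W.K) (c : W.H X) :
    IsPoly F fun a : Module.End ℂ (Base W.K (W.H X)) => baseTr φ (a (tm 1 c)) := by
  have h1 : IsPoly F fun a : Module.End ℂ (Base W.K (W.H X)) =>
      ∑ j, algebraMap W.K ℂ ((bs W X).coord j c) *
        ∑ i, ent a (i, j) * algebraMap W.K ℂ (φ (bs W X i)) := by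
    refine IsPoly.sum fun j => (IsPoly.const (hF _)).mul (IsPoly.sum fun i => IsPoly.mul ?_
      (IsPoly.const (hF _)))
    exact ⟨MvPolynomial.X (i, j), fun a => by rw [MvPolynomial.aeval_X]⟩
  refine h1.congr fun a => ?_
  rw [sum_coord (tm 1 c), map_sum, map_sum]
  apply Finset.sum_congr rfl
  intro j _
  rw [map_smul, map_smul, baseTr_tm, one_mul, smul_eq_mul, apply_bs, map_sum]
  congr 1
  apply Finset.sum_congr rfl
  intro i _
  rw [map_smul, baseTr_tm, one_mul, smul_eq_mul]

lemma isPoly_tens (hF : ∀ r : W.K, algebraMap W.K ℂ r ∈ F) {P : 𝒱.Obj}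
    (G : Module.End ℂ (Base W.K (W.H X)) → Module.End ℂ (Base W.K (W.H P)))
    (hG : ∀ (φ : W.H P →ₗ[W.K] W.K) (c : W.H P), IsPoly F fun a => baseTr φ (G a (tm 1 c)))
    (φ : W.H (P.prod X) →ₗ[W.K] W.K) (c : W.H (P.prod X)) :
    IsPoly F fun a => baseTr φ (tens W (G a) a (tm 1 c)) := by
  obtain ⟨t, rfl⟩ := (kappa W P X).surjective c
  refine TensorProduct.induction_on (motive := fun t =>
    IsPoly F fun a => baseTr φ (tens W (G a) a (tm 1 (kappa W P X t)))) t ?_ ?_ ?_
  · refine (IsPoly.const (zero_mem F)).congr fun a => ?_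
    rw [map_zero, tm_zero, map_zero, map_zero]
  · intro c₁ c₂
    obtain ⟨m, φ₁, φ₂, h⟩ := dual_exp (W := W) φ
    refine (IsPoly.sum fun i => (hG (φ₁ i) c₁).mul (isPoly_zero hF (φ₂ i) c₂)).congr fun a => ?_
    have h1 : (tm 1 (kappa W P X (c₁ ⊗ₜ c₂)) : Base W.K (W.H (P.prod X))) =
        ext W (tm 1 c₁) (tm 1 c₂) := by
      rw [kappa_tmul, ext_tm, mul_one]
    rw [h1, tens_ext, h]
  · intro t t' ht ht'
    refine (ht.add ht').congr fun a => ?_
    rw [map_add, tm_add, map_add, map_add]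

/-- The coordinates of the powers of an endomorphism are polynomials in its entries. -/
lemma isPoly_pow (hF : ∀ r : W.K, algebraMap W.K ℂ r ∈ F) (n : ℕ) :
    ∀ (φ : W.H (pw X n) →ₗ[W.K] W.K) (c : W.H (pw X n)),
      IsPoly F fun a : Module.End ℂ (Base W.K (W.H X)) => baseTr φ (powEnd W a n (tm 1 c)) := by
  induction n with
  | zero => exact isPoly_zero hF
  | succ n ih => exact isPoly_tens hF (fun a => powEnd W a n) ih

end Pool.Agent.R920.PD
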