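import Pool.Agent.R920.PD.WDefs

/-!
# The matrix coefficients of the complex group: definitions
-/

open CategoryTheory AlgebraicGeometry Module

universe u v

namespace Pool.Agent.R920.PD

open Pool.Agent.Y133.Per

section Alg

variable {K : Type*} [Field K] [Algebra K ℂ] {A : Type*} [Ring A] [Algebra K A]

/-- The complex span of the matrix coefficients `x ↦ φ (g x z)`. -/
noncomputable def coeffsOf {G : Type*} (g : G → LinAut K A) : Submodule ℂ (G → ℂ) :=
  Submodule.span ℂ {u | ∃ (φ : A →ₗ[K] K) (z : Base K A), u = fun x => baseTr φ (g x z)}

/-- There are no zero divisors in `V`. -/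
def NoZeroDivC {G : Type*} (V : Submodule ℂ (G → ℂ)) : Prop :=
  ∀ u ∈ V, ∀ v ∈ V, u * v = 0 → u = 0 ∨ v = 0

end Alg

open Pool.Agent.H914 Pool.Agent.H914.VarClass Pool.Agent.H914.VarClass.Obj
  Pool.Agent.H914.WeilCohomology
open Pool.Agent.Y133.Half (pw)

variable {k : Type u} [Field k] {𝒱 : VarClass k} {ops : CycleOps 𝒱}

/-- The space of the matrix coefficients, on the cohomology of the product of `n + 1` copies of `X`,
of the group of the automorphisms which respect the classes in `C`. -/
noncomputable def coeffs (W : WeilCohomology.{u, v} ops) [Algebra W.K ℂ] (C : Classes W)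
    (X : 𝒱.Obj) (n : ℕ) : Submodule ℂ (Aut W C X → ℂ) := coeffsOf fun x : Aut W C X => x.g n

/-- The dimension of the space of the matrix coefficients on the cohomology of the product of
`n + 1` copies of `X`; this is the dimension of the algebra of operators generated by the group. -/
noncomputable def coeffDim (W : WeilCohomology.{u, v} ops) [Algebra W.K ℂ] (C : Classes W)
    (X : 𝒱.Obj) (n : ℕ) : ℕ := finrank ℂ (coeffs W C X n)

/-- The group is irreducible (connected): there are no zero divisors in its algebra of
functions. -/
def IsConnectedGroup (W : WeilCohomology.{u, v} ops) [Algebra W.K ℂ] (C : Classes W)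
    (X : 𝒱.Obj) : Prop := ∀ n, NoZeroDivC (coeffs W C X n)

variable {W : WeilCohomology.{u, v} ops} [Algebra W.K ℂ] {F : Subfield ℂ}

/-- The transcendence degree over `F` of the field generated by the periods of `X` is equal to the
dimension of the group: if there are `r` algebraically independent matrix coefficients of the
complex group then there are `r` periods of `X` which are algebraically independent over `F`. -/
def TrdegIsDim (D : DeRham W F) (C : Classes W) (X : 𝒱.Obj) : Prop :=
  ∀ r, HasIndep ℂ (coeffs W C X 0) r → HasIndep F (periods D X) r

end Pool.Agent.R920.PD
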