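import Pool.Agent.R920.PD.Defs
import Pool.Agent.Y133.Half.Per
import Pool.Agent.H914R2.ExtOp

/-!
# The Kunneth formula with complex coefficients and for the de Rham cohomology
-/

open CategoryTheory AlgebraicGeometry Module

universe u v

namespace Pool.Agent.R920.PD

open Pool.Agent.H914 Pool.Agent.H914.VarClass Pool.Agent.H914.VarClass.Obj
  Pool.Agent.H914.WeilCohomology Pool.Agent.Y133.Per
open Pool.Agent.Y133.Half (pw)

variable {k : Type u} [Field k] {𝒱 : VarClass k} {ops : CycleOps 𝒱}
  {W : WeilCohomology.{u, v} ops} [Algebra W.K ℂ] {F : Subfield ℂ} {X Y : 𝒱.Obj}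

/-- The exterior product `pr₁^* x · pr₂^* y` of classes with complex coefficients. -/
noncomputable def ext (W : WeilCohomology.{u, v} ops) [Algebra W.K ℂ] {X Y : 𝒱.Obj}
    (x : Base W.K (W.H X)) (y : Base W.K (W.H Y)) : Base W.K (W.H (X.prod Y)) :=
  baseMap (W.map (fst X Y)) x * baseMap (W.map (snd X Y)) y

lemma ext_tm (r s : ℂ) (a : W.H X) (b : W.H Y) :
    ext W (tm r a) (tm s b) = tm (r * s) (W.map (fst X Y) a * W.map (snd X Y) b) := by
  rw [ext, baseMap_tm, baseMap_tm, tm_mul]

lemma ext_add_left (x x' : Base W.K (W.H X)) (y : Base W.K (W.H Y)) :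
    ext W (x + x') y = ext W x y + ext W x' y := by
  rw [ext, map_add, add_mul]; rfl

lemma ext_add_right (x : Base W.K (W.H X)) (y y' : Base W.K (W.H Y)) :
    ext W x (y + y') = ext W x y + ext W x y' := by
  rw [ext, map_add, mul_add]; rfl

lemma ext_smul_left (r : ℂ) (x : Base W.K (W.H X)) (y : Base W.K (W.H Y)) :
    ext W (r • x) y = r • ext W x y := by
  rw [ext, map_smul, smul_mul_assoc]; rfl

lemma ext_smul_right (r : ℂ) (x : Base W.K (W.H X)) (y : Base W.K (W.H Y)) :
    ext W x (r • y) = r • ext W x y := by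
  rw [ext, map_smul, mul_smul_comm]; rfl

/-- The exterior product as a bilinear map. -/
noncomputable def extL (W : WeilCohomology.{u, v} ops) [Algebra W.K ℂ] (X Y : 𝒱.Obj) :
    Base W.K (W.H X) →ₗ[ℂ] Base W.K (W.H Y) →ₗ[ℂ] Base W.K (W.H (X.prod Y)) :=
  LinearMap.mk₂ ℂ (fun x y => ext W x y) ext_add_left ext_smul_left ext_add_right ext_smul_right

lemma extL_apply (x : Base W.K (W.H X)) (y : Base W.K (W.H Y)) : extL W X Y x y = ext W x y := rfl

lemma tm_eq_smul {K A : Type*} [Field K] [Algebra K ℂ] [Ring A] [Algebra K A] (r : ℂ) (c : A) :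
    (tm r c : Base K A) = r • tm 1 c := by
  rw [smul_tm, mul_one]

/-- A linear map is determined by its values on the exterior products. -/
lemma hom_ext {V : Type*} [AddCommGroup V] [Module ℂ V]
    {f g : Base W.K (W.H (X.prod Y)) →ₗ[ℂ] V} (h : ∀ x y, f (ext W x y) = g (ext W x y)) :
    f = g := by
  apply LinearMap.ext
  intro c
  refine base_ind (p := fun c => f c = g c) ?_ ?_ ?_ c
  · rw [map_zero, map_zero]
  · intro r c
    obtain ⟨t, rfl⟩ := (kappa W X Y).surjective c
    refine TensorProduct.induction_on (motive := fun t => f (tm r (kappa W X Y t)) =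
      g (tm r (kappa W X Y t))) t ?_ ?_ ?_
    · rw [map_zero, tm_zero, map_zero, map_zero]
    · intro a b
      rw [kappa_tmul]
      have h1 := h (tm r a) (tm 1 b)
      rw [ext_tm, mul_one] at h1
      exact h1
    · intro a b ha hb
      rw [map_add, tm_add, map_add, map_add, ha, hb]
  · intro a b ha hb
    rw [map_add, map_add, ha, hb]

/-- The exterior product as a linear map on the tensor product. -/
noncomputable def kapC (W : WeilCohomology.{u, v} ops) [Algebra W.K ℂ] (X Y : 𝒱.Obj) :
    TensorProduct ℂ (Base W.K (W.H X)) (Base W.K (W.H Y)) →ₗ[ℂ] Base W.K (W.H (X.prod Y)) :=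
  TensorProduct.lift (extL W X Y)

lemma finrank_base (A : Type*) {K : Type*} [Field K] [Algebra K ℂ] [Ring A] [Algebra K A] :
    finrank ℂ (Base K A) = finrank K A :=
  Module.finrank_baseChange (R := ℂ) (S := K) (M' := A)

lemma kapC_surj : Function.Surjective (kapC W X Y) := by
  rw [← LinearMap.range_eq_top]
  by_contra hne
  obtain ⟨f, hf0, hf⟩ := Submodule.exists_dual_map_eq_bot_of_lt_top
    (lt_top_iff_ne_top.2 hne) inferInstance
  apply hf0
  apply hom_ext
  intro x y
  rw [LinearMap.zero_apply]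
  have h1 : f (ext W x y) ∈ (LinearMap.range (kapC W X Y)).map f :=
    ⟨_, ⟨x ⊗ₜ y, by rw [kapC, TensorProduct.lift.tmul]; rfl⟩, rfl⟩
  rw [hf, Submodule.mem_bot] at h1
  exact h1

/-- The Kunneth isomorphism with complex coefficients. -/
noncomputable def kap (W : WeilCohomology.{u, v} ops) [Algebra W.K ℂ] (X Y : 𝒱.Obj) :
    TensorProduct ℂ (Base W.K (W.H X)) (Base W.K (W.H Y)) ≃ₗ[ℂ] Base W.K (W.H (X.prod Y)) :=
  LinearEquiv.ofBijective (kapC W X Y)
    ⟨(LinearMap.injective_iff_surjective_of_finrank_eq_finrank (by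
      rw [Module.finrank_tensorProduct, finrank_base, finrank_base, finrank_base,
        Pool.Agent.Y133.Half.finrank_prod])).2 kapC_surj, kapC_surj⟩

lemma kap_tmul (x : Base W.K (W.H X)) (y : Base W.K (W.H Y)) :
    kap W X Y (x ⊗ₜ y) = ext W x y := by
  show kapC W X Y (x ⊗ₜ y) = ext W x y
  rw [kapC, TensorProduct.lift.tmul]
  rfl

/-- The exterior product of two endomorphisms. -/
noncomputable def tens (W : WeilCohomology.{u, v} ops) [Algebra W.K ℂ] {X Y : 𝒱.Obj}
    (a : Module.End ℂ (Base W.K (W.H X))) (b : Module.End ℂ (Base W.K (W.H Y))) :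
    Module.End ℂ (Base W.K (W.H (X.prod Y))) :=
  (kap W X Y).toLinearMap ∘ₗ TensorProduct.map a b ∘ₗ (kap W X Y).symm.toLinearMap

lemma tens_ext (a : Module.End ℂ (Base W.K (W.H X))) (b : Module.End ℂ (Base W.K (W.H Y)))
    (x : Base W.K (W.H X)) (y : Base W.K (W.H Y)) :
    tens W a b (ext W x y) = ext W (a x) (b y) := by
  rw [tens, LinearMap.comp_apply, LinearMap.comp_apply, LinearEquiv.coe_coe, LinearEquiv.coe_coe,
    ← kap_tmul, LinearEquiv.symm_apply_apply, TensorProduct.map_tmul, kap_tmul]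

lemma tens_mul (a a' : Module.End ℂ (Base W.K (W.H X))) (b b' : Module.End ℂ (Base W.K (W.H Y))) :
    tens W (a * a') (b * b') = tens W a b * tens W a' b' := by
  apply hom_ext
  intro x y
  rw [Module.End.mul_apply, tens_ext, tens_ext, tens_ext]
  rfl

lemma tens_one : tens W (1 : Module.End ℂ (Base W.K (W.H X)))
    (1 : Module.End ℂ (Base W.K (W.H Y))) = 1 := by
  apply hom_ext
  intro x y
  rw [tens_ext]
  rfl

/-- The powers of an endomorphism. -/
noncomputable def powEnd (W : WeilCohomology.{u, v} ops) [Algebra W.K ℂ] {X : 𝒱.Obj}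
    (a : Module.End ℂ (Base W.K (W.H X))) : ∀ n, Module.End ℂ (Base W.K (W.H (pw X n)))
  | 0 => a
  | n + 1 => tens W (powEnd W a n) a

lemma powEnd_mul (a b : Module.End ℂ (Base W.K (W.H X))) (n : ℕ) :
    powEnd W (a * b) n = powEnd W a n * powEnd W b n := by
  induction n with
  | zero => rfl
  | succ n ih =>
    show tens W (powEnd W (a * b) n) (a * b) = _
    rw [ih, tens_mul]
    rfl

lemma powEnd_one (n : ℕ) : powEnd W (1 : Module.End ℂ (Base W.K (W.H X))) n = 1 := by
  induction n with
  | zero => rfl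
  | succ n ih =>
    show tens W (powEnd W 1 n) 1 = _
    rw [ih]
    exact tens_one

/-- A functional on the cohomology of a product is a sum of exterior products. -/
lemma dual_exp (φ : W.H (X.prod Y) →ₗ[W.K] W.K) :
    ∃ (n : ℕ) (φ₁ : Fin n → (W.H X →ₗ[W.K] W.K)) (φ₂ : Fin n → (W.H Y →ₗ[W.K] W.K)),
      ∀ x y, baseTr φ (ext W x y) = ∑ i, baseTr (φ₁ i) x * baseTr (φ₂ i) y := by
  let b := Module.finBasis W.K (W.H X)
  obtain ⟨ψ, hψ⟩ : ∃ ψ : Fin (finrank W.K (W.H X)) → (W.H Y →ₗ[W.K] W.K), ∀ i d,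
      ψ i d = φ (W.map (fst X Y) (b i) * W.map (snd X Y) d) :=
    ⟨fun i => φ ∘ₗ LinearMap.mulLeft W.K (W.map (fst X Y) (b i)) ∘ₗ
      (W.map (snd X Y)).toLinearMap, fun i d => rfl⟩
  refine ⟨_, fun i => b.coord i, ψ, ?_⟩
  intro x y
  refine base_ind (p := fun x => baseTr φ (ext W x y) =
    ∑ i, baseTr (b.coord i) x * baseTr (ψ i) y) ?_ ?_ ?_ x
  · have h : ext W (0 : Base W.K (W.H X)) y = 0 := by
      rw [← extL_apply, map_zero, LinearMap.zero_apply]
    rw [h, map_zero]
    symm
    apply Finset.sum_eq_zero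
    intro i _
    rw [map_zero, zero_mul]
  · intro r c
    refine base_ind (p := fun y => baseTr φ (ext W (tm r c) y) =
      ∑ i, baseTr (b.coord i) (tm r c) * baseTr (ψ i) y) ?_ ?_ ?_ y
    · have h : ext W (tm r c : Base W.K (W.H X)) (0 : Base W.K (W.H Y)) = 0 := by
        rw [← extL_apply, map_zero]
      rw [h, map_zero]
      symm
      apply Finset.sum_eq_zero
      intro i _
      rw [map_zero, mul_zero]
    · intro s d
      rw [ext_tm, baseTr_tm]
      have h1 : c = ∑ i, b.coord i c • b i := (b.sum_repr c).symm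
      have h2 : φ (W.map (fst X Y) c * W.map (snd X Y) d) =
          ∑ i, b.coord i c * φ (W.map (fst X Y) (b i) * W.map (snd X Y) d) := by
        conv_lhs => rw [h1]
        rw [map_sum, Finset.sum_mul, map_sum]
        apply Finset.sum_congr rfl
        intro i _
        rw [map_smul, smul_mul_assoc, map_smul, smul_eq_mul]
      rw [h2, map_sum, Finset.mul_sum]
      apply Finset.sum_congr rfl
      intro i _
      rw [baseTr_tm, baseTr_tm, map_mul, hψ]
      ring
    · intro y y' hy hy'
      rw [ext_add_right, map_add, hy, hy', ← Finset.sum_add_distrib]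
      apply Finset.sum_congr rfl
      intro i _
      rw [map_add, mul_add]
  · intro x x' hx hx'
    rw [ext_add_left, map_add, hx, hx', ← Finset.sum_add_distrib]
    apply Finset.sum_congr rfl
    intro i _
    rw [map_add, add_mul]

/-- The exterior product of two functionals. -/
lemma dual_ext (φ₁ : W.H X →ₗ[W.K] W.K) (φ₂ : W.H Y →ₗ[W.K] W.K) :
    ∃ φ : W.H (X.prod Y) →ₗ[W.K] W.K, ∀ x y, baseTr φ (ext W x y) = baseTr φ₁ x * baseTr φ₂ y := by
  refine ⟨(TensorProduct.lid W.K W.K).toLinearMap ∘ₗ TensorProduct.map φ₁ φ₂ ∘ₗ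
    (kappa W X Y).symm.toLinearMap, ?_⟩
  intro x y
  refine base_ind (p := fun x => baseTr _ (ext W x y) = baseTr φ₁ x * baseTr φ₂ y) ?_ ?_ ?_ x
  · have h : ext W (0 : Base W.K (W.H X)) y = 0 := by
      rw [← extL_apply, map_zero, LinearMap.zero_apply]
    rw [h, map_zero, map_zero, zero_mul]
  · intro r c
    refine base_ind (p := fun y => baseTr _ (ext W (tm r c) y) =
      baseTr φ₁ (tm r c) * baseTr φ₂ y) ?_ ?_ ?_ y
    · have h : ext W (tm r c : Base W.K (W.H X)) (0 : Base W.K (W.H Y)) = 0 := by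
        rw [← extL_apply, map_zero]
      rw [h, map_zero, map_zero, mul_zero]
    · intro s d
      rw [ext_tm, baseTr_tm, baseTr_tm, baseTr_tm]
      rw [LinearMap.comp_apply, LinearMap.comp_apply, LinearEquiv.coe_coe, LinearEquiv.coe_coe,
        ← kappa_tmul, LinearEquiv.symm_apply_apply, TensorProduct.map_tmul,
        TensorProduct.lid_tmul, smul_eq_mul, map_mul]
      ring
    · intro y y' hy hy'
      rw [ext_add_right, map_add, hy, hy', map_add, mul_add]
  · intro x x' hx hx'
    rw [ext_add_left, map_add, hx, hx', map_add, add_mul]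

/-- The exterior products of elements of the de Rham cohomology. -/
lemma ext_mem (D : DeRham W F) {x : Base W.K (W.H X)} {y : Base W.K (W.H Y)} (hx : x ∈ D.dR X)
    (hy : y ∈ D.dR Y) : ext W x y ∈ D.dR (X.prod Y) :=
  (D.form _).mul _ (D.map (fst X Y) _ hx) _ (D.map (snd X Y) _ hy)

/-- The exterior products span the de Rham cohomology of a product. -/
lemma dR_ext (D : DeRham W F) : dRSub D (X.prod Y) ≤ Submodule.span F
    {z | ∃ x ∈ D.dR X, ∃ y ∈ D.dR Y, z = ext W x y} := by
  have h0 : twoPiI ^ (X.prod Y).dim ≠ 0 := pow_ne_zero _ twoPiI_ne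
  let B : Base W.K (W.H (X.prod Y)) →ₗ[ℂ] Base W.K (W.H (X.prod Y)) →ₗ[ℂ] ℂ :=
    (twoPiI ^ (X.prod Y).dim)⁻¹ •
      ((LinearMap.mul ℂ (Base W.K (W.H (X.prod Y)))).compr₂ (baseTr (W.tr (X.prod Y))))
  have hBe : ∀ v w, B v w = (twoPiI ^ (X.prod Y).dim)⁻¹ * baseTr (W.tr (X.prod Y)) (v * w) :=
    fun v w => rfl
  set U : Submodule F (Base W.K (W.H (X.prod Y))) := Submodule.span F
    {z | ∃ x ∈ D.dR X, ∃ y ∈ D.dR Y, z = ext W x y} with hU
  have hUd : ∀ z ∈ U, z ∈ D.dR (X.prod Y) := by
    intro z hz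
    have h1 : U ≤ dRSub D (X.prod Y) := by
      rw [hU, Submodule.span_le]
      rintro z ⟨x, hx, y, hy, rfl⟩
      exact ext_mem D hx hy
    exact h1 hz
  have hD : ∀ v ∈ D.dR (X.prod Y), ∀ w ∈ D.dR (X.prod Y), B v w ∈ F := by
    intro v hv w hw
    obtain ⟨r, hr, h⟩ := (D.form (X.prod Y)).tr _ ((D.form (X.prod Y)).mul v hv w hw)
    rw [hBe, h, ← mul_assoc, inv_mul_cancel₀ h0, one_mul]
    exact hr
  intro v hv
  refine mem_of_pair U ?_ B ?_ (fun v hv w hw => hD v (hUd v hv) w (hUd w hw))
    (fun w hw => hD v hv w (hUd w hw))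
  · rw [eq_top_iff]
    have h1 : ∀ x y, ext W x y ∈ Submodule.span ℂ (U : Set (Base W.K (W.H (X.prod Y)))) := by
      intro x y
      have hx : x ∈ Submodule.span ℂ (D.dR X) := by rw [(D.form X).span]; trivial
      have hy : y ∈ Submodule.span ℂ (D.dR Y) := by rw [(D.form Y).span]; trivial
      refine Submodule.span_induction (p := fun x _ => ext W x y ∈ Submodule.span ℂ
        (U : Set (Base W.K (W.H (X.prod Y))))) ?_ ?_ ?_ ?_ hx
      · intro x hx
        refine Submodule.span_induction (p := fun y _ => ext W x y ∈ Submodule.span ℂ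
          (U : Set (Base W.K (W.H (X.prod Y))))) ?_ ?_ ?_ ?_ hy
        · intro y hy
          exact Submodule.subset_span (Submodule.subset_span ⟨x, hx, y, hy, rfl⟩)
        · rw [← extL_apply, map_zero]
          exact Submodule.zero_mem _
        · intro a b _ _ ha hb
          rw [ext_add_right]
          exact Submodule.add_mem _ ha hb
        · intro r a _ ha
          rw [ext_smul_right]
          exact Submodule.smul_mem _ _ ha
      · rw [← extL_apply, map_zero, LinearMap.zero_apply]
        exact Submodule.zero_mem _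
      · intro a b _ _ ha hb
        rw [ext_add_left]
        exact Submodule.add_mem _ ha hb
      · intro r a _ ha
        rw [ext_smul_left]
        exact Submodule.smul_mem _ _ ha
    intro z _
    obtain ⟨t, rfl⟩ := (kap W X Y).surjective z
    refine TensorProduct.induction_on (motive := fun t => kap W X Y t ∈ Submodule.span ℂ
      (U : Set (Base W.K (W.H (X.prod Y))))) t ?_ ?_ ?_
    · rw [map_zero]
      exact Submodule.zero_mem _
    · intro x y
      rw [kap_tmul]
      exact h1 x y
    · intro a b ha hb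
      rw [map_add]
      exact Submodule.add_mem _ ha hb
  · intro v hv
    apply baseTr_nondeg _ (Pool.Agent.Y133.Half.exists_dual_class W)
    intro b
    have h1 := hv b
    rw [hBe] at h1
    exact (mul_eq_zero.1 h1).resolve_left (inv_ne_zero h0)

/-- The de Rham cohomology is finite-dimensional over `F`. -/
lemma dR_finite (D : DeRham W F) (X : 𝒱.Obj) : Module.Finite F (dRSub D X) := by
  have h0 : twoPiI ^ X.dim ≠ 0 := pow_ne_zero _ twoPiI_ne
  let B : Base W.K (W.H X) →ₗ[ℂ] Base W.K (W.H X) →ₗ[ℂ] ℂ :=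
    (twoPiI ^ X.dim)⁻¹ • ((LinearMap.mul ℂ (Base W.K (W.H X))).compr₂ (baseTr (W.tr X)))
  have hBe : ∀ v w, B v w = (twoPiI ^ X.dim)⁻¹ * baseTr (W.tr X) (v * w) := fun v w => rfl
  have hD : ∀ v ∈ D.dR X, ∀ w ∈ D.dR X, B v w ∈ F := by
    intro v hv w hw
    obtain ⟨r, hr, h⟩ := (D.form X).tr _ ((D.form X).mul v hv w hw)
    rw [hBe, h, ← mul_assoc, inv_mul_cancel₀ h0, one_mul]
    exact hr
  obtain ⟨s, hs, hspan, hli⟩ := exists_linearIndependent ℂ (D.dR X)
  have hfin : s.Finite := hli.setFinite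
  rw [(D.form X).span] at hspan
  have hle : dRSub D X ≤ Submodule.span F s := by
    intro v hv
    refine mem_of_pair (Submodule.span F s) ?_ B ?_ ?_ ?_
    · rw [eq_top_iff, ← hspan, Submodule.span_le]
      exact fun x hx => Submodule.subset_span (Submodule.subset_span hx)
    · intro v hv
      apply baseTr_nondeg _ (Pool.Agent.Y133.Half.exists_dual_class W)
      intro b
      have h1 := hv b
      rw [hBe] at h1
      exact (mul_eq_zero.1 h1).resolve_left (inv_ne_zero h0)
    · have hsub : ∀ z ∈ Submodule.span F s, z ∈ D.dR X := by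
        intro z hz
        have h1 : Submodule.span F s ≤ dRSub D X := Submodule.span_le.2 hs
        exact h1 hz
      exact fun v hv w hw => hD v (hsub v hv) w (hsub w hw)
    · have hsub : ∀ z ∈ Submodule.span F s, z ∈ D.dR X := by
        intro z hz
        have h1 : Submodule.span F s ≤ dRSub D X := Submodule.span_le.2 hs
        exact h1 hz
      exact fun w hw => hD v hv w (hsub w hw)
  have : Module.Finite F (Submodule.span F s) := FiniteDimensional.span_of_finite F hfin
  exact Submodule.finiteDimensional_of_le hle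

end Pool.Agent.R920.PD
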