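import Pool.Agent.R920.PD.Tor
import Pool.Agent.R920.PD.GDefs

/-!
# Formal periods over `F` and functions on the complex group
-/

open CategoryTheory AlgebraicGeometry Module

universe u v

namespace Pool.Agent.R920.PD

section Alg

/-- Algebraically independent elements can be found among generators, without a domain. -/
lemma indep_of_gen' {B : Type*} [CommRing B] [Algebra ℂ B] (T : Set B)
    (hT : Algebra.adjoin ℂ T = ⊤) {r : ℕ} (w : Fin r → B) (hw : AlgebraicIndependent ℂ w) :
    ∃ t : Fin r → B, (∀ i, t i ∈ T) ∧ AlgebraicIndependent ℂ t := by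
  classical
  let M : Submonoid B := Submonoid.map (MvPolynomial.aeval w : MvPolynomial (Fin r) ℂ →ₐ[ℂ] B)
    (nonZeroDivisors (MvPolynomial (Fin r) ℂ))
  have hM : Disjoint ((⊥ : Ideal B) : Set B) (M : Set B) := by
    rw [Set.disjoint_left]
    rintro x hx ⟨q, hq, rfl⟩
    have h1 : MvPolynomial.aeval w q = 0 := hx
    have h2 : q = 0 := hw (by rw [h1, map_zero])
    exact nonZeroDivisors.ne_zero hq h2
  obtain ⟨Q, hQ, -, hQM⟩ := Ideal.exists_le_prime_disjoint (⊥ : Ideal B) M hM
  have h1 : AlgebraicIndependent ℂ (fun i => Ideal.Quotient.mkₐ ℂ Q (w i)) := by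
    rw [algebraicIndependent_iff]
    intro q hq
    by_contra hq0
    have h2 : Ideal.Quotient.mkₐ ℂ Q (MvPolynomial.aeval w q) = 0 := by
      rw [← hq]
      have h3 : MvPolynomial.aeval (fun i => Ideal.Quotient.mkₐ ℂ Q (w i)) =
          (Ideal.Quotient.mkₐ ℂ Q).comp (MvPolynomial.aeval w) := by
        apply MvPolynomial.algHom_ext
        intro i
        simp
      rw [h3]
      rfl
    have h3 : MvPolynomial.aeval w q ∈ Q := Ideal.Quotient.eq_zero_iff_mem.1 h2
    exact Set.disjoint_left.1 hQM h3 ⟨q, mem_nonZeroDivisors_of_ne_zero hq0, rfl⟩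
  obtain ⟨t, ht, hti⟩ := indep_of_gen (Ideal.Quotient.mkₐ ℂ Q '' T) (by
    rw [← AlgHom.map_adjoin, hT, Algebra.map_top]
    exact (AlgHom.range_eq_top _).2 (Ideal.Quotient.mkₐ_surjective ℂ Q)) _ h1
  choose u hu hut using ht
  refine ⟨u, hu, ?_⟩
  apply AlgebraicIndependent.of_comp (Ideal.Quotient.mkₐ ℂ Q)
  have h5 : ((Ideal.Quotient.mkₐ ℂ Q) ∘ u) = t := funext fun o => hut o
  rw [h5]
  exact hti

end Alg

open Pool.Agent.H914 Pool.Agent.H914.VarClass Pool.Agent.H914.VarClass.Obj
  Pool.Agent.H914.WeilCohomology Pool.Agent.Y133.Per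
open Pool.Agent.Y133.Half (pw)

variable {k : Type u} [Field k] {𝒱 : VarClass k} {ops : CycleOps 𝒱}
  {W : WeilCohomology.{u, v} ops} [Algebra W.K ℂ] {F : Subfield ℂ} {X Y : 𝒱.Obj} {C : Classes W}

/-- Polynomial functions over `F` which are linearly independent over `F` are linearly independent
over the complex numbers. -/
lemma polyF_indep [IsAlgClosed F] (hF : ∀ r : W.K, algebraMap W.K ℂ r ∈ F) {ι : Type*}
    (w : ι → Aut W C X → ℂ) (hw : ∀ i, w i ∈ polyF F W C X) (hli : LinearIndependent F w) :
    LinearIndependent ℂ w := by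
  classical
  rw [linearIndependent_iff']
  intro s c hc
  -- pass to an indexing by `Fin`
  let σ := s.equivFin
  let c' : Fin s.card → ℂ := fun j => c (σ.symm j)
  have hc' : ∑ j, c' j • w (σ.symm j) = 0 := by
    rw [← hc, ← Finset.sum_coe_sort s, ← σ.symm.sum_comp]
  obtain ⟨m, e, a, he, hce⟩ := exists_indep (F := F) c'
  have h1 : ∀ t, (∑ j, (a j t) • w (σ.symm j)) = 0 := by
    intro t
    apply polyF_zero hF
    · exact Subalgebra.sum_mem _ fun j _ => Subalgebra.smul_mem _ (hw _) _
    · intro x hx
      have h2 : ∀ t, (∑ j, (a j t) • w (σ.symm j)) x =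
          ((∑ j, a j t * ⟨_, polyF_mem (hw (σ.symm j)) hx⟩ : F) : ℂ) := by
        intro t
        rw [Finset.sum_apply]
        push_cast
        apply Finset.sum_congr rfl
        intro j _
        rfl
      have h3 : ∑ t, (∑ j, a j t * ⟨_, polyF_mem (hw (σ.symm j)) hx⟩ : F) • e t = 0 := by
        have h0 := congrFun hc' x
        rw [Finset.sum_apply] at h0
        rw [Pi.zero_apply] at h0
        rw [← h0]
        have h4 : ∀ j, (c' j • w (σ.symm j)) x =
            ∑ t, ((a j t : ℂ) * w (σ.symm j) x) * e t := by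
          intro j
          rw [Pi.smul_apply, smul_eq_mul, hce, Finset.sum_mul]
          apply Finset.sum_congr rfl
          intro t _
          ring
        simp only [h4]
        rw [Finset.sum_comm]
        apply Finset.sum_congr rfl
        intro t _
        rw [← Finset.sum_mul]
        have h5 : (∑ j, a j t * ⟨_, polyF_mem (hw (σ.symm j)) hx⟩ : F) • e t =
            ((∑ j, a j t * ⟨_, polyF_mem (hw (σ.symm j)) hx⟩ : F) : ℂ) * e t := rfl
        rw [h5]
        push_cast
        rfl
      have h6 := Fintype.linearIndependent_iff.1 he _ h3 t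
      rw [h2, h6]
      rfl
  have h2 : LinearIndependent F (fun j : Fin s.card => w (σ.symm j)) :=
    hli.comp _ (Subtype.val_injective.comp σ.symm.injective)
  have h3 : ∀ j t, a j t = 0 := by
    intro j t
    exact Fintype.linearIndependent_iff.1 h2 (fun j => a j t) (h1 t) j
  intro i hi
  have h4 : c' (σ ⟨i, hi⟩) = 0 := by
    rw [hce]
    apply Finset.sum_eq_zero
    intro t _
    rw [h3]
    simp
  have h5 : c' (σ ⟨i, hi⟩) = c i := by
    show c (σ.symm (σ ⟨i, hi⟩)) = c i
    rw [Equiv.symm_apply_apply]
  rw [← h5]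
  exact h4

/-- Translation on the right. -/
noncomputable def trR (R : Type*) [CommSemiring R] [Algebra R ℂ] (x : Aut W C X) :
    (Aut W C X → ℂ) →ₐ[R] (Aut W C X → ℂ) :=
  Pi.algHom R (fun _ => ℂ) fun y => Pi.evalAlgHom R (fun _ => ℂ) (y.mul x)

lemma trR_apply (R : Type*) [CommSemiring R] [Algebra R ℂ] (x : Aut W C X)
    (u : Aut W C X → ℂ) (y : Aut W C X) : trR R x u y = u (y.mul x) := rfl

lemma mul_mul_inv (x y : Aut W C X) : (y.mul x.inv).mul x = y := by
  refine Aut.ext' (fun n => LinearEquiv.ext fun a => ?_) ?_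
  · show y.g n ((x.g n).symm (x.g n a)) = y.g n a
    rw [LinearEquiv.symm_apply_apply]
  · show y.mu * x.mu⁻¹ * x.mu = y.mu
    rw [mul_assoc, inv_mul_cancel₀ x.mu_ne, _root_.mul_one]

lemma trR_inj (R : Type*) [CommSemiring R] [Algebra R ℂ] (x : Aut W C X) :
    Function.Injective (trR R x) := by
  intro u w h
  funext y
  have h1 := congrFun h (y.mul x.inv)
  rw [trR_apply, trR_apply, mul_mul_inv] at h1
  exact h1

lemma fn_HF (hF : ∀ r : W.K, algebraMap W.K ℂ r ∈ F) (φ : W.H X →ₗ[W.K] W.K)
    {z : Base W.K (W.H X)} (hz : z ∈ HF F W X) :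
    (fun x : Aut W C X => baseTr φ (x.e z)) ∈ polyF F W C X := by
  refine Submodule.span_induction (p := fun z _ =>
    (fun x : Aut W C X => baseTr φ (x.e z)) ∈ polyF F W C X) ?_ ?_ ?_ ?_ hz
  · rintro _ ⟨c, rfl⟩
    obtain ⟨q, hq⟩ := isPoly_zero (W := W) (X := X) hF φ c
    refine ⟨MvPolynomial.rename Sum.inl q, ?_⟩
    funext x
    show (MvPolynomial.aeval (fun s => fun x => coo x s) (MvPolynomial.rename Sum.inl q) :
      Aut W C X → ℂ) x = _
    rw [aeval_apply', MvPolynomial.aeval_rename]
    exact (hq x.e).symm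
  · have h : (fun x : Aut W C X => baseTr φ (x.e 0)) = 0 := by
      funext x
      rw [map_zero, map_zero]
      rfl
    rw [h]
    exact zero_mem _
  · intro a b _ _ ha hb
    have h : (fun x : Aut W C X => baseTr φ (x.e (a + b))) =
        (fun x : Aut W C X => baseTr φ (x.e a)) + fun x : Aut W C X => baseTr φ (x.e b) := by
      funext x
      rw [map_add, map_add]
      rfl
    rw [h]
    exact add_mem ha hb
  · intro r a _ ha
    have h : (fun x : Aut W C X => baseTr φ (x.e (r • a))) =
        r • fun x : Aut W C X => baseTr φ (x.e a) := by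
      funext x
      have h1 : x.e (r • a) = (r : ℂ) • x.e a := map_smul x.e (r : ℂ) a
      rw [h1, map_smul]
      rfl
    rw [h]
    exact Subalgebra.smul_mem _ ha r

lemma trR_mem (D : DeRham W F) {x : Aut W C X} (hx : ∀ ω ∈ D.dR X, x.e ω ∈ HF F W X)
    {u : Aut W C X → ℂ} (hu : u ∈ formalPeriods D C X 0) : trR F x u ∈ polyF F W C X := by
  refine Submodule.span_induction (p := fun u _ => trR F x u ∈ polyF F W C X) ?_ ?_ ?_ ?_ hu
  · rintro u ⟨φ, ω, hω, rfl⟩
    exact fn_HF (C := C) (D.form X).scal φ (hx ω hω)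
  · rw [map_zero]
    exact zero_mem _
  · intro a b _ _ ha hb
    rw [map_add]
    exact add_mem ha hb
  · intro r a _ ha
    rw [map_smul]
    exact Subalgebra.smul_mem _ ha r

lemma trR_mem_pow (D : DeRham W F) {x : Aut W C X} (hx : ∀ ω ∈ D.dR X, x.e ω ∈ HF F W X) (n : ℕ)
    {u : Aut W C X → ℂ} (hu : u ∈ formalPeriods D C X 0 ^ n) : trR F x u ∈ polyF F W C X := by
  have key : ∀ n : ℕ, formalPeriods D C X 0 ^ n ≤
      Subalgebra.toSubmodule ((polyF F W C X).comap (trR F x)) := by
    intro n
    induction n with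
    | zero =>
      rw [pow_zero, Submodule.one_le]
      exact one_mem ((polyF F W C X).comap (trR F x))
    | succ n ih =>
      rw [pow_succ, Submodule.mul_le]
      intro a ha b hb
      exact mul_mem (S := Subalgebra F (Aut W C X → ℂ)) (ih ha) (trR_mem D hx hb)
  exact key n hu

/-- Formal periods which are linearly independent over `F` are linearly independent over the
complex numbers. -/
lemma formal_indep [IsAlgClosed F] (D : DeRham W F)
    (hC : ∀ n j, ∀ c ∈ C (pw X n) j, twist j c ∈ D.dR (pw X n)) {ι : Type*}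
    (w : ι → Aut W C X → ℂ) (n : ℕ) (hw : ∀ i, w i ∈ formalPeriods D C X 0 ^ n)
    (hli : LinearIndependent F w) : LinearIndependent ℂ w := by
  obtain ⟨x, hx⟩ := exists_point D hC
  have h1 : LinearIndependent F (fun i => trR F x (w i)) :=
    hli.map' (trR F x).toLinearMap (LinearMap.ker_eq_bot.2 (trR_inj F x))
  have h2 := polyF_indep (D.form X).scal _ (fun i => trR_mem_pow D hx n (hw i)) h1
  exact LinearIndependent.of_comp (trR ℂ x).toLinearMap h2

/-- The dimension over the complex numbers of the span of the formal periods. -/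
lemma finrank_span_formal [IsAlgClosed F] (D : DeRham W F)
    (hC : ∀ n j, ∀ c ∈ C (pw X n) j, twist j c ∈ D.dR (pw X n)) (n : ℕ) :
    finrank ℂ (Submodule.span ℂ (formalPeriods D C X n : Set (Aut W C X → ℂ))) =
      finrank F (formalPeriods D C X n) := by
  have hfin := finite_zero (C := C) (X := X) D
  rw [formalPeriods_eq]
  let b := Module.finBasis F (formalPeriods D C X 0 ^ (n + 1) : Submodule F (Aut W C X → ℂ))
  have h1 : LinearIndependent F (fun i => (b i : Aut W C X → ℂ)) :=
    b.linearIndependent.map' (Submodule.subtype _) (Submodule.ker_subtype _)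
  have h2 := formal_indep D hC _ (n + 1) (fun i => (b i).2) h1
  have h3 : Submodule.span ℂ ((formalPeriods D C X 0 ^ (n + 1) : Submodule F (Aut W C X → ℂ)) :
      Set (Aut W C X → ℂ)) = Submodule.span ℂ (Set.range fun i => (b i : Aut W C X → ℂ)) := by
    apply le_antisymm
    · rw [Submodule.span_le]
      intro u hu
      have h4 : u = ∑ i, (b.repr ⟨u, hu⟩ i) • (b i : Aut W C X → ℂ) := by
        have h := congrArg Subtype.val (b.sum_repr ⟨u, hu⟩)
        rw [AddSubmonoidClass.coe_finsetSum] at h
        exact h.symm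
      rw [h4]
      refine Submodule.sum_mem _ fun i _ => ?_
      exact Submodule.smul_mem _ ((b.repr ⟨u, hu⟩ i : F) : ℂ) (Submodule.subset_span ⟨i, rfl⟩)
    · apply Submodule.span_mono
      rintro _ ⟨i, rfl⟩
      exact (b i).2
  rw [h3, finrank_span_eq_card h2, Fintype.card_fin]

/-- The span of the operators of the group on the cohomology of the product of `n + 1` copies of
`X`. -/
noncomputable def opSpan (W : WeilCohomology.{u, v} ops) [Algebra W.K ℂ] (C : Classes W)
    (X : 𝒱.Obj) (n : ℕ) : Submodule ℂ (Module.End ℂ (Base W.K (W.H (pw X n)))) :=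
  Submodule.span ℂ (Set.range fun x : Aut W C X => (x.g n).toLinearMap)

/-- The span of the operators has the same dimension as the space of the matrix coefficients. -/
lemma finrank_opSpan (D : DeRham W F) (n : ℕ) : finrank ℂ (opSpan W C X n) =
    finrank ℂ (Submodule.span ℂ (formalPeriods D C X n : Set (Aut W C X → ℂ))) := by
  classical
  let U := opSpan W C X n
  let Ψ : Dual ℂ U →ₗ[ℂ] (Aut W C X → ℂ) :=
    { toFun := fun ℓ x => ℓ ⟨(x.g n).toLinearMap, Submodule.subset_span ⟨x, rfl⟩⟩
      map_add' := fun a b => rfl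
      map_smul' := fun r a => rfl }
  have hinj : Function.Injective Ψ := by
    rw [← LinearMap.ker_eq_bot, LinearMap.ker_eq_bot']
    intro ℓ hℓ
    apply LinearMap.ext
    rintro ⟨a, ha⟩
    refine Submodule.span_induction (p := fun a ha => ℓ ⟨a, ha⟩ = 0) ?_ ?_ ?_ ?_ ha
    · rintro _ ⟨x, rfl⟩
      exact congrFun hℓ x
    · exact map_zero ℓ
    · intro a b ha hb h1 h2
      have h3 : (⟨a + b, add_mem ha hb⟩ : U) = ⟨a, ha⟩ + ⟨b, hb⟩ := rfl
      rw [h3, map_add, h1, h2, add_zero]
    · intro r a ha h1
      have h3 : (⟨r • a, Submodule.smul_mem _ r ha⟩ : U) = r • ⟨a, ha⟩ := rfl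
      rw [h3, map_smul, h1, smul_zero]
  obtain ⟨e, he, heF⟩ := exists_dR_basis D (pw X n)
  have hrange : LinearMap.range Ψ =
      Submodule.span ℂ (formalPeriods D C X n : Set (Aut W C X → ℂ)) := by
    apply le_antisymm
    · rintro _ ⟨ℓ, rfl⟩
      obtain ⟨ℓ', hℓ'⟩ := LinearMap.exists_extend ℓ
      let E : Fin (sz W (pw X n)) → Fin (sz W (pw X n)) →
          Module.End ℂ (Base W.K (W.H (pw X n))) := fun i l =>
        LinearMap.smulRight (e.coord l) (tm 1 (bs W (pw X n) i) : Base W.K (W.H (pw X n)))
      have hE : ∀ a : Module.End ℂ (Base W.K (W.H (pw X n))),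
          a = ∑ i, ∑ l, baseTr ((bs W (pw X n)).coord i) (a (e l)) • E i l := by
        intro a
        apply e.ext
        intro j
        rw [LinearMap.sum_apply]
        have h1 : ∀ i, (∑ l, baseTr ((bs W (pw X n)).coord i) (a (e l)) • E i l) (e j) =
            baseTr ((bs W (pw X n)).coord i) (a (e j)) •
              (tm 1 (bs W (pw X n) i) : Base W.K (W.H (pw X n))) := by
          intro i
          rw [LinearMap.sum_apply, Finset.sum_eq_single j]
          · rw [LinearMap.smul_apply]
            congr 1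
            have h2 : E i j (e j) = e.coord j (e j) •
              (tm 1 (bs W (pw X n) i) : Base W.K (W.H (pw X n))) := rfl
            rw [h2, Basis.coord_apply, Basis.repr_self, Finsupp.single_eq_same, one_smul]
          · intro l _ hl
            rw [LinearMap.smul_apply]
            have h2 : E i l (e j) = e.coord l (e j) •
              (tm 1 (bs W (pw X n) i) : Base W.K (W.H (pw X n))) := rfl
            rw [h2, Basis.coord_apply, Basis.repr_self, Finsupp.single_eq_of_ne hl, zero_smul,
              smul_zero]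
          · intro h
            exact absurd (Finset.mem_univ j) h
        simp only [h1]
        exact sum_coord (a (e j))
      have h2 : Ψ ℓ = ∑ i, ∑ l, ℓ' (E i l) •
          fn C n ((bs W (pw X n)).coord i) (e l) := by
        funext x
        rw [Finset.sum_apply]
        have h3 : Ψ ℓ x = ℓ' (x.g n).toLinearMap := by
          rw [← hℓ']
          rfl
        have h4 : ∀ i, (∑ l, ℓ' (E i l) • fn C n ((bs W (pw X n)).coord i) (e l)) x =
            ∑ l, baseTr ((bs W (pw X n)).coord i) (x.g n (e l)) * ℓ' (E i l) := by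
          intro i
          rw [Finset.sum_apply]
          apply Finset.sum_congr rfl
          intro l _
          rw [Pi.smul_apply, smul_eq_mul, mul_comm]
          rfl
        simp only [h4]
        rw [h3]
        conv_lhs => rw [hE (x.g n).toLinearMap]
        rw [map_sum]
        apply Finset.sum_congr rfl
        intro i _
        rw [map_sum]
        apply Finset.sum_congr rfl
        intro l _
        rw [map_smul, smul_eq_mul]
        rfl
      rw [h2]
      exact Submodule.sum_mem _ fun i _ => Submodule.sum_mem _ fun l _ =>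
        Submodule.smul_mem _ _ (Submodule.subset_span (fn_mem D _ (he l)))
    · rw [Submodule.span_le]
      intro u hu
      refine Submodule.span_induction (p := fun u _ => u ∈ LinearMap.range Ψ) ?_ ?_ ?_ ?_ hu
      · rintro u ⟨φ, ω, hω, rfl⟩
        refine ⟨((baseTr φ) ∘ₗ LinearMap.applyₗ ω) ∘ₗ U.subtype, ?_⟩
        rfl
      · exact Submodule.zero_mem _
      · intro a b _ _ ha hb
        exact Submodule.add_mem _ ha hb
      · intro r a _ ha
        exact Submodule.smul_mem _ (r : ℂ) ha
  rw [← hrange, LinearMap.finrank_range_of_inj hinj]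
  exact (Subspace.dual_finrank_eq (K := ℂ) (V := U)).symm

lemma coeffs_eq (D : DeRham W F) (n : ℕ) : coeffs W C X n =
    Submodule.span ℂ (formalPeriods D C X n : Set (Aut W C X → ℂ)) := by
  apply le_antisymm
  · rw [coeffs, coeffsOf, Submodule.span_le]
    rintro u ⟨φ, z, rfl⟩
    have hz : z ∈ Submodule.span ℂ (D.dR (pw X n)) := by rw [(D.form (pw X n)).span]; trivial
    refine Submodule.span_induction (p := fun z _ => fn C n φ z ∈
      Submodule.span ℂ (formalPeriods D C X n : Set (Aut W C X → ℂ))) ?_ ?_ ?_ ?_ hz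
    · intro z hz
      exact Submodule.subset_span (fn_mem D φ hz)
    · rw [fn_zero]
      exact Submodule.zero_mem _
    · intro a b _ _ ha hb
      rw [fn_add]
      exact Submodule.add_mem _ ha hb
    · intro r a _ ha
      rw [fn_smul]
      exact Submodule.smul_mem _ _ ha
  · rw [Submodule.span_le]
    intro u hu
    refine Submodule.span_induction (p := fun u _ => u ∈ coeffs W C X n) ?_ ?_ ?_ ?_ hu
    · rintro u ⟨φ, ω, hω, rfl⟩
      exact Submodule.subset_span ⟨φ, ω, rfl⟩
    · exact Submodule.zero_mem _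
    · intro a b _ _ ha hb
      exact Submodule.add_mem _ ha hb
    · intro r a _ ha
      exact Submodule.smul_mem _ (r : ℂ) ha

/-- The dimension of the complex group is the largest number of algebraically independent formal
periods. -/
lemma dim_iff [IsAlgClosed F] (D : DeRham W F) [Nontrivial (W.H X)] (h1C : (1 : W.H X) ∈ C X 0)
    (hC : ∀ n j, ∀ c ∈ C (pw X n) j, twist j c ∈ D.dR (pw X n)) (r : ℕ) :
    HasIndep ℂ (coeffs W C X 0) r ↔ HasIndep F (formalPeriods D C X 0) r := by
  classical
  constructor
  · rintro ⟨w, hw, hwi⟩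
    let B := Algebra.adjoin ℂ (formalPeriods D C X 0 : Set (Aut W C X → ℂ))
    have hwB : ∀ i, w i ∈ B := by
      intro i
      have h1 := hw i
      rw [coeffs_eq D 0] at h1
      exact (Submodule.span_le.2 Algebra.subset_adjoin :
        Submodule.span ℂ (formalPeriods D C X 0 : Set (Aut W C X → ℂ)) ≤
          Subalgebra.toSubmodule B) h1
    have h2 : AlgebraicIndependent ℂ (fun i => (⟨w i, hwB i⟩ : B)) :=
      AlgebraicIndependent.of_comp B.val hwi
    obtain ⟨t, ht, hti⟩ := indep_of_gen' {b : B | (b : Aut W C X → ℂ) ∈ formalPeriods D C X 0} (by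
      rw [eq_top_iff]
      rintro ⟨x, hx⟩ _
      refine Algebra.adjoin_induction (p := fun x hx => (⟨x, hx⟩ : B) ∈
        Algebra.adjoin ℂ {b : B | (b : Aut W C X → ℂ) ∈ formalPeriods D C X 0}) ?_ ?_ ?_ ?_ hx
      · intro x hx
        exact Algebra.subset_adjoin hx
      · intro r
        exact Subalgebra.algebraMap_mem _ r
      · intro x y hx hy h5 h6
        exact add_mem h5 h6
      · intro x y hx hy h5 h6
        exact mul_mem h5 h6) _ h2
    refine ⟨fun i => (t i : Aut W C X → ℂ), ht, ?_⟩
    have h3 : AlgebraicIndependent ℂ (fun i => (t i : Aut W C X → ℂ)) :=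
      hti.map' (f := B.val) Subtype.val_injective
    rw [algebraicIndependent_iff]
    intro q hq
    have h4 : MvPolynomial.aeval (fun i => (t i : Aut W C X → ℂ))
        (MvPolynomial.map (algebraMap F ℂ) q) = 0 := by
      rw [MvPolynomial.aeval_map_algebraMap]
      exact hq
    have h5 : MvPolynomial.map (algebraMap F ℂ) q = 0 := h3 (by rw [h4, map_zero])
    exact MvPolynomial.map_injective _ (algebraMap F ℂ).injective (by rw [h5, map_zero])
  · rintro ⟨v, hv, hvi⟩
    refine ⟨v, fun i => ?_, ?_⟩
    · rw [coeffs_eq D 0]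
      exact Submodule.subset_span (hv i)
    · -- the monomials are linearly independent over `F`, hence over the complex numbers
      have h1 : LinearIndependent F (fun m : Fin r →₀ ℕ =>
          MvPolynomial.aeval v (MvPolynomial.monomial m (1 : F))) := by
        have h2 := (MvPolynomial.basisMonomials (Fin r) F).linearIndependent.map'
          (MvPolynomial.aeval v : MvPolynomial (Fin r) F →ₐ[F] (Aut W C X → ℂ)).toLinearMap
          (LinearMap.ker_eq_bot.2 hvi)
        simpa [Function.comp_def] using h2
      obtain ⟨x, hx⟩ := exists_point D hC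
      have h3 : LinearIndependent F (fun m : Fin r →₀ ℕ =>
          trR F x (MvPolynomial.aeval v (MvPolynomial.monomial m (1 : F)))) :=
        h1.map' (trR F x).toLinearMap (LinearMap.ker_eq_bot.2 (trR_inj F x))
      have h4 : ∀ m : Fin r →₀ ℕ,
          trR F x (MvPolynomial.aeval v (MvPolynomial.monomial m (1 : F))) ∈ polyF F W C X := by
        intro m
        obtain ⟨n, hn⟩ := aeval_mem (V := formalPeriods D C X 0) (one_mem_formal D h1C) v hv
          (MvPolynomial.monomial m (1 : F))
        exact trR_mem_pow D hx n hn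
      have h5 := polyF_indep (D.form X).scal _ h4 h3
      have h6 : LinearIndependent ℂ (fun m : Fin r →₀ ℕ =>
          (MvPolynomial.aeval v (MvPolynomial.monomial m (1 : F)) : Aut W C X → ℂ)) :=
        LinearIndependent.of_comp (trR ℂ x).toLinearMap h5
      rw [algebraicIndependent_iff]
      intro q hq
      have h7 : ∀ m : Fin r →₀ ℕ, (MvPolynomial.aeval v (MvPolynomial.monomial m (1 : ℂ)) :
          Aut W C X → ℂ) = MvPolynomial.aeval v (MvPolynomial.monomial m (1 : F)) := by
        intro m
        rw [MvPolynomial.aeval_monomial, MvPolynomial.aeval_monomial, map_one, map_one]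
      have h8 : ∑ m ∈ q.support, MvPolynomial.coeff m q •
          (MvPolynomial.aeval v (MvPolynomial.monomial m (1 : F)) : Aut W C X → ℂ) = 0 := by
        rw [← hq]
        conv_rhs => rw [q.as_sum]
        rw [map_sum]
        apply Finset.sum_congr rfl
        intro m _
        rw [← h7]
        have h9 : MvPolynomial.monomial m (MvPolynomial.coeff m q) =
            MvPolynomial.coeff m q • MvPolynomial.monomial m (1 : ℂ) := by
          rw [MvPolynomial.smul_monomial, smul_eq_mul, mul_one]
        rw [h9, map_smul]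
      have h10 := linearIndependent_iff'.1 h6 q.support (fun m => MvPolynomial.coeff m q) h8
      apply MvPolynomial.ext
      intro m
      rw [MvPolynomial.coeff_zero]
      by_cases hm : m ∈ q.support
      · exact h10 m hm
      · exact MvPolynomial.notMem_support_iff.1 hm

lemma coeffDim_eq [IsAlgClosed F] (D : DeRham W F)
    (hC : ∀ n j, ∀ c ∈ C (pw X n) j, twist j c ∈ D.dR (pw X n)) (n : ℕ) :
    coeffDim W C X n = finrank F (formalPeriods D C X n) := by
  rw [← finrank_span_formal D hC n, ← coeffs_eq D n]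
  rfl

lemma irreducible_of (D : DeRham W F) (h : IsConnectedGroup W C X) : Irreducible D C X := by
  intro n u hu w hw huw
  refine h n u ?_ w ?_ huw
  · rw [coeffs_eq D]
    exact Submodule.subset_span hu
  · rw [coeffs_eq D]
    exact Submodule.subset_span hw

/-- **The law for the periods and the complex group.** -/
theorem group_law [IsAlgClosed F] (D : DeRham W F) [Nontrivial (W.H X)]
    (h1C : (1 : W.H X) ∈ C X 0) (hC : ∀ n j, ∀ c ∈ C (pw X n) j, twist j c ∈ D.dR (pw X n))
    (p m : ℕ → ℕ) (hp : ∀ n, p n = finrank F (periods D (pw X n)))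
    (hm : ∀ n, m n = coeffDim W C X n) :
    ∃ N : ℕ∞, 1 ≤ N ∧ Pool.Agent.Y133.Half.HasIndex m p N ∧
      (∀ r : ℕ, N = r → ∀ n, m n ≤ r * p n) ∧ (N ≠ ⊤ ↔ TrdegIsDim D C X) ∧
      (N = 1 ↔ PeriodConjecture D C X) ∧ (N = 1 ↔ ∀ n, p n = m n) ∧
      (∀ d n, p d = m d ∨ ((2 : ℝ) - 2 * (d + 1) * p 0 / (n + 2)) * p n ≤ m n) ∧
      (IsConnectedGroup W C X → ∀ d n, p d = m d ∨ (n + 2) * p n ≤ 3 * (d + 1) * p 0 * m n) := by
  obtain ⟨N, h1, h2, h3, h4, h5, h6, h7⟩ := periods_law2 D h1C p m hp
    (fun n => by rw [hm, coeffDim_eq D hC])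
  refine ⟨N, h1, h2, h3, ?_, h5, ?_, h6, fun h => h7 (irreducible_of D h)⟩
  · rw [h4]
    unfold WeakPeriodConjecture TrdegIsDim
    exact forall_congr' fun r => by rw [dim_iff D h1C hC r]
  · rw [h5, ← conj_iff D h1C]
    constructor
    · intro h n
      have e1 := hp n
      rw [periods_pow D C n] at e1
      have e2 := hm n
      rw [coeffDim_eq D hC n, formalPeriods_eq D n] at e2
      exact e1.trans ((h (n + 1)).trans e2.symm)
    · intro h n
      cases n with
      | zero =>
        have hP := points (C := C) D h1C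
        have h8 := hP.finrank_zer 0 ⟨Aut.one, IsRat.one⟩
        have h9 : zer (formalPeriods D C X 0) (fun x : {x : Aut W C X // IsRat F x} => evA F x.1) 0
            ⟨Aut.one, IsRat.one⟩ = ⊥ := by
          rw [eq_bot_iff]
          intro x hx
          rw [mem_zer, pow_zero, Submodule.mem_one] at hx
          obtain ⟨⟨y, rfl⟩, hy⟩ := hx
          rw [AlgHom.commutes] at hy
          have h3 : y = 0 := (algebraMap F ℂ).injective (by rw [hy, map_zero])
          rw [h3, map_zero]
          exact Submodule.zero_mem _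
        rw [h9, finrank_bot, add_zero] at h8
        exact h8
      | succ n =>
        have e1 := hp n
        rw [periods_pow D C n] at e1
        have e2 := hm n
        rw [coeffDim_eq D hC n, formalPeriods_eq D n] at e2
        exact e1.symm.trans ((h n).trans e2)

end Pool.Agent.R920.PD
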