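import Pool.Agent.R920.PD.Pts
import Pool.Agent.R920.PD.Law

/-!
# The law for periods and formal periods
-/

open CategoryTheory AlgebraicGeometry Module

universe u v

namespace Pool.Agent.R920.PD

open Pool.Agent.H914 Pool.Agent.H914.VarClass Pool.Agent.H914.VarClass.Obj
  Pool.Agent.H914.WeilCohomology Pool.Agent.Y133.Per
open Pool.Agent.Y133.Half (pw HasIndex)

variable {k : Type u} [Field k] {𝒱 : VarClass k} {ops : CycleOps 𝒱}
  {W : WeilCohomology.{u, v} ops} [Algebra W.K ℂ] {F : Subfield ℂ} {X : 𝒱.Obj} {C : Classes W}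

/-- The evaluation at an element of the group. -/
noncomputable def evA (F : Subfield ℂ) (x : Aut W C X) : (Aut W C X → ℂ) →ₐ[F] ℂ :=
  Pi.evalAlgHom F (fun _ => ℂ) x

lemma evA_apply (x : Aut W C X) (u : Aut W C X → ℂ) : evA F x u = u x := rfl

/-- The translation by an element of the group. -/
noncomputable def trL (F : Subfield ℂ) (x : Aut W C X) :
    (Aut W C X → ℂ) →ₐ[F] (Aut W C X → ℂ) :=
  Pi.algHom F (fun _ => ℂ) fun y => evA F (x.mul y)

lemma trL_apply (x : Aut W C X) (u : Aut W C X → ℂ) (y : Aut W C X) :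
    trL F x u y = u (x.mul y) := rfl

/-- The function `x ↦ φ (x ω)`. -/
noncomputable def fn (C : Classes W) (n : ℕ) (φ : W.H (pw X n) →ₗ[W.K] W.K)
    (ω : Base W.K (W.H (pw X n))) : Aut W C X → ℂ := fun x => baseTr φ (x.g n ω)

lemma fn_mem (D : DeRham W F) {n : ℕ} (φ : W.H (pw X n) →ₗ[W.K] W.K)
    {ω : Base W.K (W.H (pw X n))} (hω : ω ∈ D.dR (pw X n)) :
    fn C n φ ω ∈ formalPeriods D C X n := Submodule.subset_span ⟨φ, ω, hω, rfl⟩

lemma fn_add (n : ℕ) (φ : W.H (pw X n) →ₗ[W.K] W.K) (ω ω' : Base W.K (W.H (pw X n))) :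
    fn C n φ (ω + ω') = fn C n φ ω + fn C n φ ω' := by
  funext x
  show baseTr φ (x.g n (ω + ω')) = baseTr φ (x.g n ω) + baseTr φ (x.g n ω')
  rw [map_add, map_add]

lemma fn_smul (n : ℕ) (φ : W.H (pw X n) →ₗ[W.K] W.K) (r : ℂ) (ω : Base W.K (W.H (pw X n))) :
    fn C n φ (r • ω) = r • fn C n φ ω := by
  funext x
  show baseTr φ (x.g n (r • ω)) = r • baseTr φ (x.g n ω)
  rw [map_smul, map_smul]

lemma fn_zero (n : ℕ) (φ : W.H (pw X n) →ₗ[W.K] W.K) : fn C n φ 0 = 0 := by
  funext x
  show baseTr φ (x.g n 0) = 0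
  rw [map_zero, map_zero]

/-- Expansion of functionals. -/
lemma baseTr_exp (φ : W.H X →ₗ[W.K] W.K) (z : Base W.K (W.H X)) :
    baseTr φ z = ∑ i, algebraMap W.K ℂ (φ (bs W X i)) * baseTr ((bs W X).coord i) z := by
  conv_lhs => rw [sum_coord z]
  rw [map_sum]
  apply Finset.sum_congr rfl
  intro i _
  rw [map_smul, baseTr_tm, one_mul, smul_eq_mul, mul_comm]

lemma baseTr_end (a : Module.End ℂ (Base W.K (W.H X))) (φ : W.H X →ₗ[W.K] W.K)
    (z : Base W.K (W.H X)) : baseTr φ (a z) =
      ∑ j, baseTr ((bs W X).coord j) z • baseTr φ (a (tm 1 (bs W X j))) := by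
  conv_lhs => rw [sum_coord z]
  rw [map_sum, map_sum]
  apply Finset.sum_congr rfl
  intro j _
  rw [map_smul, map_smul]

lemma baseTr_ent (a : Module.End ℂ (Base W.K (W.H X))) (φ : W.H X →ₗ[W.K] W.K)
    (z : Base W.K (W.H X)) : baseTr φ (a z) = ∑ i, algebraMap W.K ℂ (φ (bs W X i)) *
      ∑ j, ent a (i, j) * baseTr ((bs W X).coord j) z := by
  rw [baseTr_exp]
  apply Finset.sum_congr rfl
  intro i _
  rw [baseTr_end]
  congr 1
  apply Finset.sum_congr rfl
  intro j _
  rw [smul_eq_mul, mul_comm]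
  rfl

lemma formalPeriods_succ_le (D : DeRham W F) (n : ℕ) :
    formalPeriods D C X (n + 1) ≤ formalPeriods D C X n * formalPeriods D C X 0 := by
  rw [formalPeriods, formalSpan, Submodule.span_le]
  rintro u ⟨φ, ω, hω, rfl⟩
  have h1 : ω ∈ Submodule.span F {z | ∃ x ∈ D.dR (pw X n), ∃ y ∈ D.dR X, z = ext W x y} :=
    dR_ext (X := pw X n) (Y := X) D hω
  show fn C (n + 1) φ ω ∈ formalPeriods D C X n * formalPeriods D C X 0
  refine Submodule.span_induction (p := fun ω _ => fn C (n + 1) φ ω ∈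
    formalPeriods D C X n * formalPeriods D C X 0) ?_ ?_ ?_ ?_ h1
  · rintro z ⟨x, hx, y, hy, rfl⟩
    obtain ⟨m, φ₁, φ₂, h⟩ := dual_exp (W := W) (X := pw X n) (Y := X) φ
    have h2 : fn C (n + 1) φ (ext W x y) = ∑ i, fn C n (φ₁ i) x * fn C 0 (φ₂ i) y := by
      funext z
      rw [Finset.sum_apply]
      exact (congrArg (baseTr φ) (z.map_ext n x y)).trans (h (z.g n x) (z.g 0 y))
    rw [h2]
    exact Submodule.sum_mem _ fun i _ => Submodule.mul_mem_mul (fn_mem D _ hx)
      (fn_mem (n := 0) D _ hy)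
  · have h2 : fn C (n + 1) φ 0 = 0 := fn_zero _ _
    rw [h2]
    exact Submodule.zero_mem _
  · intro a b _ _ ha hb
    have h2 : fn C (n + 1) φ (a + b) = fn C (n + 1) φ a + fn C (n + 1) φ b := fn_add _ _ _ _
    rw [h2]
    exact Submodule.add_mem _ ha hb
  · intro r a _ ha
    have h2 : fn C (n + 1) φ (r • a) = r • fn C (n + 1) φ a := fn_smul _ _ (r : ℂ) _
    exact Eq.mpr (congrArg (fun u => u ∈ formalPeriods D C X n * formalPeriods D C X 0) h2)
      (Submodule.smul_mem _ r ha)

lemma le_formalPeriods_succ (D : DeRham W F) (n : ℕ) :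
    formalPeriods D C X n * formalPeriods D C X 0 ≤ formalPeriods D C X (n + 1) := by
  conv_lhs => rw [formalPeriods, formalPeriods, formalSpan, formalSpan, Submodule.span_mul_span]
  rw [Submodule.span_le]
  rintro u ⟨_, ⟨φ₁, x, hx, rfl⟩, _, ⟨φ₂, y, hy, rfl⟩, rfl⟩
  obtain ⟨φ, h⟩ := dual_ext (W := W) (X := pw X n) (Y := X) φ₁ φ₂
  refine Submodule.subset_span ⟨φ, ext W x y, ext_mem (X := pw X n) (Y := X) D hx hy, ?_⟩
  funext z
  exact ((congrArg (baseTr φ) (z.map_ext n x y)).trans (h (z.g n x) (z.g 0 y))).symm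

lemma formalPeriods_eq (D : DeRham W F) (n : ℕ) :
    formalPeriods D C X n = formalPeriods D C X 0 ^ (n + 1) := by
  induction n with
  | zero => rw [zero_add, pow_one]
  | succ n ih =>
    rw [pow_succ, ← ih]
    exact le_antisymm (formalPeriods_succ_le D n) (le_formalPeriods_succ D n)

lemma periods_eq (D : DeRham W F) (C : Classes W) (n : ℕ) :
    periods D (pw X n) = (formalPeriods D C X n).map (evA F Aut.one).toLinearMap := by
  rw [periods, periodSpan, formalPeriods, formalSpan, Submodule.map_span]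
  congr 1
  ext r
  constructor
  · rintro ⟨φ, ω, hω, rfl⟩
    exact ⟨_, ⟨φ, ω, hω, rfl⟩, rfl⟩
  · rintro ⟨_, ⟨φ, ω, hω, rfl⟩, rfl⟩
    exact ⟨φ, ω, hω, rfl⟩

lemma finite_zero (D : DeRham W F) : Module.Finite F (formalPeriods D C X 0) := by
  have := dR_finite D X
  let b := Module.finBasis F (dRSub D X)
  let s : Set (Aut W C X → ℂ) := Set.range fun t : Fin (sz W X) × Fin (finrank F (dRSub D X)) =>
    fn C 0 ((bs W X).coord t.1) (b t.2 : Base W.K (W.H X))
  have hs : s.Finite := Set.finite_range _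
  have hle : formalPeriods D C X 0 ≤ Submodule.span F s := by
    rw [formalPeriods, formalSpan, Submodule.span_le]
    rintro u ⟨φ, ω, hω, rfl⟩
    have h1 : ω = ∑ l, (b.repr ⟨ω, hω⟩ l) • (b l : Base W.K (W.H X)) := by
      have h := congrArg Subtype.val (b.sum_repr ⟨ω, hω⟩)
      rw [AddSubmonoidClass.coe_finsetSum] at h
      exact h.symm
    have h2 : (fun x : Aut W C X => baseTr φ (x.g 0 ω)) =
        ∑ i, ∑ l, ((⟨algebraMap W.K ℂ (φ (bs W X i)), (D.form X).scal _⟩ : F) *
          b.repr ⟨ω, hω⟩ l) • fn C 0 ((bs W X).coord i) (b l : Base W.K (W.H X)) := by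
      funext x
      rw [Finset.sum_apply]
      refine (baseTr_exp (X := X) φ (x.g 0 ω)).trans ?_
      apply Finset.sum_congr rfl
      intro i _
      rw [Finset.sum_apply]
      have h3 : ∀ l, (((⟨algebraMap W.K ℂ (φ (bs W X i)), (D.form X).scal _⟩ : F) *
          b.repr ⟨ω, hω⟩ l) • fn C 0 ((bs W X).coord i) (b l : Base W.K (W.H X))) x =
          algebraMap W.K ℂ (φ (bs W X i)) * (((b.repr ⟨ω, hω⟩ l : F) : ℂ) *
            baseTr ((bs W X).coord i) (x.g 0 (b l : Base W.K (W.H X)))) := by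
        intro l
        rw [← mul_assoc]
        rfl
      simp only [h3]
      rw [← Finset.mul_sum]
      congr 1
      have h4 : x.e ω = ∑ l, ((b.repr ⟨ω, hω⟩ l : F) : ℂ) • x.e (b l : Base W.K (W.H X)) := by
        conv_lhs => rw [h1]
        rw [map_sum]
        apply Finset.sum_congr rfl
        intro l _
        exact map_smul x.e ((b.repr ⟨ω, hω⟩ l : F) : ℂ) _
      have h5 : baseTr ((bs W X).coord i) (x.e ω) = ∑ l, ((b.repr ⟨ω, hω⟩ l : F) : ℂ) *
          baseTr ((bs W X).coord i) (x.e (b l : Base W.K (W.H X))) := by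
        rw [h4, map_sum]
        apply Finset.sum_congr rfl
        intro l _
        rw [map_smul, smul_eq_mul]
      exact h5
    show (fun x : Aut W C X => baseTr φ (x.g 0 ω)) ∈ Submodule.span F s
    rw [h2]
    exact Submodule.sum_mem _ fun i _ => Submodule.sum_mem _ fun l _ =>
      Submodule.smul_mem _ _ (Submodule.subset_span ⟨(i, l), rfl⟩)
  have : Module.Finite F (Submodule.span F s) := FiniteDimensional.span_of_finite F hs
  exact Submodule.finiteDimensional_of_le hle

lemma one_mem_dR (D : DeRham W F) : (tm 1 1 : Base W.K (W.H X)) ∈ D.dR X := by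
  have h1 := (D.form X).cyc 0 (W.cl X X.V.fundCycle) ⟨_, X.V.fundCycle_mem, rfl⟩
  rw [W.cl_fund] at h1
  have h2 : (twist 0 1 : Base W.K (W.H X)) = tm 1 1 := by rw [twist, pow_zero]
  rw [h2] at h1
  exact h1

lemma exists_functional [Nontrivial (W.H X)] : ∃ φ : W.H X →ₗ[W.K] W.K, φ 1 = 1 := by
  exact Module.Projective.exists_dual_eq_one W.K one_ne_zero

lemma one_mem_formal (D : DeRham W F) [Nontrivial (W.H X)] (hC : (1 : W.H X) ∈ C X 0) :
    (1 : Aut W C X → ℂ) ∈ formalPeriods D C X 0 := by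
  obtain ⟨φ, hφ⟩ := exists_functional (W := W) (X := X)
  have h1 : (1 : Aut W C X → ℂ) = fn C 0 φ (tm 1 1 : Base W.K (W.H X)) := by
    funext x
    have h2 : x.g 0 (tm 1 1 : Base W.K (W.H X)) = x.mu ^ 0 • (tm 1 1 : Base W.K (W.H X)) :=
      x.map_cls 0 0 1 hC
    have h3 : fn C 0 φ (tm 1 1 : Base W.K (W.H X)) x =
        baseTr φ (x.mu ^ 0 • (tm 1 1 : Base W.K (W.H X))) := congrArg (baseTr φ) h2
    rw [h3, pow_zero, one_smul, baseTr_tm, hφ, map_one, Pi.one_apply, one_mul]
  rw [h1]
  exact fn_mem (n := 0) D φ (one_mem_dR D)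

/-- The combinations of polynomial functions are closed under products. -/
lemma polyC_mul {u w : Aut W C X → ℂ}
    (hu : u ∈ Submodule.span ℂ (polyF F W C X : Set (Aut W C X → ℂ)))
    (hw : w ∈ Submodule.span ℂ (polyF F W C X : Set (Aut W C X → ℂ))) :
    u * w ∈ Submodule.span ℂ (polyF F W C X : Set (Aut W C X → ℂ)) := by
  have h := Submodule.mul_mem_mul hu hw
  rw [Submodule.span_mul_span] at h
  refine Submodule.span_mono ?_ h
  rintro _ ⟨a, ha, b, hb, rfl⟩
  exact mul_mem ha hb

lemma formal_le_polyC (D : DeRham W F) {u : Aut W C X → ℂ} (hu : u ∈ formalPeriods D C X 0) :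
    u ∈ Submodule.span ℂ (polyF F W C X : Set (Aut W C X → ℂ)) := by
  refine Submodule.span_induction (p := fun u _ => u ∈ Submodule.span ℂ
    (polyF F W C X : Set (Aut W C X → ℂ))) ?_ ?_ ?_ ?_ hu
  · rintro u ⟨φ, ω, hω, rfl⟩
    have h1 : (fun x : Aut W C X => baseTr φ (x.g 0 ω)) = ∑ j, baseTr ((bs W X).coord j) ω •
        fn C 0 φ (tm 1 (bs W X j) : Base W.K (W.H X)) := by
      funext x
      rw [Finset.sum_apply]
      have h2 : baseTr φ (x.e ω) = ∑ j, baseTr ((bs W X).coord j) ω •
          baseTr φ (x.e (tm 1 (bs W X j))) := baseTr_end x.e φ ω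
      exact h2
    rw [h1]
    refine Submodule.sum_mem _ fun j _ => Submodule.smul_mem _ _ (Submodule.subset_span ?_)
    obtain ⟨q, hq⟩ := isPoly_zero (W := W) (X := X) (D.form X).scal φ (bs W X j)
    refine ⟨MvPolynomial.rename Sum.inl q, ?_⟩
    funext x
    show (MvPolynomial.aeval (fun s => fun x => coo x s) (MvPolynomial.rename Sum.inl q) :
      Aut W C X → ℂ) x = _
    rw [aeval_apply', MvPolynomial.aeval_rename]
    exact (hq x.e).symm
  · exact Submodule.zero_mem _
  · intro a b _ _ ha hb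
    exact Submodule.add_mem _ ha hb
  · intro r a _ ha
    exact Submodule.smul_mem _ (r : ℂ) ha

lemma pow_le_polyC (D : DeRham W F) (n : ℕ) {u : Aut W C X → ℂ}
    (hu : u ∈ formalPeriods D C X 0 ^ n) :
    u ∈ Submodule.span ℂ (polyF F W C X : Set (Aut W C X → ℂ)) := by
  have key : ∀ n : ℕ, formalPeriods D C X 0 ^ n ≤
      (Submodule.span ℂ (polyF F W C X : Set (Aut W C X → ℂ))).restrictScalars F := by
    intro n
    induction n with
    | zero =>
      rw [pow_zero, Submodule.one_le]
      exact Submodule.subset_span (one_mem _)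
    | succ n ih =>
      rw [pow_succ, Submodule.mul_le]
      intro a ha b hb
      exact polyC_mul (ih ha) (formal_le_polyC D hb)
  exact key n hu

lemma trL_mem (D : DeRham W F) {x : Aut W C X} (hx : IsRat F x) :
    (formalPeriods D C X 0).map (trL F x).toLinearMap ≤ formalPeriods D C X 0 := by
  conv_lhs => rw [formalPeriods, formalSpan, Submodule.map_span]
  rw [Submodule.span_le]
  rintro _ ⟨_, ⟨φ, ω, hω, rfl⟩, rfl⟩
  have h1 : (trL F x).toLinearMap (fun y : Aut W C X => baseTr φ (y.g 0 ω)) =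
      ∑ i, ∑ j, ((⟨algebraMap W.K ℂ (φ (bs W X i)), (D.form X).scal _⟩ : F) *
        ⟨ent x.e (i, j), hx (Sum.inl (i, j))⟩) • fn C 0 ((bs W X).coord j) ω := by
    funext y
    rw [Finset.sum_apply]
    have h2 : baseTr φ (x.e (y.e ω)) = ∑ i, algebraMap W.K ℂ (φ (bs W X i)) *
        ∑ j, ent x.e (i, j) * baseTr ((bs W X).coord j) (y.e ω) := baseTr_ent x.e φ (y.e ω)
    refine Eq.trans (b := baseTr φ (x.e (y.e ω))) rfl (h2.trans ?_)
    apply Finset.sum_congr rfl
    intro i _
    rw [Finset.sum_apply, Finset.mul_sum]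
    apply Finset.sum_congr rfl
    intro j _
    rw [← mul_assoc]
    rfl
  show (trL F x).toLinearMap (fun y : Aut W C X => baseTr φ (y.g 0 ω)) ∈ formalPeriods D C X 0
  rw [h1]
  exact Submodule.sum_mem _ fun i _ => Submodule.sum_mem _ fun j _ => Submodule.smul_mem _ _
    (fn_mem (n := 0) D _ hω)

lemma trL_eq (D : DeRham W F) {x : Aut W C X} (hx : IsRat F x) :
    (formalPeriods D C X 0).map (trL F x).toLinearMap = formalPeriods D C X 0 := by
  apply le_antisymm (trL_mem D hx)
  intro u hu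
  refine ⟨trL F x.inv u, trL_mem D hx.inv ⟨u, hu, rfl⟩, ?_⟩
  funext y
  show u (x.inv.mul (x.mul y)) = u y
  rw [Aut.inv_mul_mul]

lemma map_evA (D : DeRham W F) {x : Aut W C X} (hx : IsRat F x) (n : ℕ) :
    (formalPeriods D C X 0 ^ n).map (evA F x).toLinearMap =
      (formalPeriods D C X 0 ^ n).map (evA F Aut.one).toLinearMap := by
  have h1 : (evA F x).toLinearMap = (evA F (Aut.one : Aut W C X)).toLinearMap ∘ₗ
      (trL F x).toLinearMap := by
    apply LinearMap.ext
    intro u
    show u x = u (x.mul Aut.one)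
    rw [Aut.mul_one]
  rw [h1, Submodule.map_comp, map_pow_eq, trL_eq D hx]

/-- The rational elements of the group give a family of points. -/
theorem points [IsAlgClosed F] (D : DeRham W F) [Nontrivial (W.H X)] (hC : (1 : W.H X) ∈ C X 0) :
    Points (formalPeriods D C X 0) (fun x : {x : Aut W C X // IsRat F x} => evA F x.1)
      (fun n => finrank F ((formalPeriods D C X 0 ^ n).map
        (evA F (Aut.one : Aut W C X)).toLinearMap)) where
  fin := finite_zero D
  one := one_mem_formal D hC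
  img i n := by rw [img, map_evA D i.2]
  dense n u hu h := polyC_zero (D.form X).scal (pow_le_polyC D n hu) fun x hx => h ⟨x, hx⟩

lemma periods_pow (D : DeRham W F) (C : Classes W) (n : ℕ) : periods D (pw X n) =
    (formalPeriods D C X 0 ^ (n + 1)).map (evA F (Aut.one : Aut W C X)).toLinearMap := by
  rw [periods_eq D C n, formalPeriods_eq]

/-- A polynomial in elements of `V` lies in some power of `V`. -/
lemma aeval_mem {V : Submodule F (Aut W C X → ℂ)} (h1 : (1 : Aut W C X → ℂ) ∈ V) {m : ℕ}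
    (v : Fin m → Aut W C X → ℂ) (hv : ∀ i, v i ∈ V) (q : MvPolynomial (Fin m) F) :
    ∃ n, MvPolynomial.aeval v q ∈ V ^ n := by
  refine MvPolynomial.induction_on (motive := fun q => ∃ n, MvPolynomial.aeval v q ∈ V ^ n) q
    ?_ ?_ ?_
  · intro a
    refine ⟨0, ?_⟩
    rw [MvPolynomial.aeval_C, pow_zero]
    exact Submodule.algebraMap_mem a
  · rintro p q ⟨m, hm⟩ ⟨n, hn⟩
    refine ⟨m + n, ?_⟩
    rw [map_add]
    exact Submodule.add_mem _ (pow_mono h1 (Nat.le_add_right _ _) hm)
      (pow_mono h1 (Nat.le_add_left _ _) hn)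
  · rintro p i ⟨n, hn⟩
    refine ⟨n + 1, ?_⟩
    rw [map_mul, MvPolynomial.aeval_X, pow_succ]
    exact Submodule.mul_mem_mul hn (hv i)

/-- The period conjecture in terms of the dimensions. -/
lemma conj_iff [IsAlgClosed F] (D : DeRham W F) [Nontrivial (W.H X)] (hC : (1 : W.H X) ∈ C X 0) :
    (∀ n, finrank F ((formalPeriods D C X 0 ^ n).map (evA F (Aut.one : Aut W C X)).toLinearMap) =
      finrank F (formalPeriods D C X 0 ^ n : Submodule F (Aut W C X → ℂ))) ↔
      PeriodConjecture D C X := by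
  have hP := points (C := C) D hC
  have hfin := finite_zero (C := C) (X := X) D
  constructor
  · intro h m φ ω q hω hq x
    obtain ⟨n, hn⟩ := aeval_mem (V := formalPeriods D C X 0) (one_mem_formal D hC)
      (fun i => fn C 0 (φ i) (ω i)) (fun i => fn_mem (n := 0) D _ (hω i)) q
    have h1 := hP.finrank_zer n ⟨Aut.one, IsRat.one⟩
    have h2 := hP.finite_zer n ⟨Aut.one, IsRat.one⟩
    have h3 : zer (formalPeriods D C X 0) (fun x : {x : Aut W C X // IsRat F x} => evA F x.1) n
        ⟨Aut.one, IsRat.one⟩ = ⊥ := by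
      apply Submodule.finrank_eq_zero.1
      have h4 := h n
      have h5 := h1.trans h4.symm
      omega
    have h4 : MvPolynomial.aeval (fun i => fn C 0 (φ i) (ω i)) q ∈
        zer (formalPeriods D C X 0) (fun x : {x : Aut W C X // IsRat F x} => evA F x.1) n
        ⟨Aut.one, IsRat.one⟩ := by
      rw [mem_zer]
      refine ⟨hn, ?_⟩
      show (MvPolynomial.aeval (fun i => fn C 0 (φ i) (ω i)) q : Aut W C X → ℂ) Aut.one = 0
      rw [aeval_apply']
      exact hq
    rw [h3, Submodule.mem_bot] at h4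
    have h5 := congrFun h4 x
    rw [aeval_apply'] at h5
    exact h5
  · intro h n
    have h1 := hP.finrank_zer n ⟨Aut.one, IsRat.one⟩
    have h3 : zer (formalPeriods D C X 0) (fun x : {x : Aut W C X // IsRat F x} => evA F x.1) n
        ⟨Aut.one, IsRat.one⟩ = ⊥ := by
      rw [eq_bot_iff]
      intro u hu
      rw [mem_zer] at hu
      obtain ⟨hu1, hu2⟩ := hu
      rw [Submodule.mem_bot]
      -- a finite set of generators
      have hfg : (formalPeriods D C X 0).FG := Module.Finite.iff_fg.1 hfin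
      rw [formalPeriods, formalSpan, Submodule.fg_span_iff_fg_span_finset_subset] at hfg
      obtain ⟨s, hs, hspan⟩ := hfg
      let e := s.equivFin
      choose φ ω hω hv using fun i : Fin s.card => hs (e.symm i).2
      have hV : formalPeriods D C X 0 = Submodule.span F
          (Set.range fun i : Fin s.card => fn C 0 (φ i) (ω i)) := by
        rw [formalPeriods, formalSpan, hspan]
        congr 1
        ext w
        constructor
        · intro hw
          exact ⟨e ⟨w, hw⟩, by
            have h4 := hv (e ⟨w, hw⟩)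
            rw [Equiv.symm_apply_apply] at h4
            exact h4.symm⟩
        · rintro ⟨i, rfl⟩
          have h4 := hv i
          show fn C 0 (φ i) (ω i) ∈ (s : Set _)
          rw [show fn C 0 (φ i) (ω i) = ((e.symm i : s) : Aut W C X → ℂ) from h4.symm]
          exact (e.symm i).2
      have hu3 : u ∈ Algebra.adjoin F (Set.range fun i : Fin s.card => fn C 0 (φ i) (ω i)) := by
        have h4 : formalPeriods D C X 0 ^ n ≤ Subalgebra.toSubmodule
            (Algebra.adjoin F (Set.range fun i : Fin s.card => fn C 0 (φ i) (ω i))) := by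
          rw [hV]
          clear hu1 hu2 h1
          induction n with
          | zero =>
            rw [pow_zero, Submodule.one_le]
            exact one_mem (Algebra.adjoin F _)
          | succ n ih =>
            rw [pow_succ, Submodule.mul_le]
            intro a ha b hb
            refine mul_mem (S := Subalgebra F (Aut W C X → ℂ)) (ih ha) ?_
            exact (Submodule.span_le.2 Algebra.subset_adjoin :
              Submodule.span F _ ≤ Subalgebra.toSubmodule (Algebra.adjoin F _)) hb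
        exact h4 hu1
      rw [Algebra.adjoin_range_eq_range_aeval] at hu3
      obtain ⟨q, rfl⟩ := hu3
      funext x
      show (MvPolynomial.aeval (fun i => fn C 0 (φ i) (ω i)) q : Aut W C X → ℂ) x = 0
      rw [aeval_apply']
      refine h _ φ ω q (fun i => hω i) ?_ x
      have h4 : (MvPolynomial.aeval (fun i => fn C 0 (φ i) (ω i)) q : Aut W C X → ℂ) Aut.one = 0 :=
        hu2
      rw [aeval_apply'] at h4
      exact h4
    rw [h3, finrank_bot, add_zero] at h1
    exact h1

/-- **The law for the periods.** -/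
theorem periods_law [IsAlgClosed F] (D : DeRham W F) [Nontrivial (W.H X)]
    (hC : (1 : W.H X) ∈ C X 0) (p f : ℕ → ℕ) (hp : ∀ n, p n = finrank F (periods D (pw X n)))
    (hf : ∀ n, f n = finrank F (formalPeriods D C X n)) :
    ∃ N : ℕ∞, 1 ≤ N ∧ HasIndex f p N ∧ (∀ r : ℕ, N = r → ∀ n, f n ≤ r * p n) ∧
      (N = 1 ↔ PeriodConjecture D C X) ∧
      (∀ d n, p d = f d ∨ ((2 : ℝ) - 2 * (d + 1) * p 0 / (n + 2)) * p n ≤ f n) ∧
      (Irreducible D C X → ∀ d n, p d = f d ∨ (n + 2) * p n ≤ 3 * (d + 1) * p 0 * f n) := by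
  have hP := points (C := C) D hC
  have hne : Nonempty {x : Aut W C X // IsRat F x} := ⟨⟨Aut.one, IsRat.one⟩⟩
  have hp' : ∀ n, p n = finrank F ((formalPeriods D C X 0 ^ (n + 1)).map
      (evA F (Aut.one : Aut W C X)).toLinearMap) := fun n => by rw [hp, periods_pow D C]
  have hf' : ∀ n, f n = finrank F
      (formalPeriods D C X 0 ^ (n + 1) : Submodule F (Aut W C X → ℂ)) := fun n => by
    rw [hf, formalPeriods_eq]
  obtain ⟨h1, h2, h3⟩ := hP.law
  refine ⟨_, h1, ?_, ?_, ?_, ?_, ?_⟩
  · have h4 := h2.comp (Filter.tendsto_add_atTop_nat 1)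
    unfold HasIndex
    refine h4.congr fun n => ?_
    rw [Function.comp_apply, hp', hf']
  · intro r hr n
    rw [hp', hf']
    exact hP.upper hr (n + 1)
  · rw [h3, conj_iff D hC]
  · intro d n
    by_cases h : p d = f d
    · exact Or.inl h
    · right
      rw [hp', hf'] at h
      have h4 := hP.gap h (n + 1)
      rw [← hp' n, ← hf' n, ← hp' 0] at h4
      have h5 : ((2 : ℝ) - 2 * ((d + 1 : ℕ) : ℝ) * p 0 / (((n + 1 : ℕ) : ℝ) + 1)) =
          2 - 2 * (d + 1) * p 0 / (n + 2) := by
        push_cast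
        ring
      rw [h5] at h4
      exact h4
  · intro hI d n
    by_cases h : p d = f d
    · exact Or.inl h
    · right
      rw [hp', hf'] at h
      have hV : Points.NoZeroDiv (formalPeriods D C X 0) := by
        intro m u hu w hw huw
        refine hI m u ?_ w ?_ huw
        · rw [formalPeriods_eq]
          exact pow_mono (one_mem_formal D hC) (Nat.le_succ m) hu
        · rw [formalPeriods_eq]
          exact pow_mono (one_mem_formal D hC) (Nat.le_succ m) hw
      have hnt : Nontrivial (Aut W C X → ℂ) := by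
        have : Nonempty (Aut W C X) := ⟨Aut.one⟩
        infer_instance
      have h4 := hP.rate hV h (n + 1)
      rw [← hp' n, ← hf' n, ← hp' 0] at h4
      exact h4

end Pool.Agent.R920.PD
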