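import Pool.Agent.R920.PD.Main
import Pool.Agent.R920.PD.Weak

/-!
# The law for periods and formal periods, with the weak form of the conjecture
-/

open CategoryTheory AlgebraicGeometry Module

universe u v

namespace Pool.Agent.R920.PD

open Pool.Agent.H914 Pool.Agent.H914.VarClass Pool.Agent.H914.VarClass.Obj
  Pool.Agent.H914.WeilCohomology Pool.Agent.Y133.Per
open Pool.Agent.Y133.Half (pw HasIndex)

variable {k : Type u} [Field k] {𝒱 : VarClass k} {ops : CycleOps 𝒱}
  {W : WeilCohomology.{u, v} ops} [Algebra W.K ℂ] {F : Subfield ℂ} {X : 𝒱.Obj} {C : Classes W}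

/-- **The law for the periods, with the weak form.** -/
theorem periods_law2 [IsAlgClosed F] (D : DeRham W F) [Nontrivial (W.H X)]
    (hC : (1 : W.H X) ∈ C X 0) (p f : ℕ → ℕ) (hp : ∀ n, p n = finrank F (periods D (pw X n)))
    (hf : ∀ n, f n = finrank F (formalPeriods D C X n)) :
    ∃ N : ℕ∞, 1 ≤ N ∧ HasIndex f p N ∧ (∀ r : ℕ, N = r → ∀ n, f n ≤ r * p n) ∧
      (N ≠ ⊤ ↔ WeakPeriodConjecture D C X) ∧ (N = 1 ↔ PeriodConjecture D C X) ∧
      (∀ d n, p d = f d ∨ ((2 : ℝ) - 2 * (d + 1) * p 0 / (n + 2)) * p n ≤ f n) ∧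
      (Irreducible D C X → ∀ d n, p d = f d ∨ (n + 2) * p n ≤ 3 * (d + 1) * p 0 * f n) := by
  obtain ⟨N, h1, h2, h3, h4, h5, h6⟩ := periods_law D hC p f hp hf
  refine ⟨N, h1, h2, h3, ?_, h4, h5, h6⟩
  have hP := points (C := C) D hC
  have hne : Nonempty {x : Aut W C X // IsRat F x} := ⟨⟨Aut.one, IsRat.one⟩⟩
  have h7 := hP.weak ⟨Aut.one, IsRat.one⟩ (fun i => by
    have h8 := map_evA D i.2 1
    rw [pow_one] at h8
    exact h8)
  have h8 : periods D X = (formalPeriods D C X 0).map (evA F (Aut.one : Aut W C X)).toLinearMap :=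
    periods_eq D C 0
  have h9 : N = Points.num (formalPeriods D C X 0)
      (fun x : {x : Aut W C X // IsRat F x} => evA F x.1) := by
    obtain ⟨g1, g2, g3⟩ := hP.law
    have h10 : HasIndex f p (Points.num (formalPeriods D C X 0)
        (fun x : {x : Aut W C X // IsRat F x} => evA F x.1)) := by
      have h4 := g2.comp (Filter.tendsto_add_atTop_nat 1)
      unfold HasIndex
      refine h4.congr fun n => ?_
      have hp' : p n = finrank F ((formalPeriods D C X 0 ^ (n + 1)).map
        (evA F (Aut.one : Aut W C X)).toLinearMap) := by rw [hp, periods_pow D C]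
      have hf' : f n = finrank F
        (formalPeriods D C X 0 ^ (n + 1) : Submodule F (Aut W C X → ℂ)) := by
        rw [hf, formalPeriods_eq]
      rw [Function.comp_apply, hp', hf']
    have h11 := tendsto_nhds_unique h2 h10
    exact ENat.toENNReal_inj.1 h11
  rw [h9, h7]
  unfold WeakPeriodConjecture
  rw [h8]

end Pool.Agent.R920.PD
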