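import Mathlib

/-!
# The dimensions of the powers of a finite-dimensional subspace of a commutative algebra
-/

open Module Submodule

namespace Pool.Agent.R920.PD

section Greedy

variable {k E : Type*} [Field k] [AddCommGroup E] [Module k E] {ι σ : Type*} [LinearOrder σ]

/-- The span of the vectors of the family below `a`. -/
noncomputable def below (k : Type*) [Field k] {E : Type*} [AddCommGroup E] [Module k E] (t : ι → σ)
    (v : ι → E) (T : Finset ι) (a : ι) : Submodule k E :=
  span k (v '' {b | b ∈ T ∧ t b < t a})

lemma finrank_greedy [DecidableEq ι] (t : ι → σ) (ht : Function.Injective t) (v : ι → E)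
    (T : Finset ι) [DecidablePred fun a => v a ∉ below k t v T a] :
    finrank k (span k (v '' (T : Set ι))) =
      (T.filter fun a => v a ∉ below k t v T a).card := by
  classical
  have key : ∀ T : Finset ι, finrank k (span k (v '' (T : Set ι))) =
      (T.filter fun a => v a ∉ below k t v T a).card := by
    intro T
    induction T using Finset.induction_on_max_value t with
    | empty =>
      rw [Finset.coe_empty, Set.image_empty, span_empty, finrank_bot, Finset.filter_empty,
        Finset.card_empty]
    | insert a T ha hmax ih =>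
      have hlt : ∀ x ∈ T, t x < t a := fun x hx =>
        lt_of_le_of_ne (hmax x hx) fun h => ha (ht h ▸ hx)
      have h1 : ∀ b ∈ T, below k t v (insert a T) b = below k t v T b := by
        intro b hb
        unfold below
        congr 2
        ext c
        simp only [Set.mem_setOf_eq, Finset.mem_insert]
        constructor
        · rintro ⟨rfl | h, h'⟩
          · exact absurd (hlt b hb) (lt_asymm h')
          · exact ⟨h, h'⟩
        · rintro ⟨h, h'⟩
          exact ⟨Or.inr h, h'⟩
      have h2 : below k t v (insert a T) a = span k (v '' (T : Set ι)) := by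
        unfold below
        congr 2
        ext c
        simp only [Set.mem_setOf_eq, Finset.mem_insert, Finset.mem_coe]
        constructor
        · rintro ⟨rfl | h, h'⟩
          · exact absurd h' (lt_irrefl _)
          · exact h
        · intro h
          exact ⟨Or.inr h, hlt c h⟩
      have h3 : (insert a T).filter (fun b => v b ∉ below k t v (insert a T) b) =
          if v a ∉ span k (v '' (T : Set ι)) then
            insert a (T.filter fun b => v b ∉ below k t v T b)
          else T.filter fun b => v b ∉ below k t v T b := by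
        rw [Finset.filter_insert, h2]
        have h4 : T.filter (fun b => v b ∉ below k t v (insert a T) b) =
            T.filter fun b => v b ∉ below k t v T b :=
          Finset.filter_congr fun b hb => by rw [h1 b hb]
        rw [h4]
      rw [h3, Finset.coe_insert, Set.image_insert_eq, span_insert]
      have hfin : Module.Finite k (span k (v '' (T : Set ι))) :=
        FiniteDimensional.span_of_finite k (T.finite_toSet.image v)
      by_cases hv : v a ∈ span k (v '' (T : Set ι))
      · rw [if_neg (not_not.2 hv), ← ih, sup_eq_right.2 ((span_singleton_le_iff_mem _ _).2 hv)]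
      · rw [if_pos hv, Finset.card_insert_of_notMem
          (fun h => ha (Finset.mem_filter.1 h).1), ← ih, sup_comm]
        have hv0 : v a ≠ 0 := by
          intro h0
          rw [h0] at hv
          exact hv (zero_mem _)
        have h5 : Disjoint (span k (v '' (T : Set ι))) (span k {v a}) := by
          rw [disjoint_span_singleton' hv0]
          exact hv
        have h6 := Submodule.finrank_sup_add_finrank_inf_eq (span k (v '' (T : Set ι)))
          (span k {v a})
        rw [h5.eq_bot, finrank_bot, add_zero,
          finrank_span_singleton hv0] at h6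
        exact h6
  rw [key T]
  congr 1
  exact Finset.filter_congr_decidable _ _ _

end Greedy

section Mono

variable {k S : Type*} [Field k] [CommRing S] [Algebra k S] {M : ℕ}

/-- The monomial with exponents `a`. -/
def mono (v : Fin M → S) (a : Fin M → ℕ) : S := ∏ i, v i ^ a i

lemma mono_add (v : Fin M → S) (a b : Fin M → ℕ) : mono v (a + b) = mono v a * mono v b := by
  unfold mono
  rw [← Finset.prod_mul_distrib]
  exact Finset.prod_congr rfl fun i _ => pow_add _ _ _

lemma mono_single (v : Fin M → S) (i : Fin M) : mono v (Pi.single i 1) = v i := by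
  unfold mono
  rw [Finset.prod_eq_single i]
  · rw [Pi.single_eq_same, pow_one]
  · intro j _ hj
    rw [Pi.single_eq_of_ne hj, pow_zero]
  · intro h
    exact absurd (Finset.mem_univ i) h

/-- The exponents of degree `n`. -/
abbrev expo (M n : ℕ) : Finset (Fin M → ℕ) := Finset.Nat.antidiagonalTuple M n

lemma mem_expo {n : ℕ} {a : Fin M → ℕ} : a ∈ expo M n ↔ ∑ i, a i = n :=
  Finset.Nat.mem_antidiagonalTuple

lemma sum_single (i : Fin M) : ∑ j, (Pi.single i 1 : Fin M → ℕ) j = 1 := by
  rw [Finset.sum_pi_single']
  simp

lemma add_single_mem {n : ℕ} {a : Fin M → ℕ} (i : Fin M) :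
    a + Pi.single i 1 ∈ expo M (n + 1) ↔ a ∈ expo M n := by
  rw [mem_expo, mem_expo]
  simp only [Pi.add_apply]
  rw [Finset.sum_add_distrib, sum_single]
  omega

lemma sub_add {a : Fin M → ℕ} {i : Fin M} (h : 0 < a i) : a - Pi.single i 1 + Pi.single i 1 = a := by
  funext j
  by_cases hj : j = i
  · subst hj
    simp only [Pi.add_apply, Pi.sub_apply, Pi.single_eq_same]
    omega
  · simp only [Pi.add_apply, Pi.sub_apply, Pi.single_eq_of_ne hj]
    omega

/-- The `n`-th power of the span of the `v i` is spanned by the monomials of degree `n`. -/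
lemma span_pow_eq (v : Fin M → S) (n : ℕ) :
    span k (Set.range v) ^ n = span k (mono v '' (expo M n : Set (Fin M → ℕ))) := by
  induction n with
  | zero =>
    rw [pow_zero]
    have h : (expo M 0 : Set (Fin M → ℕ)) = {0} := by
      ext a
      rw [Finset.mem_coe, mem_expo, Set.mem_singleton_iff, Finset.sum_eq_zero_iff]
      exact ⟨fun h => funext fun i => h i (Finset.mem_univ i), fun h i _ => by rw [h]; rfl⟩
    rw [h, Set.image_singleton]
    have h1 : mono v 0 = 1 := by simp [mono]
    rw [h1, one_eq_span]
  | succ n ih =>
    rw [pow_succ, ih, span_mul_span]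
    apply le_antisymm
    · rw [span_le]
      rintro x ⟨y, ⟨a, ha, rfl⟩, z, ⟨i, rfl⟩, rfl⟩
      refine subset_span ⟨a + Pi.single i 1, ?_, ?_⟩
      · exact (add_single_mem i).2 ha
      · rw [mono_add, mono_single]
    · rw [span_le]
      rintro x ⟨a, ha, rfl⟩
      rw [Finset.mem_coe, mem_expo] at ha
      obtain ⟨i, hi⟩ : ∃ i, 0 < a i := by
        by_contra hcon
        push Not at hcon
        have : ∑ i, a i = 0 := Finset.sum_eq_zero fun i _ => Nat.le_zero.1 (hcon i)
        omega
      refine subset_span ⟨mono v (a - Pi.single i 1), ⟨a - Pi.single i 1, ?_, rfl⟩, v i,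
        ⟨i, rfl⟩, ?_⟩
      · rw [Finset.mem_coe, ← add_single_mem i, sub_add hi, mem_expo]
        exact ha
      · show mono v (a - Pi.single i 1) * v i = mono v a
        rw [← mono_single v i, ← mono_add, sub_add hi]

/-- The exponents `a` of degree `n` for which the monomial is not in the span of the smaller
monomials. -/
noncomputable def stdExp (k : Type*) {S : Type*} [Field k] [CommRing S] [Algebra k S]
    (v : Fin M → S) (n : ℕ) : Finset (Fin M → ℕ) :=
  open Classical in
  (expo M n).filter fun a => mono v a ∉ below k (toLex : (Fin M → ℕ) → Lex (Fin M → ℕ))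
    (mono v) (expo M n) a

lemma card_stdExp (v : Fin M → S) (n : ℕ) :
    (stdExp k v n).card = finrank k (span k (Set.range v) ^ n : Submodule k S) := by
  classical
  rw [span_pow_eq, stdExp, finrank_greedy (k := k)
    (toLex : (Fin M → ℕ) → Lex (Fin M → ℕ)) (Equiv.injective _)]

lemma stdExp_sub {v : Fin M → S} {n : ℕ} {a : Fin M → ℕ} (ha : a ∈ stdExp k v (n + 1)) {i : Fin M}
    (hi : 0 < a i) : a - Pi.single i 1 ∈ stdExp k v n := by
  classical
  rw [stdExp, Finset.mem_filter] at ha ⊢
  obtain ⟨h1, h2⟩ := ha
  refine ⟨?_, fun hc => h2 ?_⟩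
  · rw [← add_single_mem i, sub_add hi]
    exact h1
  · have h3 : mono v a = v i * mono v (a - Pi.single i 1) := by
      have h0 := mono_add v (a - Pi.single i 1) (Pi.single i 1)
      rw [sub_add hi, mono_single] at h0
      rw [h0, mul_comm]
    rw [h3]
    unfold below at hc ⊢
    have h4 : LinearMap.mulLeft k (v i) (mono v (a - Pi.single i 1)) ∈
        Submodule.map (LinearMap.mulLeft k (v i)) (span k (mono v '' {b | b ∈ expo M n ∧
          toLex b < toLex (a - Pi.single i 1)})) := ⟨_, hc, rfl⟩
    rw [Submodule.map_span] at h4
    refine span_mono ?_ h4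
    rintro x ⟨y, ⟨b, ⟨hb, hb'⟩, rfl⟩, rfl⟩
    refine ⟨b + Pi.single i 1, ⟨(add_single_mem i).2 hb, ?_⟩, ?_⟩
    · have h5 : toLex b + toLex (Pi.single i 1) <
          toLex (a - Pi.single i 1) + toLex (Pi.single i 1 : Fin M → ℕ) :=
        add_lt_add_left hb' _
      rw [← toLex_add, ← toLex_add, sub_add hi] at h5
      exact h5
    · rw [mono_add, mono_single, mul_comm]
      rfl

/-- The basic inequality: `(n + 1) dim V ^ (n + 1) ≤ (n + M) dim V ^ n`. -/
lemma succ_mul_le (v : Fin M → S) (n : ℕ) :
    (n + 1) * finrank k (span k (Set.range v) ^ (n + 1) : Submodule k S) ≤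
      (n + M) * finrank k (span k (Set.range v) ^ n : Submodule k S) := by
  classical
  rw [← card_stdExp, ← card_stdExp]
  have h1 : ∑ a ∈ stdExp k v (n + 1), ∑ i, a i = (n + 1) * (stdExp k v (n + 1)).card := by
    rw [mul_comm, ← smul_eq_mul, ← Finset.sum_const]
    apply Finset.sum_congr rfl
    intro a ha
    rw [stdExp, Finset.mem_filter] at ha
    exact mem_expo.1 ha.1
  have h2 : ∑ b ∈ stdExp k v n, ∑ i, (b i + 1) = (n + M) * (stdExp k v n).card := by
    rw [mul_comm, ← smul_eq_mul, ← Finset.sum_const]
    apply Finset.sum_congr rfl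
    intro b hb
    rw [stdExp, Finset.mem_filter] at hb
    rw [Finset.sum_add_distrib, mem_expo.1 hb.1]
    simp
  rw [← h1, ← h2, Finset.sum_comm, Finset.sum_comm (s := stdExp k v n)]
  apply Finset.sum_le_sum
  intro i _
  have h3 : ∑ a ∈ stdExp k v (n + 1), a i =
      ∑ a ∈ (stdExp k v (n + 1)).filter (fun a => 0 < a i), a i := by
    rw [Finset.sum_filter]
    apply Finset.sum_congr rfl
    intro a _
    split_ifs with h
    · rfl
    · omega
  rw [h3]
  have h4 : ∑ a ∈ (stdExp k v (n + 1)).filter (fun a => 0 < a i), a i =
      ∑ b ∈ ((stdExp k v (n + 1)).filter (fun a => 0 < a i)).image (fun a => a - Pi.single i 1),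
        (b i + 1) := by
    rw [Finset.sum_image]
    · apply Finset.sum_congr rfl
      intro a ha
      have h5 := (Finset.mem_filter.1 ha).2
      simp only [Pi.sub_apply, Pi.single_eq_same]
      omega
    · intro a ha b hb hab
      have h5 := (Finset.mem_filter.1 (Finset.mem_coe.1 ha)).2
      have h6 := (Finset.mem_filter.1 (Finset.mem_coe.1 hb)).2
      have h7 : a - Pi.single i 1 = b - Pi.single i 1 := hab
      rw [← sub_add h5, ← sub_add h6, h7]
  rw [h4]
  apply Finset.sum_le_sum_of_subset
  intro b hb
  obtain ⟨a, ha, rfl⟩ := Finset.mem_image.1 hb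
  exact stdExp_sub (Finset.mem_filter.1 ha).1 (Finset.mem_filter.1 ha).2

/-- The inequality for a finite-dimensional subspace. -/
theorem finrank_pow_succ_le (V : Submodule k S) [Module.Finite k V] (n : ℕ) :
    (n + 1) * finrank k (V ^ (n + 1) : Submodule k S) ≤
      (n + finrank k V) * finrank k (V ^ n : Submodule k S) := by
  let b := finBasis k V
  have h : V = span k (Set.range fun i => ((b i : V) : S)) := by
    have h1 := b.span_eq
    have h2 : Submodule.map V.subtype (span k (Set.range b)) = Submodule.map V.subtype ⊤ := by
      rw [h1]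
    rw [Submodule.map_span, Submodule.map_top, Submodule.range_subtype, ← Set.range_comp] at h2
    exact h2.symm
  have h3 := succ_mul_le (k := k) (fun i => ((b i : V) : S)) n
  rw [← h] at h3
  exact h3

end Mono

end Pool.Agent.R920.PD
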