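import Pool.Agent.R920.PD.Dens

/-!
# The group of the automorphisms and its rational points
-/

open CategoryTheory AlgebraicGeometry Module

universe u v

namespace Pool.Agent.R920.PD

open Pool.Agent.H914 Pool.Agent.H914.VarClass Pool.Agent.H914.VarClass.Obj
  Pool.Agent.H914.WeilCohomology Pool.Agent.Y133.Per
open Pool.Agent.Y133.Half (pw)

variable {k : Type u} [Field k] {𝒱 : VarClass k} {ops : CycleOps 𝒱}
  {W : WeilCohomology.{u, v} ops} [Algebra W.K ℂ] {F : Subfield ℂ} {X : 𝒱.Obj} {C : Classes W}

namespace Aut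

lemma ext' {x y : Aut W C X} (h : ∀ n, x.g n = y.g n) (hm : x.mu = y.mu) : x = y := by
  obtain ⟨g, m, _, _, _⟩ := x
  obtain ⟨g', m', _, _, _⟩ := y
  obtain rfl : g = g' := funext h
  obtain rfl : m = m' := hm
  rfl

/-- The identity. -/
noncomputable def one : Aut W C X where
  g n := LinearEquiv.refl ℂ _
  mu := 1
  mu_ne := one_ne_zero
  map_ext n x y := rfl
  map_cls n j c hc := by rw [one_pow, one_smul]; rfl

/-- The product. -/
noncomputable def mul (x y : Aut W C X) : Aut W C X where
  g n := (y.g n).trans (x.g n)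
  mu := x.mu * y.mu
  mu_ne := mul_ne_zero x.mu_ne y.mu_ne
  map_ext n a b := (congrArg (x.g (n + 1)) (y.map_ext n a b)).trans (x.map_ext n _ _)
  map_cls n j c hc := by
    show x.g n (y.g n (tm 1 c)) = _
    rw [y.map_cls n j c hc, map_smul, x.map_cls n j c hc, smul_smul, mul_pow, mul_comm]

/-- The inverse. -/
noncomputable def inv (x : Aut W C X) : Aut W C X where
  g n := (x.g n).symm
  mu := x.mu⁻¹
  mu_ne := inv_ne_zero x.mu_ne
  map_ext n a b := (LinearEquiv.symm_apply_eq _).2 ((x.map_ext n _ _).trans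
    (congrArg₂ (fun a b => ext W a b) ((x.g n).apply_symm_apply a)
      ((x.g 0).apply_symm_apply b))).symm
  map_cls n j c hc := by
    apply (x.g n).injective
    rw [LinearEquiv.apply_symm_apply, map_smul, x.map_cls n j c hc, smul_smul, ← mul_pow,
      inv_mul_cancel₀ x.mu_ne, one_pow, one_smul]

lemma mul_one (x : Aut W C X) : x.mul one = x :=
  ext' (fun n => LinearEquiv.ext fun _ => rfl) (_root_.mul_one _)

lemma inv_mul_mul (x y : Aut W C X) : x.inv.mul (x.mul y) = y := by
  refine ext' (fun n => LinearEquiv.ext fun a => ?_) ?_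
  · exact (x.g n).symm_apply_apply _
  · show x.mu⁻¹ * (x.mu * y.mu) = y.mu
    rw [← mul_assoc, inv_mul_cancel₀ x.mu_ne, _root_.one_mul]

lemma inv_inv (x : Aut W C X) : x.inv.inv = x := by
  refine ext' (fun n => LinearEquiv.ext fun a => rfl) ?_
  exact _root_.inv_inv _

/-- The first component as an endomorphism. -/
noncomputable def e (x : Aut W C X) : Module.End ℂ (Base W.K (W.H X)) := (x.g 0).toLinearMap

/-- The inverse of the first component as an endomorphism. -/
noncomputable def e' (x : Aut W C X) : Module.End ℂ (Base W.K (W.H X)) := (x.g 0).symm.toLinearMap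

lemma e_mul_e' (x : Aut W C X) : x.e * x.e' = 1 :=
  LinearMap.ext fun a => (x.g 0).apply_symm_apply a

lemma e'_mul_e (x : Aut W C X) : x.e' * x.e = 1 :=
  LinearMap.ext fun a => (x.g 0).symm_apply_apply a

lemma g_eq (x : Aut W C X) (n : ℕ) : (x.g n).toLinearMap = powEnd W x.e n := by
  induction n with
  | zero => rfl
  | succ n ih =>
    apply hom_ext (X := pw X n) (Y := X)
    intro a b
    have h1 : (x.g (n + 1)).toLinearMap (ext W a b) = ext W ((x.g n).toLinearMap a) (x.e b) :=
      x.map_ext n a b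
    have h2 : powEnd W x.e (n + 1) (ext W a b) = ext W (powEnd W x.e n a) (x.e b) :=
      tens_ext _ _ _ _
    exact h1.trans (Eq.trans (by rw [ih]) h2.symm)

lemma g_apply (x : Aut W C X) (n : ℕ) (a : Base W.K (W.H (pw X n))) :
    x.g n a = powEnd W x.e n a := by
  rw [← g_eq]
  rfl

/-- The element of the group with given matrices. -/
noncomputable def mk' (a a' : Module.End ℂ (Base W.K (W.H X))) (h : a * a' = 1) (h' : a' * a = 1)
    (mu : ℂ) (hmu : mu ≠ 0)
    (hc : ∀ n j, ∀ c ∈ C (pw X n) j, powEnd W a n (tm 1 c) = mu ^ j • tm 1 c) : Aut W C X where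
  g n := LinearEquiv.ofLinear (powEnd W a n) (powEnd W a' n)
    (by
      have h1 := powEnd_mul (W := W) a a' n
      rw [h, powEnd_one] at h1
      exact h1.symm)
    (by
      have h1 := powEnd_mul (W := W) a' a n
      rw [h', powEnd_one] at h1
      exact h1.symm)
  mu := mu
  mu_ne := hmu
  map_ext n x y := tens_ext (W := W) (powEnd W a n) a x y
  map_cls := hc

end Aut

/-- The coordinates: the entries of the matrices of `x` and of its inverse, the multiplier and its
inverse. -/
abbrev Coo (W : WeilCohomology.{u, v} ops) (X : 𝒱.Obj) : Type :=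
  (Fin (sz W X) × Fin (sz W X)) ⊕ ((Fin (sz W X) × Fin (sz W X)) ⊕ Bool)

/-- The coordinates of an element of the group. -/
noncomputable def coo (x : Aut W C X) : Coo W X → ℂ
  | Sum.inl s => ent x.e s
  | Sum.inr (Sum.inl s) => ent x.e' s
  | Sum.inr (Sum.inr false) => x.mu
  | Sum.inr (Sum.inr true) => x.mu⁻¹

/-- The element is rational over `F`. -/
def IsRat (F : Subfield ℂ) (x : Aut W C X) : Prop := ∀ s, coo x s ∈ F

lemma IsRat.one : IsRat F (Aut.one : Aut W C X) := by
  have h1 : ∀ s, ent (1 : Module.End ℂ (Base W.K (W.H X))) s ∈ F := by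
    rintro ⟨i, j⟩
    rw [ent_one]
    split_ifs
    · exact one_mem F
    · exact zero_mem F
  rintro (s | s | _ | _)
  · exact h1 s
  · exact h1 s
  · exact one_mem F
  · exact inv_mem (one_mem F)

lemma IsRat.inv {x : Aut W C X} (h : IsRat F x) : IsRat F x.inv := by
  rintro (s | s | _ | _)
  · exact h (Sum.inr (Sum.inl s))
  · exact h (Sum.inl s)
  · exact h (Sum.inr (Sum.inr true))
  · have h1 := h (Sum.inr (Sum.inr false))
    show x.mu⁻¹⁻¹ ∈ F
    rw [_root_.inv_inv]
    exact h1

/-- The ideal of the polynomials over `F` vanishing on the group. -/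
noncomputable def vanI (F : Subfield ℂ) (W : WeilCohomology.{u, v} ops) [Algebra W.K ℂ]
    (C : Classes W) (X : 𝒱.Obj) : Ideal (MvPolynomial (Coo W X) F) :=
  MvPolynomial.vanishingIdeal F (Set.range (coo : Aut W C X → Coo W X → ℂ))

lemma mem_vanI {q : MvPolynomial (Coo W X) F} :
    q ∈ vanI F W C X ↔ ∀ x : Aut W C X, MvPolynomial.aeval (coo x) q = 0 := by
  rw [vanI, MvPolynomial.mem_vanishingIdeal_iff]
  constructor
  · intro h x
    exact h _ ⟨x, rfl⟩
  · rintro h _ ⟨x, rfl⟩
    exact h x

/-- A point over `F` of the zero locus of the ideal comes from a rational element of the group. -/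
lemma exists_rat (hF : ∀ r : W.K, algebraMap W.K ℂ r ∈ F) (y : Coo W X → F)
    (hy : ∀ e ∈ vanI F W C X, MvPolynomial.aeval y e = 0) :
    ∃ x : Aut W C X, ∀ s, coo x s = y s := by
  classical
  let z : Coo W X → ℂ := fun s => y s
  have hz : ∀ q ∈ vanI F W C X, MvPolynomial.aeval z q = 0 := by
    intro q hq
    have h1 : MvPolynomial.aeval z q = algebraMap F ℂ (MvPolynomial.aeval y q) := by
      have := MvPolynomial.aeval_algebraMap_apply (A := F) (B := ℂ) y q
      exact this
    rw [h1, hy q hq, map_zero]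
  set a : Module.End ℂ (Base W.K (W.H X)) := ofEnt fun s => z (Sum.inl s) with ha
  set a' : Module.End ℂ (Base W.K (W.H X)) := ofEnt fun s => z (Sum.inr (Sum.inl s)) with ha'
  have hent : ∀ s, ent a s = z (Sum.inl s) := fun s => ent_ofEnt _ s
  have hent' : ∀ s, ent a' s = z (Sum.inr (Sum.inl s)) := fun s => ent_ofEnt _ s
  -- the product of the matrices
  have hprod : ∀ i j : Fin (sz W X), ∑ l, z (Sum.inl (i, l)) * z (Sum.inr (Sum.inl (l, j))) =
      if i = j then 1 else 0 := by
    intro i j
    have h1 := hz (∑ l, MvPolynomial.X (Sum.inl (i, l)) * MvPolynomial.X (Sum.inr (Sum.inl (l, j)))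
      - MvPolynomial.C (if i = j then 1 else 0)) (by
        rw [mem_vanI]
        intro x
        rw [map_sub, map_sum, MvPolynomial.aeval_C]
        have h2 : ∑ l, MvPolynomial.aeval (coo x) (MvPolynomial.X (Sum.inl (i, l)) *
            MvPolynomial.X (Sum.inr (Sum.inl (l, j))) : MvPolynomial (Coo W X) F) =
            ent (x.e * x.e') (i, j) := by
          rw [ent_mul]
          apply Finset.sum_congr rfl
          intro l _
          rw [map_mul, MvPolynomial.aeval_X, MvPolynomial.aeval_X]
          rfl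
        rw [h2, x.e_mul_e', ent_one]
        split_ifs <;> simp)
    rw [map_sub, map_sum, MvPolynomial.aeval_C, sub_eq_zero] at h1
    have h3 : algebraMap F ℂ (if i = j then 1 else 0) = if i = j then 1 else 0 := by
      split_ifs <;> simp
    rw [← h3, ← h1]
    apply Finset.sum_congr rfl
    intro l _
    rw [map_mul, MvPolynomial.aeval_X, MvPolynomial.aeval_X]
  have hprod' : ∀ i j : Fin (sz W X), ∑ l, z (Sum.inr (Sum.inl (i, l))) * z (Sum.inl (l, j)) =
      if i = j then 1 else 0 := by
    intro i j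
    have h1 := hz (∑ l, MvPolynomial.X (Sum.inr (Sum.inl (i, l))) * MvPolynomial.X (Sum.inl (l, j))
      - MvPolynomial.C (if i = j then 1 else 0)) (by
        rw [mem_vanI]
        intro x
        rw [map_sub, map_sum, MvPolynomial.aeval_C]
        have h2 : ∑ l, MvPolynomial.aeval (coo x) (MvPolynomial.X (Sum.inr (Sum.inl (i, l))) *
            MvPolynomial.X (Sum.inl (l, j)) : MvPolynomial (Coo W X) F) =
            ent (x.e' * x.e) (i, j) := by
          rw [ent_mul]
          apply Finset.sum_congr rfl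
          intro l _
          rw [map_mul, MvPolynomial.aeval_X, MvPolynomial.aeval_X]
          rfl
        rw [h2, x.e'_mul_e, ent_one]
        split_ifs <;> simp)
    rw [map_sub, map_sum, MvPolynomial.aeval_C, sub_eq_zero] at h1
    have h3 : algebraMap F ℂ (if i = j then 1 else 0) = if i = j then 1 else 0 := by
      split_ifs <;> simp
    rw [← h3, ← h1]
    apply Finset.sum_congr rfl
    intro l _
    rw [map_mul, MvPolynomial.aeval_X, MvPolynomial.aeval_X]
  have haa' : a * a' = 1 := by
    apply ent_ext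
    rintro ⟨i, j⟩
    rw [ent_mul, ent_one, ← hprod i j]
    exact Finset.sum_congr rfl fun l _ => by rw [hent, hent']
  have ha'a : a' * a = 1 := by
    apply ent_ext
    rintro ⟨i, j⟩
    rw [ent_mul, ent_one, ← hprod' i j]
    exact Finset.sum_congr rfl fun l _ => by rw [hent, hent']
  -- the multiplier
  have hmu : z (Sum.inr (Sum.inr false)) * z (Sum.inr (Sum.inr true)) = 1 := by
    have h1 := hz (MvPolynomial.X (Sum.inr (Sum.inr false)) *
      MvPolynomial.X (Sum.inr (Sum.inr true)) - 1) (by
        rw [mem_vanI]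
        intro x
        rw [map_sub, map_mul, MvPolynomial.aeval_X, MvPolynomial.aeval_X, map_one, sub_eq_zero]
        exact mul_inv_cancel₀ x.mu_ne)
    rw [map_sub, map_mul, MvPolynomial.aeval_X, MvPolynomial.aeval_X, map_one, sub_eq_zero] at h1
    exact h1
  have hmu0 : z (Sum.inr (Sum.inr false)) ≠ 0 := left_ne_zero_of_mul_eq_one hmu
  -- the classes
  have hcls : ∀ n j, ∀ c ∈ C (pw X n) j, powEnd W a n (tm 1 c) =
      z (Sum.inr (Sum.inr false)) ^ j • tm 1 c := by
    intro n j c hc
    have key : ∀ φ : W.H (pw X n) →ₗ[W.K] W.K, baseTr φ (powEnd W a n (tm 1 c)) =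
        baseTr φ (z (Sum.inr (Sum.inr false)) ^ j • tm 1 c) := by
      intro φ
      obtain ⟨q, hq⟩ := isPoly_pow (W := W) (X := X) hF n φ c
      have h1 := hz (MvPolynomial.rename Sum.inl q - MvPolynomial.X (Sum.inr (Sum.inr false)) ^ j *
        MvPolynomial.C ⟨algebraMap W.K ℂ (φ c), hF _⟩) (by
          rw [mem_vanI]
          intro x
          rw [map_sub, map_mul, map_pow, MvPolynomial.aeval_X, MvPolynomial.aeval_C,
            MvPolynomial.aeval_rename, sub_eq_zero]
          have h2 : (coo x ∘ Sum.inl) = ent x.e := rfl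
          rw [h2, ← hq]
          show baseTr φ (powEnd W x.e n (tm 1 c)) = _
          rw [← Aut.g_apply, x.map_cls n j c hc, map_smul, baseTr_tm, one_mul, smul_eq_mul]
          rfl)
      rw [map_sub, map_mul, map_pow, MvPolynomial.aeval_X, MvPolynomial.aeval_C,
        MvPolynomial.aeval_rename, sub_eq_zero] at h1
      have h2 : (z ∘ Sum.inl) = ent a := funext fun s => (hent s).symm
      rw [h2, ← hq] at h1
      rw [map_smul, baseTr_tm, one_mul, smul_eq_mul]
      exact h1
    rw [sum_coord (X := pw X n) (powEnd W a n (tm 1 c)),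
      sum_coord (X := pw X n) (z (Sum.inr (Sum.inr false)) ^ j • tm 1 c)]
    apply Finset.sum_congr rfl
    intro l _
    rw [key]
  refine ⟨Aut.mk' a a' haa' ha'a (z (Sum.inr (Sum.inr false))) hmu0 hcls, ?_⟩
  rintro (s | s | _ | _)
  · exact hent s
  · exact hent' s
  · rfl
  · show (z (Sum.inr (Sum.inr false)))⁻¹ = z (Sum.inr (Sum.inr true))
    exact inv_eq_of_mul_eq_one_right hmu

/-- The functions on the group which are polynomials over `F` in the coordinates. -/
noncomputable def polyF (F : Subfield ℂ) (W : WeilCohomology.{u, v} ops) [Algebra W.K ℂ]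
    (C : Classes W) (X : 𝒱.Obj) : Subalgebra F (Aut W C X → ℂ) :=
  (MvPolynomial.aeval (fun s => fun x => coo x s) :
    MvPolynomial (Coo W X) F →ₐ[F] (Aut W C X → ℂ)).range

lemma aeval_apply' {α σ : Type*} (u : σ → α → ℂ) (q : MvPolynomial σ F) (x : α) :
    (MvPolynomial.aeval u q : α → ℂ) x = MvPolynomial.aeval (fun s => u s x) q := by
  have h : (Pi.evalAlgHom F (fun _ : α => ℂ) x).comp (MvPolynomial.aeval u) =
      MvPolynomial.aeval (fun s => u s x) := by
    apply MvPolynomial.algHom_ext
    intro i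
    rw [AlgHom.comp_apply, MvPolynomial.aeval_X, MvPolynomial.aeval_X]
    rfl
  exact congrArg (fun f => f q) h

/-- A polynomial function over `F` which vanishes at the rational elements is zero. -/
lemma polyF_zero [IsAlgClosed F] (hF : ∀ r : W.K, algebraMap W.K ℂ r ∈ F) {u : Aut W C X → ℂ}
    (hu : u ∈ polyF F W C X) (h : ∀ x, IsRat F x → u x = 0) : u = 0 := by
  obtain ⟨q, rfl⟩ := hu
  funext x
  show (MvPolynomial.aeval (fun s => fun x => coo x s) q : Aut W C X → ℂ) x = 0
  rw [aeval_apply']
  refine nullst (vanI F W C X) q ?_ (coo x) (fun e he => mem_vanI.1 he x)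
  intro y hy
  obtain ⟨x', hx'⟩ := exists_rat hF y hy
  have h1 := h x' (fun s => by rw [hx']; exact (y s).2)
  have h2 : (MvPolynomial.aeval (fun s => fun x => coo x s) q : Aut W C X → ℂ) x' = 0 := h1
  rw [aeval_apply'] at h2
  have h3 : (fun s => coo x' s) = fun s => algebraMap F ℂ (y s) := funext hx'
  rw [h3] at h2
  have h4 : MvPolynomial.aeval (fun s => algebraMap F ℂ (y s)) q =
      algebraMap F ℂ (MvPolynomial.aeval y q) := MvPolynomial.aeval_algebraMap_apply _ _ _
  rw [h4] at h2
  exact (algebraMap F ℂ).injective (by rw [h2, map_zero])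

lemma polyF_mem {u : Aut W C X → ℂ} (hu : u ∈ polyF F W C X) {x : Aut W C X} (hx : IsRat F x) :
    u x ∈ F := by
  obtain ⟨q, rfl⟩ := hu
  show (MvPolynomial.aeval (fun s => fun x => coo x s) q : Aut W C X → ℂ) x ∈ F
  rw [aeval_apply']
  have h3 : (fun s => coo x s) = fun s => algebraMap F ℂ (⟨coo x s, hx s⟩ : F) := rfl
  rw [h3]
  have h4 : MvPolynomial.aeval (fun s => algebraMap F ℂ (⟨coo x s, hx s⟩ : F)) q =
      algebraMap F ℂ (MvPolynomial.aeval (fun s => (⟨coo x s, hx s⟩ : F)) q) :=
    MvPolynomial.aeval_algebraMap_apply _ _ _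
  rw [h4]
  exact SetLike.coe_mem _

/-- A complex combination of polynomial functions over `F` which vanishes at the rational elements
is zero. -/
lemma polyC_zero [IsAlgClosed F] (hF : ∀ r : W.K, algebraMap W.K ℂ r ∈ F) {u : Aut W C X → ℂ}
    (hu : u ∈ Submodule.span ℂ (polyF F W C X : Set (Aut W C X → ℂ)))
    (h : ∀ x, IsRat F x → u x = 0) : u = 0 := by
  obtain ⟨n, c, w, hw⟩ := Submodule.mem_span_set'.1 hu
  obtain ⟨m, e, a, he, hc⟩ := exists_indep (F := F) c
  have h1 : ∀ t, (∑ j, (a j t) • (w j : Aut W C X → ℂ)) = 0 := by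
    intro t
    apply polyF_zero hF
    · exact Subalgebra.sum_mem _ fun j _ => Subalgebra.smul_mem _ (w j).2 _
    · intro x hx
      have h2 : ∀ t, (∑ j, (a j t) • (w j : Aut W C X → ℂ)) x =
          ((∑ j, a j t * ⟨_, polyF_mem (w j).2 hx⟩ : F) : ℂ) := by
        intro t
        rw [Finset.sum_apply]
        push_cast
        apply Finset.sum_congr rfl
        intro j _
        rfl
      have h3 : ∑ t, (∑ j, a j t * ⟨_, polyF_mem (w j).2 hx⟩ : F) • e t = 0 := by
        rw [← h x hx, ← hw, Finset.sum_apply]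
        have h4 : ∀ j, (c j • (w j : Aut W C X → ℂ)) x =
            ∑ t, ((a j t : ℂ) * (w j : Aut W C X → ℂ) x) * e t := by
          intro j
          rw [Pi.smul_apply, smul_eq_mul, hc, Finset.sum_mul]
          apply Finset.sum_congr rfl
          intro t _
          ring
        simp only [h4]
        rw [Finset.sum_comm]
        apply Finset.sum_congr rfl
        intro t _
        rw [← Finset.sum_mul]
        have h5 : (∑ j, a j t * ⟨_, polyF_mem (w j).2 hx⟩ : F) • e t =
            ((∑ j, a j t * ⟨_, polyF_mem (w j).2 hx⟩ : F) : ℂ) * e t := rfl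
        rw [h5]
        push_cast
        rfl
      have h6 := Fintype.linearIndependent_iff.1 he _ h3 t
      rw [h2, h6]
      rfl
  rw [← hw]
  funext x
  rw [Finset.sum_apply]
  have h4 : ∀ j, (c j • (w j : Aut W C X → ℂ)) x =
      ∑ t, ((a j t : ℂ) * (w j : Aut W C X → ℂ) x) * e t := by
    intro j
    rw [Pi.smul_apply, smul_eq_mul, hc, Finset.sum_mul]
    apply Finset.sum_congr rfl
    intro t _
    ring
  simp only [h4]
  rw [Finset.sum_comm]
  apply Finset.sum_eq_zero
  intro t _
  rw [← Finset.sum_mul]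
  have h5 := congrFun (h1 t) x
  rw [Finset.sum_apply] at h5
  have h6 : ∑ j, (a j t : ℂ) * (w j : Aut W C X → ℂ) x = 0 := h5
  rw [h6, zero_mul]

end Pool.Agent.R920.PD
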