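import Pool.Agent.R920.PD.Mono

/-!
# Several points with the same Hilbert function
-/

open Module Submodule

namespace Pool.Agent.R920.PD

section Lin

variable {k E E' : Type*} [Field k] [AddCommGroup E] [Module k E] [AddCommGroup E'] [Module k E']

lemma finrank_map_add (N : Submodule k E) [Module.Finite k N] (f : E →ₗ[k] E') :
    finrank k (N.map f) + finrank k (N ⊓ LinearMap.ker f : Submodule k E) = finrank k N := by
  have h := (f.domRestrict N).finrank_range_add_finrank_ker
  have h1 : LinearMap.range (f.domRestrict N) = N.map f := by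
    rw [LinearMap.range_domRestrict]
  have h2 : Submodule.map N.subtype (LinearMap.ker (f.domRestrict N)) =
      N ⊓ LinearMap.ker f := by
    ext x
    simp only [Submodule.mem_map, LinearMap.mem_ker, LinearMap.domRestrict_apply, mem_inf]
    constructor
    · rintro ⟨y, hy, rfl⟩
      exact ⟨y.2, hy⟩
    · rintro ⟨h1, h2⟩
      exact ⟨⟨x, h1⟩, h2, rfl⟩
  rw [h1] at h
  rw [← h2, Submodule.finrank_map_subtype_eq]
  exact h

end Lin

section Pow

variable {k S L : Type*} [Field k] [CommRing S] [Algebra k S] [CommRing L] [Algebra k L]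

instance finite_pow (V : Submodule k S) [Module.Finite k V] (n : ℕ) :
    Module.Finite k (V ^ n : Submodule k S) :=
  Module.Finite.iff_fg.2 ((Module.Finite.iff_fg.1 inferInstance).pow n)

instance finite_map (V : Submodule k S) [Module.Finite k V] (f : S →ₗ[k] L) :
    Module.Finite k (V.map f) := Module.Finite.map V f

lemma pow_mono {V : Submodule k S} (h1 : (1 : S) ∈ V) {m n : ℕ} (h : m ≤ n) : V ^ m ≤ V ^ n :=
  pow_le_pow_right' (one_le.2 h1) h

lemma map_pow_eq (V : Submodule k S) (ε : S →ₐ[k] L) (n : ℕ) :
    (V ^ n).map ε.toLinearMap = (V.map ε.toLinearMap) ^ n := Submodule.map_pow V ε n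

lemma prod_mem_pow {ι : Type*} {V : Submodule k S} {T : Finset ι} {a : ι → S}
    (h : ∀ i ∈ T, a i ∈ V) : ∏ i ∈ T, a i ∈ V ^ T.card := by
  classical
  induction T using Finset.induction_on with
  | empty =>
    rw [Finset.prod_empty, Finset.card_empty, pow_zero]
    exact one_le.1 le_rfl
  | insert j T hj ih =>
    rw [Finset.prod_insert hj, Finset.card_insert_of_notMem hj, pow_succ']
    exact mul_mem_mul (h j (Finset.mem_insert_self _ _))
      (ih fun i hi => h i (Finset.mem_insert_of_mem hi))

/-- The functions in `V ^ n` which vanish at the points of `T`. -/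
noncomputable def van {ι : Type*} (V : Submodule k S) (ε : ι → S →ₐ[k] L) (T : Finset ι) (n : ℕ) :
    Submodule k S :=
  V ^ n ⊓ ⨅ i ∈ T, LinearMap.ker (ε i).toLinearMap

lemma mem_van {ι : Type*} {V : Submodule k S} {ε : ι → S →ₐ[k] L} {T : Finset ι} {n : ℕ} {x : S} :
    x ∈ van V ε T n ↔ x ∈ V ^ n ∧ ∀ i ∈ T, ε i x = 0 := by
  unfold van
  simp only [mem_inf, Submodule.mem_iInf, LinearMap.mem_ker, AlgHom.toLinearMap_apply]

lemma van_insert {ι : Type*} [DecidableEq ι] (V : Submodule k S) (ε : ι → S →ₐ[k] L)
    (T : Finset ι) (j : ι) (n : ℕ) :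
    van V ε (insert j T) n = van V ε T n ⊓ LinearMap.ker (ε j).toLinearMap := by
  ext x
  rw [mem_inf, mem_van, mem_van, LinearMap.mem_ker, AlgHom.toLinearMap_apply]
  constructor
  · rintro ⟨h1, h2⟩
    exact ⟨⟨h1, fun i hi => h2 i (Finset.mem_insert_of_mem hi)⟩, h2 j (Finset.mem_insert_self _ _)⟩
  · rintro ⟨⟨h1, h2⟩, h3⟩
    refine ⟨h1, fun i hi => ?_⟩
    rcases Finset.mem_insert.1 hi with rfl | hi
    · exact h3
    · exact h2 i hi

instance {ι : Type*} (V : Submodule k S) [Module.Finite k V] (ε : ι → S →ₐ[k] L) (T : Finset ι)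
    (n : ℕ) : Module.Finite k (van V ε T n) := by
  unfold van
  exact Submodule.finiteDimensional_inf_left _ _

/-- The dimension of the image of `V ^ n` at the point `i`. -/
noncomputable def img {ι : Type*} (V : Submodule k S) (ε : ι → S →ₐ[k] L) (i : ι) (n : ℕ) : ℕ :=
  finrank k ((V ^ n).map (ε i).toLinearMap)

lemma van_step {ι : Type*} [DecidableEq ι] (V : Submodule k S) [Module.Finite k V]
    (ε : ι → S →ₐ[k] L) (T : Finset ι) (j : ι) (n : ℕ) :
    finrank k ((van V ε T n).map (ε j).toLinearMap) + finrank k (van V ε (insert j T) n) =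
      finrank k (van V ε T n) := by
  rw [van_insert]
  exact finrank_map_add _ _

/-- The upper bound: the dimension is at most the sum of the dimensions of the images. -/
lemma le_sum {ι : Type*} (V : Submodule k S) [Module.Finite k V] (ε : ι → S →ₐ[k] L)
    (T : Finset ι) (n : ℕ) :
    finrank k (V ^ n : Submodule k S) ≤ ∑ i ∈ T, img V ε i n + finrank k (van V ε T n) := by
  classical
  induction T using Finset.induction_on with
  | empty =>
    rw [Finset.sum_empty, zero_add]
    apply Submodule.finrank_mono
    intro x hx
    exact mem_van.2 ⟨hx, fun i hi => absurd hi (Finset.notMem_empty i)⟩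
  | insert j T hj ih =>
    rw [Finset.sum_insert hj]
    have h1 := van_step V ε T j n
    have h2 : finrank k ((van V ε T n).map (ε j).toLinearMap) ≤ img V ε j n :=
      Submodule.finrank_mono (Submodule.map_mono inf_le_left)
    omega

/-- The lower bound: `r` points with the same Hilbert function which are separated by elements of
`V ^ d`. -/
lemma card_mul_le [IsDomain L] {ι : Type*} (V : Submodule k S) [Module.Finite k V]
    (h1 : (1 : S) ∈ V) (ε : ι → S →ₐ[k] L) (p : ℕ → ℕ) (hp : ∀ i n, img V ε i n = p n) (d : ℕ)
    (s : Finset ι) (hs : ∀ i ∈ s, ∀ j ∈ s, i ≠ j → ∃ a ∈ V ^ d, ε i a = 0 ∧ ε j a ≠ 0) (n : ℕ)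
    (hn : (s.card - 1) * d ≤ n) :
    s.card * p (n - (s.card - 1) * d) ≤ finrank k (V ^ n : Submodule k S) := by
  classical
  have key : ∀ T ⊆ s, finrank k (van V ε T n) + T.card * p (n - (s.card - 1) * d) ≤
      finrank k (V ^ n : Submodule k S) := by
    intro T
    induction T using Finset.induction_on with
    | empty =>
      intro _
      rw [Finset.card_empty, zero_mul, add_zero]
      exact Submodule.finrank_mono inf_le_left
    | insert j T hj ih =>
      intro hT
      have hTs : T ⊆ s := fun x hx => hT (Finset.mem_insert_of_mem hx)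
      have hjs : j ∈ s := hT (Finset.mem_insert_self _ _)
      have h2 := ih hTs
      have h3 := van_step V ε T j n
      have h4 : p (n - (s.card - 1) * d) ≤ finrank k ((van V ε T n).map (ε j).toLinearMap) := by
        choose! a ha using fun i (hi : i ∈ T) => hs i (hTs hi) j hjs (fun h => hj (h ▸ hi))
        set b : S := ∏ i ∈ T, a i with hb
        have hbV : b ∈ V ^ ((s.card - 1) * d) := by
          have h5 : b ∈ V ^ (T.card * d) := by
            rw [hb, mul_comm, pow_mul]
            exact prod_mem_pow (fun i hi => (ha i hi).1)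
          refine pow_mono h1 (Nat.mul_le_mul_right d ?_) h5
          have h6 : T.card + 1 ≤ s.card := by
            rw [← Finset.card_insert_of_notMem hj]
            exact Finset.card_le_card hT
          omega
        have hbT : ∀ i ∈ T, ε i b = 0 := by
          intro i hi
          rw [hb, map_prod]
          exact Finset.prod_eq_zero hi (ha i hi).2.1
        have hbj : ε j b ≠ 0 := by
          rw [hb, map_prod]
          exact Finset.prod_ne_zero_iff.2 fun i hi => (ha i hi).2.2
        have h7 : ((V ^ (n - (s.card - 1) * d)).map (ε j).toLinearMap).map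
            (LinearMap.mulLeft k (ε j b)) ≤ (van V ε T n).map (ε j).toLinearMap := by
          rintro x ⟨y, ⟨z, hz, rfl⟩, rfl⟩
          refine ⟨b * z, ?_, ?_⟩
          · show b * z ∈ van V ε T n
            rw [mem_van]
            refine ⟨?_, fun i hi => ?_⟩
            · have h8 := mul_mem_mul hbV hz
              rw [← pow_add, Nat.add_sub_cancel' hn] at h8
              exact h8
            · rw [map_mul, hbT i hi, zero_mul]
          · rw [AlgHom.toLinearMap_apply, map_mul, AlgHom.toLinearMap_apply,
              LinearMap.mulLeft_apply]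
        have h9 : Function.Injective (LinearMap.mulLeft k (ε j b)) := by
          intro x y hxy
          exact mul_left_cancel₀ hbj hxy
        have h10 : finrank k (((V ^ (n - (s.card - 1) * d)).map (ε j).toLinearMap).map
            (LinearMap.mulLeft k (ε j b))) = p (n - (s.card - 1) * d) := by
          rw [← hp j (n - (s.card - 1) * d), img]
          exact (Submodule.equivMapOfInjective _ h9 _).finrank_eq.symm
        rw [← h10]
        exact Submodule.finrank_mono h7
      rw [Finset.card_insert_of_notMem hj, add_mul, one_mul]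
      omega
  have h := key s (Finset.Subset.refl s)
  omega

end Pow

end Pool.Agent.R920.PD
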