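import Pool.Agent.R920.PD.Main2

/-!
# Rational points of the torsor
-/

open CategoryTheory AlgebraicGeometry Module

universe u v

namespace Pool.Agent.R920.PD

open Pool.Agent.H914 Pool.Agent.H914.VarClass Pool.Agent.H914.VarClass.Obj
  Pool.Agent.H914.WeilCohomology Pool.Agent.Y133.Per
open Pool.Agent.Y133.Half (pw)

variable {k : Type u} [Field k] {𝒱 : VarClass k} {ops : CycleOps 𝒱}
  {W : WeilCohomology.{u, v} ops} [Algebra W.K ℂ] {F : Subfield ℂ} {X Y : 𝒱.Obj} {C : Classes W}

/-- A basis of the cohomology with complex coefficients consisting of elements of the de Rham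
cohomology. -/
lemma exists_dR_basis (D : DeRham W F) (X : 𝒱.Obj) :
    ∃ e : Basis (Fin (sz W X)) ℂ (Base W.K (W.H X)), (∀ l, e l ∈ D.dR X) ∧
      ∀ ω ∈ D.dR X, ∀ l, e.repr ω l ∈ F := by
  have h0 : twoPiI ^ X.dim ≠ 0 := pow_ne_zero _ twoPiI_ne
  let B : Base W.K (W.H X) →ₗ[ℂ] Base W.K (W.H X) →ₗ[ℂ] ℂ :=
    (twoPiI ^ X.dim)⁻¹ • ((LinearMap.mul ℂ (Base W.K (W.H X))).compr₂ (baseTr (W.tr X)))
  have hBe : ∀ v w, B v w = (twoPiI ^ X.dim)⁻¹ * baseTr (W.tr X) (v * w) := fun v w => rfl
  have hD : ∀ v ∈ D.dR X, ∀ w ∈ D.dR X, B v w ∈ F := by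
    intro v hv w hw
    obtain ⟨r, hr, h⟩ := (D.form X).tr _ ((D.form X).mul v hv w hw)
    rw [hBe, h, ← mul_assoc, inv_mul_cancel₀ h0, one_mul]
    exact hr
  obtain ⟨s, hs, hspan, hli⟩ := exists_linearIndependent ℂ (D.dR X)
  have hfin : s.Finite := hli.setFinite
  rw [(D.form X).span] at hspan
  have hsub : ∀ z ∈ Submodule.span F s, z ∈ D.dR X := by
    intro z hz
    have h1 : Submodule.span F s ≤ dRSub D X := Submodule.span_le.2 hs
    exact h1 hz
  have hle : ∀ v ∈ D.dR X, v ∈ Submodule.span F s := by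
    intro v hv
    refine mem_of_pair (Submodule.span F s) ?_ B ?_ ?_ ?_
    · rw [eq_top_iff, ← hspan, Submodule.span_le]
      exact fun x hx => Submodule.subset_span (Submodule.subset_span hx)
    · intro v hv
      apply baseTr_nondeg _ (Pool.Agent.Y133.Half.exists_dual_class W)
      intro b
      have h1 := hv b
      rw [hBe] at h1
      exact (mul_eq_zero.1 h1).resolve_left (inv_ne_zero h0)
    · exact fun v hv w hw => hD v (hsub v hv) w (hsub w hw)
    · exact fun w hw => hD v hv w (hsub w hw)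
  have : Fintype s := hfin.fintype
  let e₀ : Basis s ℂ (Base W.K (W.H X)) :=
    Basis.mk hli (by rw [Subtype.range_coe, hspan])
  have he₀ : ∀ i, e₀ i = (i : Base W.K (W.H X)) := fun i => by rw [Basis.mk_apply]
  have hcard : Fintype.card s = sz W X := by
    rw [← Module.finrank_eq_card_basis e₀, finrank_base]
  have hF : ∀ ω ∈ D.dR X, ∀ l, e₀.repr ω l ∈ F := by
    intro ω hω l
    refine Submodule.span_induction (p := fun ω _ => e₀.repr ω l ∈ F) ?_ ?_ ?_ ?_ (hle ω hω)
    · intro x hx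
      have h1 : x = e₀ ⟨x, hx⟩ := (he₀ ⟨x, hx⟩).symm
      rw [h1, Basis.repr_self]
      classical
      rw [Finsupp.single_apply]
      split_ifs
      · exact one_mem F
      · exact zero_mem F
    · rw [map_zero]
      exact zero_mem F
    · intro a b _ _ ha hb
      rw [map_add]
      exact add_mem ha hb
    · intro r a _ ha
      have h1 : e₀.repr (r • a) = (r : ℂ) • e₀.repr a := map_smul e₀.repr (r : ℂ) a
      rw [h1]
      exact mul_mem r.2 ha
  refine ⟨e₀.reindex (Fintype.equivFinOfCardEq hcard), fun l => ?_, fun ω hω l => ?_⟩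
  · rw [Basis.reindex_apply, he₀]
    exact hs (Subtype.coe_prop _)
  · rw [Basis.repr_reindex_apply]
    exact hF ω hω _

/-- The elements with coordinates in `F`. -/
noncomputable def HF (F : Subfield ℂ) (W : WeilCohomology.{u, v} ops) [Algebra W.K ℂ]
    (X : 𝒱.Obj) : Submodule F (Base W.K (W.H X)) :=
  Submodule.span F (Set.range fun c : W.H X => (tm 1 c : Base W.K (W.H X)))

lemma tm_mem_HF (c : W.H X) : (tm 1 c : Base W.K (W.H X)) ∈ HF F W X :=
  Submodule.subset_span ⟨c, rfl⟩

lemma ext_HF {x : Base W.K (W.H X)} {y : Base W.K (W.H Y)} (hx : x ∈ HF F W X)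
    (hy : y ∈ HF F W Y) : ext W x y ∈ HF F W (X.prod Y) := by
  refine Submodule.span_induction (p := fun x _ => ext W x y ∈ HF F W (X.prod Y)) ?_ ?_ ?_ ?_ hx
  · rintro _ ⟨c, rfl⟩
    refine Submodule.span_induction (p := fun y _ => ext W (tm 1 c) y ∈ HF F W (X.prod Y))
      ?_ ?_ ?_ ?_ hy
    · rintro _ ⟨d, rfl⟩
      show ext W (tm 1 c) (tm 1 d) ∈ HF F W (X.prod Y)
      rw [ext_tm, mul_one]
      exact tm_mem_HF _
    · rw [← extL_apply, map_zero]
      exact Submodule.zero_mem _
    · intro a b _ _ ha hb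
      rw [ext_add_right]
      exact Submodule.add_mem _ ha hb
    · intro r a _ ha
      have h1 : ext W (tm 1 c) (r • a) = (r : ℂ) • ext W (tm 1 c) a :=
        ext_smul_right (W := W) (r : ℂ) _ _
      rw [h1]
      exact Submodule.smul_mem _ r ha
  · rw [← extL_apply, map_zero, LinearMap.zero_apply]
    exact Submodule.zero_mem _
  · intro a b _ _ ha hb
    rw [ext_add_left]
    exact Submodule.add_mem _ ha hb
  · intro r a _ ha
    have h1 : ext W (r • a) y = (r : ℂ) • ext W a y := ext_smul_left (W := W) (r : ℂ) _ _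
    rw [h1]
    exact Submodule.smul_mem _ r ha

/-- Powers of an endomorphism which maps the de Rham cohomology into the elements over `F`. -/
lemma powEnd_HF (D : DeRham W F) (Q : Module.End ℂ (Base W.K (W.H X)))
    (hQ : ∀ ω ∈ D.dR X, Q ω ∈ HF F W X) (n : ℕ) :
    ∀ ω ∈ D.dR (pw X n), powEnd W Q n ω ∈ HF F W (pw X n) := by
  induction n with
  | zero => exact hQ
  | succ n ih =>
    intro ω hω
    have h1 : ω ∈ Submodule.span F {z | ∃ x ∈ D.dR (pw X n), ∃ y ∈ D.dR X, z = ext W x y} :=
      dR_ext (X := pw X n) (Y := X) D hω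
    refine Submodule.span_induction (p := fun ω _ =>
      tens W (powEnd W Q n) Q ω ∈ HF F W ((pw X n).prod X)) ?_ ?_ ?_ ?_ h1
    · rintro z ⟨x, hx, y, hy, rfl⟩
      rw [tens_ext]
      exact ext_HF (ih x hx) (hQ y hy)
    · rw [map_zero]
      exact Submodule.zero_mem _
    · intro a b _ _ ha hb
      rw [map_add]
      exact Submodule.add_mem _ ha hb
    · intro r a _ ha
      have h2 : tens W (powEnd W Q n) Q (r • a) = (r : ℂ) • tens W (powEnd W Q n) Q a :=
        map_smul _ (r : ℂ) a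
      rw [h2]
      exact Submodule.smul_mem _ r ha

lemma isPoly_HF (hF : ∀ r : W.K, algebraMap W.K ℂ r ∈ F) (n : ℕ)
    (φ : W.H (pw X n) →ₗ[W.K] W.K) (z : Base W.K (W.H (pw X n))) (hz : z ∈ HF F W (pw X n)) :
    IsPoly F fun a : Module.End ℂ (Base W.K (W.H X)) => baseTr φ (powEnd W a n z) := by
  refine Submodule.span_induction (p := fun z _ =>
    IsPoly F fun a : Module.End ℂ (Base W.K (W.H X)) => baseTr φ (powEnd W a n z)) ?_ ?_ ?_ ?_ hz
  · rintro _ ⟨c, rfl⟩
    exact isPoly_pow hF n φ c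
  · refine (IsPoly.const (zero_mem F)).congr fun a => ?_
    rw [map_zero, map_zero]
  · intro x y _ _ hx hy
    refine (hx.add hy).congr fun a => ?_
    rw [map_add, map_add]
  · intro r x _ hx
    refine ((IsPoly.const r.2).mul hx).congr fun a => ?_
    have h1 : powEnd W a n (r • x) = (r : ℂ) • powEnd W a n x := map_smul _ (r : ℂ) x
    rw [h1, map_smul, smul_eq_mul]

/-- The coordinates on the torsor. -/
noncomputable def cooT (P Q : Module.End ℂ (Base W.K (W.H X))) (τ : ℂ) (x : Aut W C X) :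
    Coo W X → ℂ
  | Sum.inl s => ent (x.e * P) s
  | Sum.inr (Sum.inl s) => ent (Q * x.e') s
  | Sum.inr (Sum.inr false) => τ * x.mu
  | Sum.inr (Sum.inr true) => (τ * x.mu)⁻¹

/-- A point over `F` of the zero locus of the ideal of the torsor comes from an element of the
group. -/
lemma exists_ratT (hF : ∀ r : W.K, algebraMap W.K ℂ r ∈ F)
    (P Q : Module.End ℂ (Base W.K (W.H X))) (hPQ : P * Q = 1) (hQP : Q * P = 1) (τ : ℂ)
    (hτ : τ ≠ 0) (hC : ∀ n j, ∀ c ∈ C (pw X n) j, τ ^ j • powEnd W Q n (tm 1 c) ∈ HF F W (pw X n))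
    (y : Coo W X → F)
    (hy : ∀ e ∈ MvPolynomial.vanishingIdeal F (Set.range (cooT (C := C) P Q τ)),
      MvPolynomial.aeval y e = 0) :
    ∃ x : Aut W C X, ∀ s, cooT P Q τ x s = y s := by
  classical
  let z : Coo W X → ℂ := fun s => y s
  have hz : ∀ q : MvPolynomial (Coo W X) F,
      (∀ x : Aut W C X, MvPolynomial.aeval (cooT P Q τ x) q = 0) → MvPolynomial.aeval z q = 0 := by
    intro q hq
    have h1 : MvPolynomial.aeval z q = algebraMap F ℂ (MvPolynomial.aeval y q) :=
      MvPolynomial.aeval_algebraMap_apply (A := F) (B := ℂ) y q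
    rw [h1, hy q (by
      rw [MvPolynomial.mem_vanishingIdeal_iff]
      rintro _ ⟨x, rfl⟩
      exact hq x), map_zero]
  set a : Module.End ℂ (Base W.K (W.H X)) := ofEnt fun s => z (Sum.inl s) with ha
  set a' : Module.End ℂ (Base W.K (W.H X)) := ofEnt fun s => z (Sum.inr (Sum.inl s)) with ha'
  have hent : ∀ s, ent a s = z (Sum.inl s) := fun s => ent_ofEnt _ s
  have hent' : ∀ s, ent a' s = z (Sum.inr (Sum.inl s)) := fun s => ent_ofEnt _ s
  have hx1 : ∀ x : Aut W C X, (x.e * P) * (Q * x.e') = 1 := by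
    intro x
    rw [mul_assoc, ← mul_assoc P, hPQ, one_mul, x.e_mul_e']
  have hx2 : ∀ x : Aut W C X, (Q * x.e') * (x.e * P) = 1 := by
    intro x
    rw [mul_assoc, ← mul_assoc x.e', x.e'_mul_e, one_mul, hQP]
  -- the product of the matrices
  have hprod : ∀ i j : Fin (sz W X), ∑ l, z (Sum.inl (i, l)) * z (Sum.inr (Sum.inl (l, j))) =
      if i = j then 1 else 0 := by
    intro i j
    have h1 := hz (∑ l, MvPolynomial.X (Sum.inl (i, l)) * MvPolynomial.X (Sum.inr (Sum.inl (l, j)))
      - MvPolynomial.C (if i = j then 1 else 0)) (by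
        intro x
        rw [map_sub, map_sum, MvPolynomial.aeval_C]
        have h2 : ∑ l, MvPolynomial.aeval (cooT P Q τ x) (MvPolynomial.X (Sum.inl (i, l)) *
            MvPolynomial.X (Sum.inr (Sum.inl (l, j))) : MvPolynomial (Coo W X) F) =
            ent ((x.e * P) * (Q * x.e')) (i, j) := by
          rw [ent_mul]
          apply Finset.sum_congr rfl
          intro l _
          rw [map_mul, MvPolynomial.aeval_X, MvPolynomial.aeval_X]
          rfl
        rw [h2, hx1, ent_one]
        split_ifs <;> simp)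
    rw [map_sub, map_sum, MvPolynomial.aeval_C, sub_eq_zero] at h1
    have h3 : algebraMap F ℂ (if i = j then 1 else 0) = if i = j then 1 else 0 := by
      split_ifs <;> simp
    rw [← h3, ← h1]
    apply Finset.sum_congr rfl
    intro l _
    rw [map_mul, MvPolynomial.aeval_X, MvPolynomial.aeval_X]
  have hprod' : ∀ i j : Fin (sz W X), ∑ l, z (Sum.inr (Sum.inl (i, l))) * z (Sum.inl (l, j)) =
      if i = j then 1 else 0 := by
    intro i j
    have h1 := hz (∑ l, MvPolynomial.X (Sum.inr (Sum.inl (i, l))) * MvPolynomial.X (Sum.inl (l, j))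
      - MvPolynomial.C (if i = j then 1 else 0)) (by
        intro x
        rw [map_sub, map_sum, MvPolynomial.aeval_C]
        have h2 : ∑ l, MvPolynomial.aeval (cooT P Q τ x) (MvPolynomial.X (Sum.inr (Sum.inl (i, l))) *
            MvPolynomial.X (Sum.inl (l, j)) : MvPolynomial (Coo W X) F) =
            ent ((Q * x.e') * (x.e * P)) (i, j) := by
          rw [ent_mul]
          apply Finset.sum_congr rfl
          intro l _
          rw [map_mul, MvPolynomial.aeval_X, MvPolynomial.aeval_X]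
          rfl
        rw [h2, hx2, ent_one]
        split_ifs <;> simp)
    rw [map_sub, map_sum, MvPolynomial.aeval_C, sub_eq_zero] at h1
    have h3 : algebraMap F ℂ (if i = j then 1 else 0) = if i = j then 1 else 0 := by
      split_ifs <;> simp
    rw [← h3, ← h1]
    apply Finset.sum_congr rfl
    intro l _
    rw [map_mul, MvPolynomial.aeval_X, MvPolynomial.aeval_X]
  have haa' : a * a' = 1 := by
    apply ent_ext
    rintro ⟨i, j⟩
    rw [ent_mul, ent_one, ← hprod i j]
    exact Finset.sum_congr rfl fun l _ => by rw [hent, hent']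
  have ha'a : a' * a = 1 := by
    apply ent_ext
    rintro ⟨i, j⟩
    rw [ent_mul, ent_one, ← hprod' i j]
    exact Finset.sum_congr rfl fun l _ => by rw [hent, hent']
  -- the multiplier
  have hmu : z (Sum.inr (Sum.inr false)) * z (Sum.inr (Sum.inr true)) = 1 := by
    have h1 := hz (MvPolynomial.X (Sum.inr (Sum.inr false)) *
      MvPolynomial.X (Sum.inr (Sum.inr true)) - 1) (by
        intro x
        rw [map_sub, map_mul, MvPolynomial.aeval_X, MvPolynomial.aeval_X, map_one, sub_eq_zero]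
        exact mul_inv_cancel₀ (mul_ne_zero hτ x.mu_ne))
    rw [map_sub, map_mul, MvPolynomial.aeval_X, MvPolynomial.aeval_X, map_one, sub_eq_zero] at h1
    exact h1
  have hmu0 : z (Sum.inr (Sum.inr false)) ≠ 0 := left_ne_zero_of_mul_eq_one hmu
  -- the classes
  have hcls : ∀ n j, ∀ c ∈ C (pw X n) j, powEnd W (a * Q) n (tm 1 c) =
      (z (Sum.inr (Sum.inr false)) / τ) ^ j • tm 1 c := by
    intro n j c hc
    have key : ∀ φ : W.H (pw X n) →ₗ[W.K] W.K,
        baseTr φ (powEnd W a n (τ ^ j • powEnd W Q n (tm 1 c))) =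
        z (Sum.inr (Sum.inr false)) ^ j * algebraMap W.K ℂ (φ c) := by
      intro φ
      obtain ⟨q, hq⟩ := isPoly_HF (W := W) (X := X) hF n φ _ (hC n j c hc)
      have h1 := hz (MvPolynomial.rename Sum.inl q - MvPolynomial.X (Sum.inr (Sum.inr false)) ^ j *
        MvPolynomial.C ⟨algebraMap W.K ℂ (φ c), hF _⟩) (by
          intro x
          rw [map_sub, map_mul, map_pow, MvPolynomial.aeval_X, MvPolynomial.aeval_C,
            MvPolynomial.aeval_rename, sub_eq_zero]
          have h2 : (cooT P Q τ x ∘ Sum.inl) = ent (x.e * P) := rfl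
          rw [h2, ← hq]
          show baseTr φ (powEnd W (x.e * P) n (τ ^ j • powEnd W Q n (tm 1 c))) = _
          have h3 : powEnd W (x.e * P) n (powEnd W Q n (tm 1 c)) = powEnd W x.e n (tm 1 c) := by
            have h4 := powEnd_mul (W := W) (x.e * P) Q n
            rw [mul_assoc, hPQ, mul_one] at h4
            rw [h4]
            rfl
          rw [map_smul, h3, ← Aut.g_apply, x.map_cls n j c hc, map_smul, map_smul, baseTr_tm,
            one_mul, smul_eq_mul, smul_eq_mul, ← mul_assoc, ← mul_pow]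
          rfl)
      rw [map_sub, map_mul, map_pow, MvPolynomial.aeval_X, MvPolynomial.aeval_C,
        MvPolynomial.aeval_rename, sub_eq_zero] at h1
      have h2 : (z ∘ Sum.inl) = ent a := funext fun s => (hent s).symm
      rw [h2, ← hq] at h1
      exact h1
    have h5 : powEnd W (a * Q) n (tm 1 c) = powEnd W a n (powEnd W Q n (tm 1 c)) := by
      rw [powEnd_mul]
      rfl
    have h6 : ∀ φ : W.H (pw X n) →ₗ[W.K] W.K, baseTr φ (powEnd W (a * Q) n (tm 1 c)) =
        baseTr φ ((z (Sum.inr (Sum.inr false)) / τ) ^ j • tm 1 c) := by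
      intro φ
      have h7 := key φ
      rw [map_smul, map_smul, smul_eq_mul] at h7
      rw [h5, map_smul, baseTr_tm, one_mul, smul_eq_mul, div_pow, div_mul_eq_mul_div, ← h7,
        mul_div_cancel_left₀ _ (pow_ne_zero j hτ)]
    rw [sum_coord (X := pw X n) (powEnd W (a * Q) n (tm 1 c)),
      sum_coord (X := pw X n) ((z (Sum.inr (Sum.inr false)) / τ) ^ j • tm 1 c)]
    apply Finset.sum_congr rfl
    intro l _
    rw [h6]
  have h8 : (a * Q) * (P * a') = 1 := by
    rw [mul_assoc, ← mul_assoc Q, hQP, one_mul, haa']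
  have h9 : (P * a') * (a * Q) = 1 := by
    rw [mul_assoc, ← mul_assoc a', ha'a, one_mul, hPQ]
  refine ⟨Aut.mk' (a * Q) (P * a') h8 h9 (z (Sum.inr (Sum.inr false)) / τ)
    (div_ne_zero hmu0 hτ) hcls, ?_⟩
  rintro (s | s | _ | _)
  · show ent ((a * Q) * P) s = z (Sum.inl s)
    rw [mul_assoc, hQP, mul_one, hent]
  · show ent (Q * (P * a')) s = z (Sum.inr (Sum.inl s))
    rw [← mul_assoc, hQP, one_mul, hent']
  · show τ * (z (Sum.inr (Sum.inr false)) / τ) = z (Sum.inr (Sum.inr false))
    exact mul_div_cancel₀ _ hτ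
  · show (τ * (z (Sum.inr (Sum.inr false)) / τ))⁻¹ = z (Sum.inr (Sum.inr true))
    rw [mul_div_cancel₀ _ hτ]
    exact inv_eq_of_mul_eq_one_right hmu

/-- **A point over `F` of the torsor**: an element of the group which maps the de Rham cohomology
into the elements with coordinates in `F`. -/
theorem exists_point [IsAlgClosed F] (D : DeRham W F)
    (hC : ∀ n j, ∀ c ∈ C (pw X n) j, twist j c ∈ D.dR (pw X n)) :
    ∃ x : Aut W C X, ∀ ω ∈ D.dR X, x.e ω ∈ HF F W X := by
  obtain ⟨e, he, heF⟩ := exists_dR_basis D X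
  let b' : Basis (Fin (sz W X)) ℂ (Base W.K (W.H X)) := (bs W X).baseChange ℂ
  have hb' : ∀ i, b' i = (tm 1 (bs W X i) : Base W.K (W.H X)) := fun i =>
    Basis.baseChange_apply _ _ _
  let Q : Module.End ℂ (Base W.K (W.H X)) := (e.equiv b' (Equiv.refl _)).toLinearMap
  let P : Module.End ℂ (Base W.K (W.H X)) := (e.equiv b' (Equiv.refl _)).symm.toLinearMap
  have hPQ : P * Q = 1 := LinearMap.ext fun z => (e.equiv b' (Equiv.refl _)).symm_apply_apply z
  have hQP : Q * P = 1 := LinearMap.ext fun z => (e.equiv b' (Equiv.refl _)).apply_symm_apply z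
  have hQe : ∀ l, Q (e l) = tm 1 (bs W X l) := by
    intro l
    show e.equiv b' (Equiv.refl _) (e l) = _
    rw [Basis.equiv_apply, Equiv.refl_apply, hb']
  have hPb : ∀ l, P (tm 1 (bs W X l)) = e l := by
    intro l
    rw [← hQe l]
    exact (e.equiv b' (Equiv.refl _)).symm_apply_apply _
  have hQ : ∀ ω ∈ D.dR X, Q ω ∈ HF F W X := by
    intro ω hω
    have h1 : ω = ∑ l, e.repr ω l • e l := (e.sum_repr ω).symm
    rw [h1, map_sum]
    refine Submodule.sum_mem _ fun l _ => ?_
    rw [map_smul, hQe]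
    exact Submodule.smul_mem _ (⟨_, heF ω hω l⟩ : F) (tm_mem_HF _)
  have hC' : ∀ n j, ∀ c ∈ C (pw X n) j,
      twoPiI ^ j • powEnd W Q n (tm 1 c) ∈ HF F W (pw X n) := by
    intro n j c hc
    have h1 := powEnd_HF D Q hQ n _ (hC n j c hc)
    have h2 : (twist j c : Base W.K (W.H (pw X n))) = twoPiI ^ j • tm 1 c := by
      rw [smul_tm, mul_one]
      rfl
    rw [h2, map_smul] at h1
    exact h1
  -- the torsor has a complex point, hence a point over `F`
  obtain ⟨y, hy⟩ : ∃ y : Coo W X → F,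
      ∀ e ∈ MvPolynomial.vanishingIdeal F (Set.range (cooT (C := C) P Q twoPiI)),
        MvPolynomial.aeval y e = 0 := by
    by_contra hcon
    push Not at hcon
    have h1 := nullst (MvPolynomial.vanishingIdeal F (Set.range (cooT (C := C) P Q twoPiI))) 1
      (fun y hy => by
        obtain ⟨e, he, he'⟩ := hcon y
        exact absurd (hy e he) he') (cooT P Q twoPiI (Aut.one : Aut W C X)) (fun e he =>
          MvPolynomial.mem_vanishingIdeal_iff.1 he _ ⟨_, rfl⟩)
    rw [map_one] at h1
    exact one_ne_zero h1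
  obtain ⟨x, hx⟩ := exists_ratT (D.form X).scal P Q hPQ hQP twoPiI twoPiI_ne hC' y hy
  refine ⟨x, fun ω hω => ?_⟩
  have h1 : ω = ∑ l, e.repr ω l • e l := (e.sum_repr ω).symm
  rw [h1, map_sum]
  refine Submodule.sum_mem _ fun l _ => ?_
  rw [map_smul]
  refine Submodule.smul_mem _ (⟨_, heF ω hω l⟩ : F) ?_
  rw [sum_coord (x.e (e l))]
  refine Submodule.sum_mem _ fun i _ => ?_
  have h2 : baseTr ((bs W X).coord i) (x.e (e l)) = y (Sum.inl (i, l)) := by
    have h3 := hx (Sum.inl (i, l))
    have h4 : cooT P Q twoPiI x (Sum.inl (i, l)) =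
      baseTr ((bs W X).coord i) (x.e (P (tm 1 (bs W X l)))) := rfl
    rw [h4, hPb] at h3
    exact h3
  rw [h2]
  exact Submodule.smul_mem _ (y (Sum.inl (i, l))) (tm_mem_HF _)

end Pool.Agent.R920.PD
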